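import Pool.Agent.Work.MP_1ece5f_pr.Conv

open MeasureTheory Filter Topology
open scoped ENNReal

namespace Pool.Agent.Work.MP_1ece5f_pr

set_option maxHeartbeats 400000

attribute [local irreducible] kwStep

section
variable {n : ℕ} {νS νT : Measure ℝ} {μ : Measure (Fin (n + 1) → ℝ)} {β : ℝ}
  {με : ℝ → Measure (Fin (n + 1) → ℝ)} {F G : Om n → ℝ}

/-- the integral is the same for all systems of the family -/
lemma Cv.of_const (H : Fam n νS νT μ β με) (hF : Continuous F) {c : ℝ}
    (h0 : HI (jt μ νS νT) F c)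
    (he : ∀ ε, Sys n (perturb νS β ε) νT (με ε) → 0 < ε → HI (je νS νT β με ε) F c) :
    Cv νS νT μ β με F := by
  refine ⟨hF, h0.1, ?_, ?_⟩
  · filter_upwards [H.ev] with ε hε
    exact (he ε hε.2.2.2 hε.1).1
  · rw [h0.2]
    apply tendsto_const_nhds.congr'
    filter_upwards [H.ev] with ε hε
    exact (he ε hε.2.2.2 hε.1).2.symm

lemma Cv.h (H : Fam n νS νT μ β με) {h : ℝ → ℝ} (hc : Continuous h) (hi : Integrable h νT) :
    Cv νS νT μ β με (fun p => h p.2) := by
  have := H.base.pS; have := H.base.pT; have := H.base.pmu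
  apply Cv.of_const H (hc.comp continuous_snd) (HIh hi)
  intro ε hε _
  have := hε.pS; have := hε.pmu
  exact HIh hi

lemma Cv.s (H : Fam n νS νT μ β με) : Cv νS νT μ β με (fun p => p.1.2) := by
  have := H.base.pS; have := H.base.pT; have := H.base.pmu
  apply Cv.of_const H (by fun_prop) (HIg (g := fun s => s) H.base.S1)
  intro ε hε hε0
  have := hε.pS; have := hε.pmu
  exact (HIg (g := fun s => s) hε.S1).congr (ae_of_all _ fun _ => rfl)
    (perturb_id H.base.S1 hε0).2

lemma Cv.st (H : Fam n νS νT μ β με) : Cv νS νT μ β με (fun p => p.1.2 * p.2) := by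
  have := H.base.pS; have := H.base.pT; have := H.base.pmu
  apply Cv.of_const H (by fun_prop)
    (HIgh (g := fun s => s) (h := fun t => t) H.base.S1 H.base.T1)
  intro ε hε hε0
  have := hε.pS; have := hε.pmu
  exact (HIgh (g := fun s => s) (h := fun t => t) hε.S1 H.base.T1).congr
    (ae_of_all _ fun _ => rfl) (by rw [(perturb_id H.base.S1 hε0).2])

lemma HI_jt_perturb {μ' : Measure (Fin (n + 1) → ℝ)} {ε : ℝ} [IsProbabilityMeasure μ']
    [IsProbabilityMeasure νS] [IsProbabilityMeasure νT] {a b : ℝ} (hF : Measurable F)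
    (h1 : HI (jt μ' νS νT) (fun p => F ((p.1.1, p.1.2 * (1 - β * ε)), p.2)) a)
    (h2 : HI (jt μ' νS νT) (fun p => F ((p.1.1, p.1.2 * (1 + β / ε)), p.2)) b) :
    HI (jt μ' (perturb νS β ε) νT) F (1 / (1 + ε ^ 2) * a + ε ^ 2 / (1 + ε ^ 2) * b) := by
  have key : ∀ c : ℝ, jt μ' (νS.map (fun s => s * c)) νT =
      (jt μ' νS νT).map (fun p => ((p.1.1, p.1.2 * c), p.2)) := by
    intro c
    have hm : Measurable (fun s : ℝ => s * c) := by fun_prop
    have e1 : (fun p : Om n => (((p.1.1, p.1.2 * c), p.2) : Om n)) =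
        Prod.map (Prod.map id (fun s : ℝ => s * c)) id := rfl
    unfold jt
    rw [e1, ← Measure.map_prod_map _ _ (measurable_id.prodMap hm) measurable_id,
      ← Measure.map_prod_map _ _ measurable_id hm, Measure.map_id, Measure.map_id]
  have hsplit : jt μ' (perturb νS β ε) νT =
      ENNReal.ofReal (1 / (1 + ε ^ 2)) • jt μ' (νS.map (fun s => s * (1 - β * ε))) νT +
      ENNReal.ofReal (ε ^ 2 / (1 + ε ^ 2)) • jt μ' (νS.map (fun s => s * (1 + β / ε))) νT := by
    have : IsProbabilityMeasure (νS.map (fun s => s * (1 - β * ε))) :=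
      Measure.isProbabilityMeasure_map (by fun_prop)
    have : IsProbabilityMeasure (νS.map (fun s => s * (1 + β / ε))) :=
      Measure.isProbabilityMeasure_map (by fun_prop)
    have f1 : IsFiniteMeasure (ENNReal.ofReal (1 / (1 + ε ^ 2)) •
        νS.map (fun s => s * (1 - β * ε))) := Measure.smul_finite _ ENNReal.ofReal_ne_top
    have f2 : IsFiniteMeasure (ENNReal.ofReal (ε ^ 2 / (1 + ε ^ 2)) •
        νS.map (fun s => s * (1 + β / ε))) := Measure.smul_finite _ ENNReal.ofReal_ne_top
    unfold jt perturb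
    rw [Measure.prod_add, Measure.add_prod, Measure.prod_smul_right, Measure.prod_smul_right,
      Measure.prod_smul_left, Measure.prod_smul_left]
  have hm1 : Measurable (fun p : Om n => (((p.1.1, p.1.2 * (1 - β * ε)), p.2) : Om n)) := by
    fun_prop
  have hm2 : Measurable (fun p : Om n => (((p.1.1, p.1.2 * (1 + β / ε)), p.2) : Om n)) := by
    fun_prop
  rw [hsplit, key, key]
  have i1 : Integrable F ((jt μ' νS νT).map
      (fun p => ((p.1.1, p.1.2 * (1 - β * ε)), p.2))) :=
    (integrable_map_measure hF.aestronglyMeasurable hm1.aemeasurable).mpr h1.1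
  have i2 : Integrable F ((jt μ' νS νT).map
      (fun p => ((p.1.1, p.1.2 * (1 + β / ε)), p.2))) :=
    (integrable_map_measure hF.aestronglyMeasurable hm2.aemeasurable).mpr h2.1
  have j1 := i1.smul_measure (c := ENNReal.ofReal (1 / (1 + ε ^ 2))) ENNReal.ofReal_ne_top
  have j2 := i2.smul_measure (c := ENNReal.ofReal (ε ^ 2 / (1 + ε ^ 2))) ENNReal.ofReal_ne_top
  refine ⟨j1.add_measure j2, ?_⟩
  rw [integral_add_measure j1 j2, integral_smul_measure, integral_smul_measure,
    integral_map hm1.aemeasurable hF.aestronglyMeasurable,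
    integral_map hm2.aemeasurable hF.aestronglyMeasurable, h1.2, h2.2,
    ENNReal.toReal_ofReal (by positivity), ENNReal.toReal_ofReal (by positivity)]
  simp only [smul_eq_mul]

lemma tail_tendsto {Ω : Type*} [MeasurableSpace Ω] {ν : Measure Ω} {f : Ω → ℝ}
    (hf : Integrable f ν) :
    Tendsto (fun R : ℕ => ∫ s, max (f s - R) 0 ∂ν) atTop (𝓝 0) := by
  suffices key : Tendsto (fun R : ℕ => ∫ s, max (f s - R) 0 ∂ν) atTop
      (𝓝 (∫ _ : Ω, (0 : ℝ) ∂ν)) by simpa using key
  apply tendsto_integral_of_dominated_convergence (fun s => |f s|)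
  · intro R
    exact ((hf.aestronglyMeasurable.aemeasurable.sub_const _).max
      aemeasurable_const).aestronglyMeasurable
  · exact hf.abs
  · intro R
    filter_upwards with s
    rw [Real.norm_eq_abs, abs_of_nonneg (le_max_right _ _)]
    have : (0 : ℝ) ≤ R := Nat.cast_nonneg R
    exact max_le (by linarith [le_abs_self (f s)]) (abs_nonneg _)
  · filter_upwards with s
    apply tendsto_const_nhds.congr'
    obtain ⟨N, hN⟩ := exists_nat_gt (f s)
    filter_upwards [eventually_ge_atTop N] with M hM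
    have hM' : (N : ℝ) ≤ M := by exact_mod_cast hM
    rw [max_eq_right (by linarith)]

/-- `s * min s w_last` -/
noncomputable def mm (p : Om n) : ℝ := p.1.2 * min p.1.2 (p.1.1 (Fin.last n))

lemma continuous_mm : Continuous (mm (n := n)) := by
  unfold mm; fun_prop

lemma mm_nonneg {p : Om n} (hp : Adm p) : 0 ≤ mm p :=
  mul_nonneg hp.2.1 (le_min hp.2.1 (hp.1.2 _))

lemma mm_le_sq {p : Om n} (hp : Adm p) : mm p ≤ p.1.2 ^ 2 := by
  unfold mm
  have := min_le_left p.1.2 (p.1.1 (Fin.last n))
  nlinarith [hp.2.1]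

lemma mm_integrable (H : Sys n νS νT μ) : Integrable mm (jt μ νS νT) := by
  have := H.pmu; have := H.pS; have := H.pT
  apply (HIg (μ := μ) (νT := νT) H.S2).1.mono' continuous_mm.measurable.aestronglyMeasurable
  filter_upwards [H.ae_adm] with p hp
  rw [Real.norm_eq_abs, abs_of_nonneg (mm_nonneg hp)]
  exact mm_le_sq hp

lemma last_le_tot_int (H : Sys n νS νT μ) {C : ℝ} (hC : ∫ w, tot w ∂μ ≤ C) (i : Fin (n + 1)) :
    ∫ w, w i ∂μ ≤ C := by
  refine le_trans ?_ hC
  apply integral_mono_ae (H.comp_int i) H.tot_bound.1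
  filter_upwards [H.sorted] with w hw
  exact le_tot hw.2 i

lemma Cv.mm (H : Fam n νS νT μ β με) : Cv νS νT μ β με mm := by
  have hβ := H.hβ
  apply Cv.approx H continuous_mm (mm_integrable H.base)
  · filter_upwards [H.ev] with ε hε
    exact mm_integrable hε.2.2.2
  · intro p hp
    exact mm_nonneg hp
  · intro η hη
    have := H.base.pS; have := H.base.pT; have := H.base.pmu
    obtain ⟨R, hR⟩ := ((tail_tendsto H.base.S2).eventually
      (gt_mem_nhds (show (0 : ℝ) < η / 2 by positivity))).exists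
    refine ⟨fun p => min (max (Work.MP_1ece5f_pr.mm p) 0) (R : ℝ), ?_, ?_, ?_⟩
    · apply Cv.of_bdd H ((continuous_mm.max continuous_const).min continuous_const) (C := R)
      intro p
      rw [abs_of_nonneg (le_min (le_max_right _ _) (Nat.cast_nonneg R))]
      exact min_le_right _ _
    · intro p hp
      change min (max (Work.MP_1ece5f_pr.mm p) 0) (R : ℝ) ≤ Work.MP_1ece5f_pr.mm p
      rw [max_eq_left (mm_nonneg hp)]
      exact min_le_left _ _
    · set ES := ∫ s, s ∂νS with hES
      set C := CC n νS νT β with hC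
      have hCn : 0 ≤ C := H.CC_nonneg
      have hESpos : 0 < ES := H.hES
      filter_upwards [eventually_small hβ (c := η / (2 * (1 + β) * (ES * C + 1))) (by positivity)]
        with ε hε
      obtain ⟨hε0, hε1, hε2, hε3⟩ := hε
      have hs := H.sys hε0 hε1
      have hb := lt_one_div_iff hβ hε1
      have := hs.pmu; have := hs.pS
      have hjp := hs.pj
      -- the difference
      set D : Om n → ℝ := fun p => Work.MP_1ece5f_pr.mm p -
        min (max (Work.MP_1ece5f_pr.mm p) 0) (R : ℝ) with hD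
      have hDm : Measurable D := (continuous_mm.sub
        ((continuous_mm.max continuous_const).min continuous_const)).measurable
      have hDle : ∀ p : Om n, Adm p → 0 ≤ D p ∧ D p ≤ max (Work.MP_1ece5f_pr.mm p - R) 0 ∧
          D p ≤ Work.MP_1ece5f_pr.mm p := by
        intro p hp
        have h0 := mm_nonneg hp
        simp only [hD]
        rw [max_eq_left h0]
        have hRn : (0 : ℝ) ≤ R := Nat.cast_nonneg R
        refine ⟨by linarith [min_le_left (Work.MP_1ece5f_pr.mm p) (R : ℝ)], ?_, ?_⟩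
        · rcases le_total (Work.MP_1ece5f_pr.mm p) R with h | h
          · rw [min_eq_left h, sub_self]
            exact le_max_right _ _
          · rw [min_eq_right h]
            exact le_max_left _ _
        · linarith [le_min h0 hRn]
      have hadm := (Sys.ae_adm (μ := με ε) (νS := νS) (νT := νT))
      have hadm2 : ∀ᵐ p ∂(jt (με ε) νS νT), Adm p := by
        have h1 : ∀ᵐ q ∂((με ε).prod νS), (Monotone q.1 ∧ ∀ i, 0 ≤ q.1 i) ∧ 0 ≤ q.2 := by
          have a1 := (Measure.quasiMeasurePreserving_fst (μ := με ε) (ν := νS)).ae hs.sorted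
          have a2 := (Measure.quasiMeasurePreserving_snd (μ := με ε) (ν := νS)).ae H.base.S0
          filter_upwards [a1, a2] with q h1 h2
          exact ⟨h1, h2⟩
        have a1 := (Measure.quasiMeasurePreserving_fst (μ := (με ε).prod νS) (ν := νT)).ae h1
        have a2 := (Measure.quasiMeasurePreserving_snd (μ := (με ε).prod νS) (ν := νT)).ae
          H.base.T0
        unfold jt
        filter_upwards [a1, a2] with q h1 h2
        exact ⟨h1.1, h1.2, h2⟩
      have iTail : Integrable (fun s : ℝ => max (s ^ 2 - (R : ℝ)) 0) νS :=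
        (H.base.S2.sub (integrable_const _)).sup (integrable_const (0 : ℝ))
      have b1 := HIg (μ := με ε) (νT := νT) iTail
      have b2 := (HIfg (νT := νT) (hs.comp_int (Fin.last n)) H.base.S1).mul (1 + β / ε)
      have m1 : Measurable (fun p : Om n => D ((p.1.1, p.1.2 * (1 - β * ε)), p.2)) :=
        hDm.comp (by fun_prop)
      have m2 : Measurable (fun p : Om n => D ((p.1.1, p.1.2 * (1 + β / ε)), p.2)) :=
        hDm.comp (by fun_prop)
      have le1 : ∀ᵐ p ∂(jt (με ε) νS νT), 0 ≤ D ((p.1.1, p.1.2 * (1 - β * ε)), p.2) ∧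
          D ((p.1.1, p.1.2 * (1 - β * ε)), p.2) ≤ max (p.1.2 ^ 2 - (R : ℝ)) 0 := by
        filter_upwards [hadm2] with p hp
        have hp' : Adm (((p.1.1, p.1.2 * (1 - β * ε)), p.2) : Om n) :=
          ⟨hp.1, mul_nonneg hp.2.1 (by linarith), hp.2.2⟩
        obtain ⟨q1, q2, _⟩ := hDle _ hp'
        refine ⟨q1, q2.trans (max_le_max ?_ le_rfl)⟩
        have q3 := mm_le_sq hp'
        simp only at q3
        have q4 : (p.1.2 * (1 - β * ε)) ^ 2 ≤ p.1.2 ^ 2 := by
          apply pow_le_pow_left₀ (mul_nonneg hp.2.1 (by linarith))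
          have : 0 ≤ p.1.2 * (β * ε) := mul_nonneg hp.2.1 (by positivity)
          linarith
        linarith
      have le2 : ∀ᵐ p ∂(jt (με ε) νS νT), 0 ≤ D ((p.1.1, p.1.2 * (1 + β / ε)), p.2) ∧
          D ((p.1.1, p.1.2 * (1 + β / ε)), p.2) ≤
            (1 + β / ε) * (p.1.1 (Fin.last n) * p.1.2) := by
        filter_upwards [hadm2] with p hp
        have hp' : Adm (((p.1.1, p.1.2 * (1 + β / ε)), p.2) : Om n) :=
          ⟨hp.1, mul_nonneg hp.2.1 (by positivity), hp.2.2⟩
        obtain ⟨q1, _, q2⟩ := hDle _ hp'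
        refine ⟨q1, q2.trans ?_⟩
        unfold Work.MP_1ece5f_pr.mm
        simp only
        have q3 := min_le_right (p.1.2 * (1 + β / ε)) (p.1.1 (Fin.last n))
        have q4 : 0 ≤ p.1.2 * (1 + β / ε) := hp'.2.1
        calc p.1.2 * (1 + β / ε) * min (p.1.2 * (1 + β / ε)) (p.1.1 (Fin.last n))
            ≤ p.1.2 * (1 + β / ε) * (p.1.1 (Fin.last n)) := mul_le_mul_of_nonneg_left q3 q4
          _ = _ := by ring
      have i1 : Integrable (fun p : Om n => D ((p.1.1, p.1.2 * (1 - β * ε)), p.2))
          (jt (με ε) νS νT) := by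
        apply b1.1.mono' m1.aestronglyMeasurable
        filter_upwards [le1] with p hp
        rw [Real.norm_eq_abs, abs_of_nonneg hp.1]
        exact hp.2
      have i2 : Integrable (fun p : Om n => D ((p.1.1, p.1.2 * (1 + β / ε)), p.2))
          (jt (με ε) νS νT) := by
        apply b2.1.mono' m2.aestronglyMeasurable
        filter_upwards [le2] with p hp
        rw [Real.norm_eq_abs, abs_of_nonneg hp.1]
        exact hp.2
      have l1 := integral_mono_ae i1 b1.1 (by filter_upwards [le1] with p hp using hp.2)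
      have l2 := integral_mono_ae i2 b2.1 (by filter_upwards [le2] with p hp using hp.2)
      rw [b1.2] at l1
      rw [b2.2] at l2
      have n1 : 0 ≤ ∫ p, D ((p.1.1, p.1.2 * (1 - β * ε)), p.2) ∂(jt (με ε) νS νT) :=
        integral_nonneg_of_ae (by filter_upwards [le1] with p hp using hp.1)
      have n2 : 0 ≤ ∫ p, D ((p.1.1, p.1.2 * (1 + β / ε)), p.2) ∂(jt (με ε) νS νT) :=
        integral_nonneg_of_ae (by filter_upwards [le2] with p hp using hp.1)
      have hfin := HI_jt_perturb (β := β) (ε := ε) hDm (HI.of i1) (HI.of i2)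
      have hCε := last_le_tot_int hs (H.tot_le hε0 hε1) (Fin.last n)
      have hint1 : Integrable Work.MP_1ece5f_pr.mm (je νS νT β με ε) := mm_integrable hs
      have hint2 : Integrable (fun p : Om n => min (max (Work.MP_1ece5f_pr.mm p) 0) (R : ℝ))
          (je νS νT β με ε) := by
        unfold je
        apply Integrable.of_bound (C := (R : ℝ))
          ((continuous_mm.max continuous_const).min continuous_const).measurable.aestronglyMeasurable
        filter_upwards with p
        rw [Real.norm_eq_abs, abs_of_nonneg (le_min (le_max_right _ _) (Nat.cast_nonneg R))]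
        exact min_le_right _ _
      have hdiff : ∫ p, D p ∂(je νS νT β με ε) ≤ η := by
        have e0 : ∫ p, D p ∂(je νS νT β με ε) = _ := hfin.2
        rw [e0]
        set X := ∫ p, D ((p.1.1, p.1.2 * (1 - β * ε)), p.2) ∂(jt (με ε) νS νT)
        set Y := ∫ p, D ((p.1.1, p.1.2 * (1 + β / ε)), p.2) ∂(jt (με ε) νS νT)
        set W := ∫ w, w (Fin.last n) ∂(με ε)
        have w1 : 1 / (1 + ε ^ 2) * X ≤ X := by
          have : 1 / (1 + ε ^ 2) ≤ 1 := by
            rw [div_le_one (one_add_sq_pos ε)]
            nlinarith [sq_nonneg ε]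
          nlinarith
        have w2 : ε ^ 2 / (1 + ε ^ 2) * Y ≤ ε ^ 2 * Y := by
          have : ε ^ 2 / (1 + ε ^ 2) ≤ ε ^ 2 := by
            apply div_le_self (sq_nonneg ε)
            nlinarith [sq_nonneg ε]
          exact mul_le_mul_of_nonneg_right this n2
        have w3 : Y ≤ (1 + β / ε) * (C * ES) := by
          refine l2.trans ?_
          apply mul_le_mul_of_nonneg_left _ (by positivity)
          exact mul_le_mul_of_nonneg_right hCε hESpos.le
        have w4 : ε ^ 2 * Y ≤ ε ^ 2 * ((1 + β / ε) * (C * ES)) :=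
          mul_le_mul_of_nonneg_left w3 (sq_nonneg ε)
        have w5 : ε ^ 2 * ((1 + β / ε) * (C * ES)) = (ε ^ 2 + β * ε) * (C * ES) := by
          field_simp
        have w6 : (ε ^ 2 + β * ε) * (C * ES) ≤ ((1 + β) * ε) * (ES * C + 1) := by
          have : ε ^ 2 + β * ε ≤ (1 + β) * ε := by nlinarith
          have h2 : C * ES ≤ ES * C + 1 := by linarith [mul_comm C ES]
          exact mul_le_mul this h2 (by positivity) (by positivity)
        rw [lt_div_iff₀ (by positivity)] at hε3
        have w7 : ((1 + β) * ε) * (ES * C + 1) ≤ η / 2 := by nlinarith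
        linarith
      have e3 : ∫ p, D p ∂(je νS νT β με ε) = ∫ p, Work.MP_1ece5f_pr.mm p ∂(je νS νT β με ε) -
          ∫ p, min (max (Work.MP_1ece5f_pr.mm p) 0) (R : ℝ) ∂(je νS νT β με ε) :=
        integral_sub hint1 hint2
      linarith

end

end Pool.Agent.Work.MP_1ece5f_pr
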