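import Pool.Agent.Work.MP_1ece5f_pr.Pert

open MeasureTheory Filter Topology
open scoped ENNReal

namespace Pool.Agent.Work.MP_1ece5f_pr

set_option maxHeartbeats 400000

attribute [local irreducible] kwStep

/-- compact set of states -/
def KK (n : ℕ) (B : ℝ) : Set (Fin (n + 1) → ℝ) :=
  {w | (Monotone w ∧ ∀ i, 0 ≤ w i) ∧ w (Fin.last n) ≤ B}

lemma measurableSet_sorted (n : ℕ) :
    MeasurableSet {w : Fin (n + 1) → ℝ | Monotone w ∧ ∀ i, 0 ≤ w i} := by
  have h1 : {w : Fin (n + 1) → ℝ | Monotone w ∧ ∀ i, 0 ≤ w i} =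
      (⋂ i, ⋂ j, {w | i ≤ j → w i ≤ w j}) ∩ ⋂ i, {w | 0 ≤ w i} := by
    ext w
    simp [Monotone]
  rw [h1]
  apply MeasurableSet.inter
  · refine MeasurableSet.iInter fun i => MeasurableSet.iInter fun j => ?_
    by_cases hij : i ≤ j
    · simp only [hij, true_imp_iff]
      exact measurableSet_le (measurable_pi_apply i) (measurable_pi_apply j)
    · simp [hij]
  · refine MeasurableSet.iInter fun i => ?_
    exact measurableSet_le measurable_const (measurable_pi_apply i)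

lemma KK_meas (n : ℕ) (B : ℝ) : MeasurableSet (KK n B) :=
  (measurableSet_sorted n).inter (measurableSet_le (measurable_pi_apply _) measurable_const)

section
variable {n : ℕ} {νS νT : Measure ℝ} {μ : Measure (Fin (n + 1) → ℝ)} {β ε : ℝ}
  {με : ℝ → Measure (Fin (n + 1) → ℝ)}

lemma KK_compl_le (H : Sys n νS νT μ) {C B : ℝ} (hB : 0 < B) (hC : ∫ w, tot w ∂μ ≤ C) :
    μ (KK n B)ᶜ ≤ ENNReal.ofReal (C / B) := by
  have := H.pmu
  have h1 : ∀ᵐ w ∂μ, w ∈ (KK n B)ᶜ → w ∈ {w : Fin (n + 1) → ℝ | B ≤ tot w} := by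
    filter_upwards [H.sorted] with w hw hw2
    have h2 : ¬ (w (Fin.last n) ≤ B) := fun h => hw2 ⟨hw, h⟩
    exact (not_le.mp h2).le.trans (le_tot hw.2 _)
  have h3 : μ (KK n B)ᶜ ≤ μ {w : Fin (n + 1) → ℝ | B ≤ tot w} := measure_mono_ae h1
  refine h3.trans ?_
  have h4 := mul_meas_ge_le_integral_of_nonneg (μ := μ) (f := tot)
    (by filter_upwards [H.sorted] with w hw; exact tot_nonneg hw.2) H.tot_bound.1 B
  rw [← ENNReal.ofReal_toReal (measure_ne_top μ {w : Fin (n + 1) → ℝ | B ≤ tot w})]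
  apply ENNReal.ofReal_le_ofReal
  rw [le_div_iff₀ hB]
  have h5 : (μ {w : Fin (n + 1) → ℝ | B ≤ tot w}).toReal =
      μ.real {w : Fin (n + 1) → ℝ | B ≤ tot w} := rfl
  rw [h5]
  linarith

/-- the uniform bound for the mean total workload -/
noncomputable def CC (n : ℕ) (νS νT : Measure ℝ) (β : ℝ) : ℝ :=
  ((1 + β ^ 2) * ∫ s, s ^ 2 ∂νS + (n + 1) * ∫ t, t ^ 2 ∂νT) /
    (2 * (∫ t, t ∂νT - (∫ s, s ∂νS) / (n + 1)))

lemma Fam.den_pos (H : Fam n νS νT μ β με) :
    0 < 2 * (∫ t, t ∂νT - (∫ s, s ∂νS) / (n + 1)) := by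
  have hn1 : (0 : ℝ) < n + 1 := by positivity
  have h1 : (∫ s, s ∂νS) / (n + 1) < ∫ t, t ∂νT := by
    rw [div_lt_iff₀ hn1]
    linarith [H.base.lt]
  linarith

lemma Fam.tot_le (H : Fam n νS νT μ β με) (hε : 0 < ε) (hε2 : ε < 1 / β) :
    ∫ w, tot w ∂(με ε) ≤ CC n νS νT β := by
  have h := (H.sys hε hε2).tot_bound.2
  rw [(perturb_id H.base.S1 hε).2, (perturb_sq H.base.S2 hε).2] at h
  exact h

lemma Fam.tot_le_base (H : Fam n νS νT μ β με) : ∫ w, tot w ∂μ ≤ CC n νS νT β := by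
  refine H.base.tot_bound.2.trans ?_
  unfold CC
  have hpos := H.den_pos
  have h2 : 0 ≤ ∫ s, s ^ 2 ∂νS := integral_nonneg (fun _ => sq_nonneg _)
  gcongr
  nlinarith [sq_nonneg β]

lemma Fam.CC_nonneg (H : Fam n νS νT μ β με) : 0 ≤ CC n νS νT β := by
  refine le_trans ?_ H.tot_le_base
  apply integral_nonneg_of_ae
  filter_upwards [H.base.sorted] with w hw
  exact tot_nonneg hw.2

lemma Fam.ETpos (H : Fam n νS νT μ β με) : 0 < ∫ t, t ∂νT := by
  have h1 := H.base.lt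
  have h2 := H.hES
  have hn1 : (0 : ℝ) < n + 1 := by positivity
  by_contra hcon
  push Not at hcon
  nlinarith

lemma eventually_small {β : ℝ} (hβ : 0 < β) {c : ℝ} (hc : 0 < c) :
    ∀ᶠ ε in 𝓝[>] (0 : ℝ), 0 < ε ∧ ε < 1 / β ∧ ε ≤ 1 ∧ ε < c := by
  have hm : 0 < min (1 / β) (min 1 c) := lt_min (by positivity) (lt_min one_pos hc)
  have h : Set.Ioo (0 : ℝ) (min (1 / β) (min 1 c)) ∈ 𝓝[>] (0 : ℝ) := Ioo_mem_nhdsGT hm
  filter_upwards [h] with ε hε
  refine ⟨hε.1, hε.2.trans_le (min_le_left _ _), ?_, ?_⟩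
  · exact (hε.2.trans_le ((min_le_right _ _).trans (min_le_left _ _))).le
  · exact hε.2.trans_le ((min_le_right _ _).trans (min_le_right _ _))

lemma Fam.eventually_close (H : Fam n νS νT μ β με) {δ : ℝ} (hδ : 0 < δ) :
    ∀ᶠ ε in 𝓝[>] (0 : ℝ), ∃ γ : Measure (EE n), IsCpl γ (με ε) μ ∧
      ∫⁻ z, F0 z ∂γ ≤ ENNReal.ofReal δ := by
  have := H.base.pS; have := H.base.pT
  have hβ := H.hβ
  have hETpos := H.ETpos
  set s0 := ∫ s, s ∂νS with hs0def
  set t0 := ∫ t, t ∂νT with ht0def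
  have hs0 : 0 < s0 := H.hES
  have hst : s0 < (n + 1) * t0 := H.base.lt
  set C := CC n νS νT β with hCdef
  have hC0 : 0 ≤ C := H.CC_nonneg
  set B : ℝ := 8 * C / δ + 1 with hBdef
  have hB : 0 < B := by positivity
  have hCB : C / B ≤ δ / 8 := by
    rw [div_le_iff₀ hB, hBdef]
    have : δ / 8 * (8 * C / δ + 1) = C + δ / 8 := by field_simp
    rw [this]
    linarith
  obtain ⟨N, hN⟩ := exists_merge n (B := B) hs0.le hETpos hst
  have hpS : 0 < νS {s | s ≤ s0} := measure_le_integral_pos H.base.S1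
  have hpT : 0 < νT {t | t0 ≤ t} := measure_integral_le_pos H.base.T1
  set p : ℝ≥0∞ := ENNReal.ofReal (1 / 2) * (νS {s | s ≤ s0} * νT {t | t0 ≤ t}) with hp
  have hp0 : p ≠ 0 := by
    rw [hp]
    apply mul_ne_zero
    · simp
    · exact mul_ne_zero hpS.ne' hpT.ne'
  have hptop : p ≠ ∞ := by
    rw [hp]
    exact ENNReal.mul_ne_top ENNReal.ofReal_ne_top
      (ENNReal.mul_ne_top (measure_ne_top _ _) (measure_ne_top _ _))
  set P : ℝ := p.toReal ^ N with hP
  have hPpos : 0 < P := pow_pos (ENNReal.toReal_pos hp0 hptop) N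
  have hPeq : p ^ N = ENNReal.ofReal P := by
    rw [hP, ENNReal.ofReal_pow ENNReal.toReal_nonneg, ENNReal.ofReal_toReal hptop]
  set M : ℝ := N * (2 * β * s0) / P + N * (β * s0) + 1 with hM
  have hMpos : 0 < M := by positivity
  filter_upwards [eventually_small hβ (c := δ / (2 * M)) (by positivity)] with ε hε
  obtain ⟨hε0, hε1, hε2, hε3⟩ := hε
  have hprob := kap_prob (νS := νS) (β := β) (ε := ε)
  have hSys := H.sys hε0 hε1
  set G := GG β ε s0 t0 with hG
  have hGm : MeasurableSet G := GG_meas _ _ _ _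
  have hpq : p ≤ ((kap νS β ε).prod νT) G := GG_le H.base.S0 hβ hε0 hε2 hε1 s0 t0
  have hGpos : ((kap νS β ε).prod νT) G ≠ 0 := by
    intro h
    rw [h] at hpq
    exact hp0 (le_antisymm hpq zero_le)
  have hGne : G.Nonempty := by
    by_contra hcon
    rw [Set.not_nonempty_iff_eq_empty] at hcon
    rw [hcon, measure_empty] at hGpos
    exact hGpos rfl
  have hgood : ∀ x ∈ KK n B, ∀ y ∈ KK n B,
      Good n G (ENNReal.ofReal (N * (β * ε * s0))) N (x, y) := by
    intro x hx y hy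
    apply good_of_seq hGne
    intro u hu
    have hu1 : ∀ j, 0 ≤ (u j).1.2 ∧ (u j).1.2 ≤ s0 := fun j => by
      have := hu j
      rw [hG] at this
      exact ⟨this.1.1.2, this.1.2.1⟩
    have hu2 : ∀ j, |(u j).1.1 - (u j).1.2| ≤ β * ε * s0 := fun j => by
      have := hu j
      rw [hG] at this
      exact this.1.2.2
    have hu3 : ∀ j, t0 ≤ (u j).2 := fun j => by
      have := hu j
      rw [hG] at this
      exact this.2
    have e1 := hN x y (fun j => (u j).1.2) (fun j => (u j).2) hx.1.1 hy.1.1 hx.1.2 hy.1.2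
      hx.2 hy.2 hu1 hu3
    have e2 := dist_iter_le x (fun j => (u j).1.1) (fun j => (u j).1.2) (fun j => (u j).2) hu2 N
    unfold F0
    refine (min_le_right _ _).trans ?_
    simp only
    rw [← e1, edist_dist]
    exact ENNReal.ofReal_le_ofReal e2
  obtain ⟨γ, hγ, hI⟩ := exists_coupling hSys H.base kap_fst kap_snd hGm hGpos (KK_meas n B)
    ((KK_compl_le hSys hB (H.tot_le hε0 hε1)).trans (ENNReal.ofReal_le_ofReal hCB))
    ((KK_compl_le H.base hB H.tot_le_base).trans (ENNReal.ofReal_le_ofReal hCB))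
    hgood (δ := ENNReal.ofReal (δ / 8)) (by simp; positivity)
  refine ⟨γ, hγ, hI.trans ?_⟩
  have hdisc := disc_le (νT := νT) H.base.S1 H.base.S0 hβ hε0
  have h1 : N * (∫⁻ u, disc u ∂((kap νS β ε).prod νT)) / (((kap νS β ε).prod νT) G) ^ N ≤
      ENNReal.ofReal (N * (2 * β * ε * s0) / P) := by
    calc N * (∫⁻ u, disc u ∂((kap νS β ε).prod νT)) / (((kap νS β ε).prod νT) G) ^ N
        ≤ N * ENNReal.ofReal (2 * β * ε * s0) / p ^ N := by gcongr
      _ = ENNReal.ofReal (N * (2 * β * ε * s0) / P) := by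
        rw [hPeq, ENNReal.ofReal_div_of_pos hPpos, ENNReal.ofReal_mul (Nat.cast_nonneg N),
          ENNReal.ofReal_natCast]
  calc N * (∫⁻ u, disc u ∂((kap νS β ε).prod νT)) / (((kap νS β ε).prod νT) G) ^ N +
        ENNReal.ofReal (N * (β * ε * s0)) + (ENNReal.ofReal (δ / 8) + ENNReal.ofReal (δ / 8)) +
        ENNReal.ofReal (δ / 8)
      ≤ ENNReal.ofReal (N * (2 * β * ε * s0) / P) + ENNReal.ofReal (N * (β * ε * s0)) +
        (ENNReal.ofReal (δ / 8) + ENNReal.ofReal (δ / 8)) + ENNReal.ofReal (δ / 8) := by gcongr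
    _ = ENNReal.ofReal (N * (2 * β * ε * s0) / P + N * (β * ε * s0) + (δ / 8 + δ / 8) + δ / 8) := by
      rw [← ENNReal.ofReal_add (by positivity) (by positivity),
        ← ENNReal.ofReal_add (by positivity) (by positivity),
        ← ENNReal.ofReal_add (by positivity) (by positivity),
        ← ENNReal.ofReal_add (by positivity) (by positivity)]
    _ ≤ ENNReal.ofReal δ := by
      apply ENNReal.ofReal_le_ofReal
      have h2 : N * (2 * β * ε * s0) / P + N * (β * ε * s0) =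
          ε * (N * (2 * β * s0) / P + N * (β * s0)) := by ring
      have h3 : ε * (N * (2 * β * s0) / P + N * (β * s0)) ≤ ε * M := by
        apply mul_le_mul_of_nonneg_left _ hε0.le
        linarith
      have h4 : ε * M ≤ δ / 2 := by
        rw [lt_div_iff₀ (by positivity)] at hε3
        linarith
      linarith

end

end Pool.Agent.Work.MP_1ece5f_pr
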