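import Pool.Agent.Work.MP_1ece5f_pr.Weak

open MeasureTheory Filter Topology
open scoped ENNReal

namespace Pool.Agent.Work.MP_1ece5f_pr

set_option maxHeartbeats 400000

attribute [local irreducible] kwStep

/-- admissible points -/
def Adm {n : ℕ} (p : Om n) : Prop := (Monotone p.1.1 ∧ ∀ i, 0 ≤ p.1.1 i) ∧ 0 ≤ p.1.2 ∧ 0 ≤ p.2

/-- convergent functionals -/
structure Cv {n : ℕ} (νS νT : Measure ℝ) (μ : Measure (Fin (n + 1) → ℝ)) (β : ℝ)
    (με : ℝ → Measure (Fin (n + 1) → ℝ)) (F : Om n → ℝ) : Prop where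
  cont : Continuous F
  int0 : Integrable F (jt μ νS νT)
  inte : ∀ᶠ ε in 𝓝[>] 0, Integrable F (je νS νT β με ε)
  lim : Tendsto (fun ε => ∫ p, F p ∂(je νS νT β με ε)) (𝓝[>] 0) (𝓝 (∫ p, F p ∂(jt μ νS νT)))

section
variable {n : ℕ} {νS νT : Measure ℝ} {μ : Measure (Fin (n + 1) → ℝ)} {β : ℝ}
  {με : ℝ → Measure (Fin (n + 1) → ℝ)} {F G : Om n → ℝ}

lemma Fam.ev (H : Fam n νS νT μ β με) :
    ∀ᶠ ε in 𝓝[>] (0 : ℝ), 0 < ε ∧ ε < 1 / β ∧ ε ≤ 1 ∧
      Sys n (perturb νS β ε) νT (με ε) := by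
  filter_upwards [eventually_small H.hβ one_pos] with ε hε
  exact ⟨hε.1, hε.2.1, hε.2.2.1, H.sys hε.1 hε.2.1⟩

lemma Fam.adm0 (H : Fam n νS νT μ β με) : ∀ᵐ p ∂(jt μ νS νT), Adm p := H.base.ae_adm

lemma Fam.adme (H : Fam n νS νT μ β με) :
    ∀ᶠ ε in 𝓝[>] (0 : ℝ), ∀ᵐ p ∂(je νS νT β με ε), Adm p := by
  filter_upwards [H.ev] with ε hε
  exact hε.2.2.2.ae_adm

lemma Cv.add (hF : Cv νS νT μ β με F) (hG : Cv νS νT μ β με G) :
    Cv νS νT μ β με (fun p => F p + G p) := by
  refine ⟨hF.cont.add hG.cont, hF.int0.add hG.int0, ?_, ?_⟩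
  · filter_upwards [hF.inte, hG.inte] with ε h1 h2
    exact h1.add h2
  · rw [integral_add hF.int0 hG.int0]
    refine (hF.lim.add hG.lim).congr' ?_
    filter_upwards [hF.inte, hG.inte] with ε h1 h2
    rw [integral_add h1 h2]

lemma Cv.sub (hF : Cv νS νT μ β με F) (hG : Cv νS νT μ β με G) :
    Cv νS νT μ β με (fun p => F p - G p) := by
  refine ⟨hF.cont.sub hG.cont, hF.int0.sub hG.int0, ?_, ?_⟩
  · filter_upwards [hF.inte, hG.inte] with ε h1 h2
    exact h1.sub h2
  · rw [integral_sub hF.int0 hG.int0]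
    refine (hF.lim.sub hG.lim).congr' ?_
    filter_upwards [hF.inte, hG.inte] with ε h1 h2
    rw [integral_sub h1 h2]

lemma Cv.mul (hF : Cv νS νT μ β με F) (c : ℝ) :
    Cv νS νT μ β με (fun p => c * F p) := by
  refine ⟨continuous_const.mul hF.cont, hF.int0.const_mul c, ?_, ?_⟩
  · filter_upwards [hF.inte] with ε h1
    exact h1.const_mul c
  · rw [integral_const_mul]
    refine (hF.lim.const_mul c).congr' ?_
    filter_upwards with ε
    rw [integral_const_mul]

lemma Cv.of_bdd (H : Fam n νS νT μ β με) (hF : Continuous F) {C : ℝ} (hC : ∀ p, |F p| ≤ C) :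
    Cv νS νT μ β με F := by
  have hj := H.base.pj
  let f : BoundedContinuousFunction (Om n) ℝ := BoundedContinuousFunction.ofNormedAddCommGroup
    F hF C (fun p => by rw [Real.norm_eq_abs]; exact hC p)
  refine ⟨hF, ?_, ?_, H.weak f⟩
  · exact Integrable.of_bound (C := C) hF.measurable.aestronglyMeasurable
      (ae_of_all _ fun p => by rw [Real.norm_eq_abs]; exact hC p)
  · filter_upwards [H.ev] with ε hε
    have := hε.2.2.2.pj
    unfold je
    exact Integrable.of_bound (C := C) hF.measurable.aestronglyMeasurable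
      (ae_of_all _ fun p => by rw [Real.norm_eq_abs]; exact hC p)

/-- Fatou's lemma along the family -/
lemma fatou (H : Fam n νS νT μ β με) (hF : Continuous F) (h0 : Integrable F (jt μ νS νT))
    (he : ∀ᶠ ε in 𝓝[>] 0, Integrable F (je νS νT β με ε)) (hpos : ∀ p, Adm p → 0 ≤ F p)
    {c : ℝ} (hc : c < ∫ p, F p ∂(jt μ νS νT)) :
    ∀ᶠ ε in 𝓝[>] 0, c < ∫ p, F p ∂(je νS νT β με ε) := by
  have hj := H.base.pj
  -- truncations
  have hlim : Tendsto (fun R : ℕ => ∫ p, min (max (F p) 0) (R : ℝ) ∂(jt μ νS νT)) atTop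
      (𝓝 (∫ p, F p ∂(jt μ νS νT))) := by
    apply tendsto_integral_of_dominated_convergence (fun p => |F p|)
    · intro R
      exact ((hF.max continuous_const).min continuous_const).measurable.aestronglyMeasurable
    · exact h0.abs
    · intro R
      filter_upwards with p
      rw [Real.norm_eq_abs, abs_of_nonneg (le_min (le_max_right _ _) (Nat.cast_nonneg R))]
      exact (min_le_left _ _).trans (max_le (le_abs_self _) (abs_nonneg _))
    · filter_upwards [H.adm0] with p hp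
      apply tendsto_const_nhds.congr'
      obtain ⟨N, hN⟩ := exists_nat_gt (F p)
      filter_upwards [eventually_ge_atTop N] with M hM
      have hM' : (N : ℝ) ≤ M := by exact_mod_cast hM
      rw [max_eq_left (hpos p hp), min_eq_left (by linarith)]
  obtain ⟨R, hR⟩ := (hlim.eventually (lt_mem_nhds hc)).exists
  have hT : Cv νS νT μ β με (fun p => min (max (F p) 0) (R : ℝ)) := by
    apply Cv.of_bdd H ((hF.max continuous_const).min continuous_const) (C := R)
    intro p
    rw [abs_of_nonneg (le_min (le_max_right _ _) (Nat.cast_nonneg R))]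
    exact min_le_right _ _
  filter_upwards [hT.lim.eventually (lt_mem_nhds hR), hT.inte, he, H.adme] with ε h1 h2 h3 h4
  refine h1.trans_le (integral_mono_ae h2 h3 ?_)
  filter_upwards [h4] with p hp
  rw [max_eq_left (hpos p hp)]
  exact min_le_left _ _

/-- domination -/
lemma Cv.dom (H : Fam n νS νT μ β με) (hG : Cv νS νT μ β με G) (hF : Continuous F)
    (h : ∀ p, Adm p → |F p| ≤ G p) : Cv νS νT μ β με F := by
  have hF0 : Integrable F (jt μ νS νT) := by
    apply hG.int0.mono' hF.measurable.aestronglyMeasurable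
    filter_upwards [H.adm0] with p hp
    rw [Real.norm_eq_abs]
    exact h p hp
  have hFe : ∀ᶠ ε in 𝓝[>] 0, Integrable F (je νS νT β με ε) := by
    filter_upwards [hG.inte, H.adme] with ε h1 h2
    apply h1.mono' hF.measurable.aestronglyMeasurable
    filter_upwards [h2] with p hp
    rw [Real.norm_eq_abs]
    exact h p hp
  refine ⟨hF, hF0, hFe, ?_⟩
  rw [Metric.tendsto_nhds]
  intro η hη
  have a1 := fatou H (F := fun p => G p + F p) (hG.cont.add hF) (hG.int0.add hF0)
    (by filter_upwards [hG.inte, hFe] with ε h1 h2 using h1.add h2)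
    (fun p hp => by have := (abs_le.mp (h p hp)).1; linarith)
    (c := ∫ p, G p ∂(jt μ νS νT) + ∫ p, F p ∂(jt μ νS νT) - η / 2)
    (by rw [integral_add hG.int0 hF0]; linarith)
  have a2 := fatou H (F := fun p => G p - F p) (hG.cont.sub hF) (hG.int0.sub hF0)
    (by filter_upwards [hG.inte, hFe] with ε h1 h2 using h1.sub h2)
    (fun p hp => by have := (abs_le.mp (h p hp)).2; linarith)
    (c := ∫ p, G p ∂(jt μ νS νT) - ∫ p, F p ∂(jt μ νS νT) - η / 2)
    (by rw [integral_sub hG.int0 hF0]; linarith)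
  have a3 := (Metric.tendsto_nhds.mp hG.lim) (η / 2) (by positivity)
  filter_upwards [a1, a2, a3, hG.inte, hFe] with ε h1 h2 h3 h4 h5
  rw [integral_add h4 h5] at h1
  rw [integral_sub h4 h5] at h2
  rw [Real.dist_eq, abs_lt] at h3 ⊢
  constructor <;> linarith

/-- approximation from below -/
lemma Cv.approx (H : Fam n νS νT μ β με) (hF : Continuous F) (h0 : Integrable F (jt μ νS νT))
    (he : ∀ᶠ ε in 𝓝[>] 0, Integrable F (je νS νT β με ε)) (hpos : ∀ p, Adm p → 0 ≤ F p)
    (h : ∀ η : ℝ, 0 < η → ∃ F' : Om n → ℝ, Cv νS νT μ β με F' ∧ (∀ p, Adm p → F' p ≤ F p) ∧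
      ∀ᶠ ε in 𝓝[>] 0, ∫ p, F p ∂(je νS νT β με ε) ≤ ∫ p, F' p ∂(je νS νT β με ε) + η) :
    Cv νS νT μ β με F := by
  refine ⟨hF, h0, he, ?_⟩
  rw [Metric.tendsto_nhds]
  intro η hη
  have a1 := fatou H hF h0 he hpos (c := ∫ p, F p ∂(jt μ νS νT) - η) (by linarith)
  obtain ⟨F', hF', hle, hev⟩ := h (η / 2) (by positivity)
  have a2 : ∫ p, F' p ∂(jt μ νS νT) ≤ ∫ p, F p ∂(jt μ νS νT) := by
    apply integral_mono_ae hF'.int0 h0
    filter_upwards [H.adm0] with p hp
    exact hle p hp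
  have a3 := (Metric.tendsto_nhds.mp hF'.lim) (η / 2) (by positivity)
  filter_upwards [a1, hev, a3] with ε h1 h2 h3
  rw [Real.dist_eq, abs_lt] at h3 ⊢
  constructor <;> linarith

end

end Pool.Agent.Work.MP_1ece5f_pr
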