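import Pool.Agent.Work.MP_1ece5f_pr.Stat

open MeasureTheory Filter Topology

namespace Pool.Agent.Work.MP_1ece5f_pr

section
variable {n : ℕ} {νS νT : Measure ℝ} {μ : Measure (Fin (n + 1) → ℝ)}

lemma measurableSet_sub (n : ℕ) (M : ℝ) :
    MeasurableSet {w : Fin (n + 1) → ℝ | tot2 w ≤ M} :=
  measurableSet_le continuous_tot2.measurable measurable_const

lemma abs_le_of_tot2 {w : Fin (n + 1) → ℝ} {M : ℝ} (h : tot2 w ≤ M) :
    |w 0| ≤ M + 1 ∧ |tot w| ≤ (n + 1) * M + 1 := by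
  constructor
  · have h1 : w 0 ^ 2 ≤ tot2 w :=
      Finset.single_le_sum (f := fun i => w i ^ 2) (fun i _ => sq_nonneg _) (Finset.mem_univ 0)
    have h2 : |w 0| ≤ |w 0| ^ 2 + 1 := by nlinarith [sq_nonneg (|w 0| - 1), abs_nonneg (w 0)]
    rw [sq_abs] at h2
    linarith
  · have h1 := tot_sq_le w
    have h2 : |tot w| ≤ |tot w| ^ 2 + 1 := by
      nlinarith [sq_nonneg (|tot w| - 1), abs_nonneg (tot w)]
    rw [sq_abs] at h2
    have h3 : ((n : ℝ) + 1) * tot2 w ≤ (n + 1) * M := by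
      apply mul_le_mul_of_nonneg_left h (by positivity)
    linarith

lemma Sys.trunc_bound (H : Sys n νS νT μ) (M : ℕ) :
    IntegrableOn tot {w | tot2 w ≤ M} μ ∧
    ∫ w in {w | tot2 w ≤ M}, tot w ∂μ ≤
      (∫ s, s ^ 2 ∂νS + (n + 1) * ∫ t, t ^ 2 ∂νT) /
        (2 * (∫ t, t ∂νT - (∫ s, s ∂νS) / (n + 1))) := by
  have := H.pmu; have := H.pS; have := H.pT; have := H.pj
  have hn1 : (0 : ℝ) < n + 1 := by positivity
  set φ : Set (Fin (n + 1) → ℝ) := {w | tot2 w ≤ M} with hφ
  have hφm : MeasurableSet φ := measurableSet_sub n M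
  set b : (Fin (n + 1) → ℝ) → ℝ := φ.indicator (fun _ => (1 : ℝ)) with hb
  have hbm : Measurable b := measurable_const.indicator hφm
  have hb0 : ∀ w, 0 ≤ b w := fun w => Set.indicator_nonneg (fun _ _ => zero_le_one) w
  have hb1 : ∀ w, b w ≤ 1 := fun w => Set.indicator_le_self' (fun _ _ => zero_le_one) w
  have hbi : Integrable b μ := by
    apply Integrable.of_bound (C := 1) hbm.aestronglyMeasurable
    filter_upwards with w
    rw [Real.norm_eq_abs, abs_of_nonneg (hb0 w)]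
    exact hb1 w
  have hb0i : Integrable (fun w => b w * w 0) μ := by
    apply Integrable.of_bound (C := (M : ℝ) + 1)
      (hbm.mul (measurable_pi_apply 0)).aestronglyMeasurable
    filter_upwards with w
    change |b w * w 0| ≤ _
    by_cases hw : w ∈ φ
    · have e1 : b w = 1 := Set.indicator_of_mem hw _
      rw [e1, one_mul]
      exact (abs_le_of_tot2 hw).1
    · have e1 : b w = 0 := Set.indicator_of_notMem hw _
      rw [e1, zero_mul, abs_zero]
      positivity
  have hbt : Integrable (fun w => b w * tot w) μ := by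
    apply Integrable.of_bound (C := (n + 1) * (M : ℝ) + 1)
      (hbm.mul continuous_tot.measurable).aestronglyMeasurable
    filter_upwards with w
    change |b w * tot w| ≤ _
    by_cases hw : w ∈ φ
    · have e1 : b w = 1 := Set.indicator_of_mem hw _
      rw [e1, one_mul]
      exact (abs_le_of_tot2 hw).2
    · have e1 : b w = 0 := Set.indicator_of_notMem hw _
      rw [e1, zero_mul, abs_zero]
      positivity
  have hV : Measurable (fun w : Fin (n + 1) → ℝ => min (tot2 w) M) :=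
    continuous_tot2.measurable.min measurable_const
  have ht2 : ∀ w : Fin (n + 1) → ℝ, 0 ≤ tot2 w := fun w =>
    Finset.sum_nonneg (fun _ _ => sq_nonneg _)
  have hVb : ∀ w : Fin (n + 1) → ℝ, |min (tot2 w) M| ≤ M := by
    intro w
    rw [abs_of_nonneg (le_min (ht2 w) (Nat.cast_nonneg M))]
    exact min_le_right _ _
  have hint : Integrable (fun p : Om n => min (tot2 (kwStep p.1.1 p.1.2 p.2)) (M : ℝ) -
      min (tot2 p.1.1) (M : ℝ)) (jt μ νS νT) := by
    apply Integrable.sub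
    · apply Integrable.of_bound (C := (M : ℝ)) (hV.comp measurable_kwStep).aestronglyMeasurable
      filter_upwards with p
      exact hVb _
    · apply Integrable.of_bound (C := (M : ℝ))
        (hV.comp (measurable_fst.comp measurable_fst)).aestronglyMeasurable
      filter_upwards with p
      exact hVb _
  have hzero := H.SI hV hint
  have hR : HI (jt μ νS νT) (fun p => 2 * (b p.1.1 * p.1.1 0 * p.1.2) +
      b p.1.1 * p.1.2 ^ 2 - 2 * (b p.1.1 * tot p.1.1 * p.2) +
      (n + 1) * (b p.1.1 * p.2 ^ 2))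
      (2 * ((∫ w, b w * w 0 ∂μ) * ∫ s, s ∂νS) + (∫ w, b w ∂μ) * ∫ s, s ^ 2 ∂νS -
        2 * ((∫ w, b w * tot w ∂μ) * ∫ t, t ∂νT) + (n + 1) * ((∫ w, b w ∂μ) * ∫ t, t ^ 2 ∂νT)) :=
    ((((HIfg hb0i H.S1).mul 2).add (HIfg hbi H.S2)).sub ((HIfh hbt H.T1).mul 2)).add
      ((HIfh hbi H.T2).mul (n + 1))
  have hle : ∀ᵐ p ∂(jt μ νS νT), min (tot2 (kwStep p.1.1 p.1.2 p.2)) (M : ℝ) -
      min (tot2 p.1.1) (M : ℝ) ≤ 2 * (b p.1.1 * p.1.1 0 * p.1.2) +
      b p.1.1 * p.1.2 ^ 2 - 2 * (b p.1.1 * tot p.1.1 * p.2) +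
      (n + 1) * (b p.1.1 * p.2 ^ 2) := by
    filter_upwards [H.ae_adm] with p hp
    obtain ⟨⟨hm, h0⟩, hs, ht⟩ := hp
    by_cases hw : p.1.1 ∈ φ
    · have e1 : b p.1.1 = 1 := Set.indicator_of_mem hw _
      have e2 : min (tot2 p.1.1) (M : ℝ) = tot2 p.1.1 := min_eq_left hw
      have e3 := tot2_kwStep p.1.1 p.1.2 p.2
      have e4 := Q_nonneg p.1.1 p.1.2 p.2
      have e5 := mul_nonneg hs ht
      rw [e1, e2]
      have e6 := min_le_left (tot2 (kwStep p.1.1 p.1.2 p.2)) (M : ℝ)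
      linarith
    · have e1 : b p.1.1 = 0 := Set.indicator_of_notMem hw _
      have e2 : min (tot2 p.1.1) (M : ℝ) = M := min_eq_right (not_le.mp hw).le
      rw [e1, e2]
      have e6 := min_le_right (tot2 (kwStep p.1.1 p.1.2 p.2)) (M : ℝ)
      linarith
  have hmain := integral_mono_ae hint hR.1 hle
  rw [hzero, hR.2] at hmain
  have hcomp : (n + 1) * ∫ w, b w * w 0 ∂μ ≤ ∫ w, b w * tot w ∂μ := by
    rw [← integral_const_mul]
    apply integral_mono_ae (hb0i.const_mul _) hbt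
    filter_upwards [H.sorted] with w hw
    have := zero_le_tot hw.1
    nlinarith [hb0 w]
  have hbI : ∫ w, b w ∂μ ≤ 1 := by
    have := integral_mono_ae hbi (integrable_const (1 : ℝ)) (ae_of_all _ hb1)
    simpa using this
  have hbI0 : 0 ≤ ∫ w, b w ∂μ := integral_nonneg hb0
  have hS2 : 0 ≤ ∫ s, s ^ 2 ∂νS := integral_nonneg (fun _ => sq_nonneg _)
  have hT2 : 0 ≤ ∫ s, s ^ 2 ∂νT := integral_nonneg (fun _ => sq_nonneg _)
  have hS1 : 0 ≤ ∫ s, s ∂νS := integral_nonneg_of_ae H.S0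
  have hind : ∫ w in φ, tot w ∂μ = ∫ w, b w * tot w ∂μ := by
    rw [← integral_indicator hφm]
    congr 1
    funext w
    by_cases hw : w ∈ φ
    · simp [hb, Set.indicator_of_mem hw]
    · simp [hb, Set.indicator_of_notMem hw]
  have hpos : 0 < 2 * (∫ t, t ∂νT - (∫ s, s ∂νS) / (n + 1)) := by
    have h1 : (∫ s, s ∂νS) / (n + 1) < ∫ t, t ∂νT := by
      rw [div_lt_iff₀ hn1]
      linarith [H.lt]
    linarith
  refine ⟨?_, ?_⟩
  · have : IntegrableOn tot φ μ ↔ Integrable (φ.indicator tot) μ :=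
      (integrable_indicator_iff hφm).symm
    rw [this]
    apply hbt.congr
    filter_upwards with w
    by_cases hw : w ∈ φ
    · simp [hb, Set.indicator_of_mem hw]
    · simp [hb, Set.indicator_of_notMem hw]
  · rw [hind, le_div_iff₀ hpos]
    set ES := ∫ s, s ∂νS
    set ET := ∫ s, s ∂νT
    set E0 := ∫ w, b w * w 0 ∂μ
    set E1 := ∫ w, b w * tot w ∂μ
    set Eb := ∫ w, b w ∂μ
    have h1 : E0 * ES ≤ E1 / (n + 1) * ES := by
      apply mul_le_mul_of_nonneg_right _ hS1
      rw [le_div_iff₀ hn1]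
      linarith
    have h2 : Eb * ∫ s, s ^ 2 ∂νS ≤ ∫ s, s ^ 2 ∂νS := by nlinarith
    have h3 : (n + 1) * (Eb * ∫ s, s ^ 2 ∂νT) ≤ (n + 1) * ∫ s, s ^ 2 ∂νT := by
      apply mul_le_mul_of_nonneg_left _ hn1.le
      nlinarith
    have h4 : E1 / (n + 1) * ES = E1 * (ES / (n + 1)) := by ring
    rw [h4] at h1
    have h5 : E1 * (2 * (ET - ES / (n + 1))) = 2 * (E1 * ET) - 2 * (E1 * (ES / (n + 1))) := by
      ring
    rw [h5]
    linarith

lemma Sys.tot_bound (H : Sys n νS νT μ) :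
    Integrable tot μ ∧ ∫ w, tot w ∂μ ≤
      (∫ s, s ^ 2 ∂νS + (n + 1) * ∫ t, t ^ 2 ∂νT) /
        (2 * (∫ t, t ∂νT - (∫ s, s ∂νS) / (n + 1))) := by
  have hcov : AECover μ atTop (fun M : ℕ => {w : Fin (n + 1) → ℝ | tot2 w ≤ M}) := by
    constructor
    · filter_upwards with w
      obtain ⟨N, hN⟩ := exists_nat_ge (tot2 w)
      filter_upwards [eventually_ge_atTop N] with M hM
      have : (N : ℝ) ≤ M := by exact_mod_cast hM
      exact hN.trans this
    · intro M
      exact measurableSet_sub n M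
  have hint : Integrable tot μ := by
    apply hcov.integrable_of_integral_bounded_of_nonneg_ae _ (fun M => (H.trunc_bound M).1) _
      (Eventually.of_forall fun M => (H.trunc_bound M).2)
    filter_upwards [H.sorted] with w hw
    exact tot_nonneg hw.2
  refine ⟨hint, ?_⟩
  have hlim := hcov.integral_tendsto_of_countably_generated hint
  exact le_of_tendsto' hlim (fun M => (H.trunc_bound M).2)

lemma Sys.comp_int (H : Sys n νS νT μ) (i : Fin (n + 1)) : Integrable (fun w => w i) μ := by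
  apply H.tot_bound.1.mono' (measurable_pi_apply i).aestronglyMeasurable
  filter_upwards [H.sorted] with w hw
  rw [Real.norm_eq_abs, abs_of_nonneg (hw.2 i)]
  exact le_tot hw.2 i

end

end Pool.Agent.Work.MP_1ece5f_pr
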