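import Pool.Agent.Work.MP_1ece5f_pr.Det
import Pool.Agent.Work.MP_1ece5f_pr.Moment

open MeasureTheory Filter Topology
open scoped ENNReal

namespace Pool.Agent.Work.MP_1ece5f_pr

set_option maxHeartbeats 400000

/-- inputs of the two coupled chains: services of the first and second chain, common interarrival
time -/
abbrev U := (ℝ × ℝ) × ℝ

/-- pairs of workload vectors -/
abbrev EE (n : ℕ) := (Fin (n + 1) → ℝ) × (Fin (n + 1) → ℝ)

/-- coupled step -/
noncomputable def step2 {n : ℕ} (z : EE n) (u : U) : EE n :=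
  (kwStep z.1 u.1.1 u.2, kwStep z.2 u.1.2 u.2)

attribute [local irreducible] kwStep

lemma continuous_step2 {n : ℕ} : Continuous (fun p : EE n × U => step2 p.1 p.2) := by
  have h1 : Continuous (fun p : EE n × U => (((p.1.1, p.2.1.1), p.2.2) : Om n)) :=
    ((continuous_fst.comp continuous_fst).prodMk
      (continuous_fst.comp (continuous_fst.comp continuous_snd))).prodMk
      (continuous_snd.comp continuous_snd)
  have h2 : Continuous (fun p : EE n × U => (((p.1.2, p.2.1.2), p.2.2) : Om n)) :=
    ((continuous_snd.comp continuous_fst).prodMk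
      (continuous_snd.comp (continuous_fst.comp continuous_snd))).prodMk
      (continuous_snd.comp continuous_snd)
  have h3 := (continuous_kwStep (n := n)).comp h1
  have h4 := (continuous_kwStep (n := n)).comp h2
  unfold step2
  exact h3.prodMk h4

/-- truncated distance -/
noncomputable def F0 {n : ℕ} (z : EE n) : ℝ≥0∞ := min 1 (edist z.1 z.2)

lemma measurable_F0 {n : ℕ} : Measurable (F0 (n := n)) :=
  measurable_const.min (measurable_fst.edist measurable_snd)

lemma F0_le_one {n : ℕ} (z : EE n) : F0 z ≤ 1 := min_le_left _ _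

/-- discrepancy of the two services -/
noncomputable def disc (u : U) : ℝ≥0∞ := ENNReal.ofReal |u.1.1 - u.1.2|

lemma measurable_disc : Measurable disc := by
  unfold disc; fun_prop

lemma F0_step2_le {n : ℕ} (z : EE n) (u : U) : F0 (step2 z u) ≤ F0 z + disc u := by
  unfold F0 disc
  have h1 := dist_kwStep_le z.1 z.2 u.1.1 u.1.2 u.2
  have h2 : edist (kwStep z.1 u.1.1 u.2) (kwStep z.2 u.1.2 u.2) ≤
      edist z.1 z.2 + ENNReal.ofReal |u.1.1 - u.1.2| := by
    rw [edist_dist, edist_dist, ← ENNReal.ofReal_add dist_nonneg (abs_nonneg _)]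
    exact ENNReal.ofReal_le_ofReal h1
  unfold step2
  simp only
  rcases le_total 1 (edist z.1 z.2) with h | h
  · rw [min_eq_left h]
    exact (min_le_left _ _).trans le_self_add
  · rw [min_eq_right h]
    exact (min_le_right _ _).trans h2

section
variable {n : ℕ} (ν2 : Measure U) [IsProbabilityMeasure ν2]

/-- averaged function after `m` coupled steps -/
noncomputable def Fn (n : ℕ) (ν2 : Measure U) : ℕ → EE n → ℝ≥0∞
  | 0 => F0
  | m + 1 => fun z => ∫⁻ u, Fn n ν2 m (step2 z u) ∂ν2

lemma measurable_Fn (m : ℕ) : Measurable (Fn n ν2 m) := by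
  induction m with
  | zero => exact measurable_F0
  | succ m ih =>
    exact Measurable.lintegral_prod_right' (ν := ν2)
      (f := fun p : EE n × U => Fn n ν2 m (step2 p.1 p.2))
      (ih.comp continuous_step2.measurable)

lemma Fn_le (m : ℕ) (z : EE n) : Fn n ν2 m z ≤ F0 z + m * ∫⁻ u, disc u ∂ν2 := by
  induction m generalizing z with
  | zero => simp [Fn]
  | succ m ih =>
    calc Fn n ν2 (m + 1) z = ∫⁻ u, Fn n ν2 m (step2 z u) ∂ν2 := rfl
      _ ≤ ∫⁻ u, (disc u + (F0 z + m * ∫⁻ u, disc u ∂ν2)) ∂ν2 := by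
        apply lintegral_mono
        intro u
        refine (ih (step2 z u)).trans ?_
        have := F0_step2_le z u
        calc F0 (step2 z u) + m * ∫⁻ u, disc u ∂ν2
            ≤ (F0 z + disc u) + m * ∫⁻ u, disc u ∂ν2 := by gcongr
          _ = disc u + (F0 z + m * ∫⁻ u, disc u ∂ν2) := by ring
      _ = ∫⁻ u, disc u ∂ν2 + (F0 z + m * ∫⁻ u, disc u ∂ν2) := by
        rw [lintegral_add_left measurable_disc, lintegral_const, measure_univ, mul_one]
      _ = F0 z + ((m + 1 : ℕ) : ℝ≥0∞) * ∫⁻ u, disc u ∂ν2 := by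
        push_cast
        ring

/-- after `m` steps with inputs from `G`, the truncated distance is at most `a` -/
def Good (n : ℕ) (G : Set U) (a : ℝ≥0∞) : ℕ → EE n → Prop
  | 0 => fun z => F0 z ≤ a
  | m + 1 => fun z => ∀ u ∈ G, Good n G a m (step2 z u)

/-- remaining weight -/
noncomputable def rr (q : ℝ≥0∞) : ℕ → ℝ≥0∞
  | 0 => 0
  | m + 1 => q * rr q m + (1 - q)

lemma rr_add (q : ℝ≥0∞) (hq : q ≤ 1) (m : ℕ) : rr q m + q ^ m = 1 := by
  induction m with
  | zero => simp [rr]
  | succ m ih =>
    calc rr q (m + 1) + q ^ (m + 1) = q * (rr q m + q ^ m) + (1 - q) := by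
          simp only [rr]; ring
      _ = 1 := by rw [ih, mul_one, add_tsub_cancel_of_le hq]

lemma rr_le_one (q : ℝ≥0∞) (hq : q ≤ 1) (m : ℕ) : rr q m ≤ 1 := by
  rw [← rr_add q hq m]
  exact le_self_add

lemma Fn_good {G : Set U} (hG : MeasurableSet G) {a : ℝ≥0∞} (m : ℕ) (z : EE n)
    (hz : Good n G a m z) :
    Fn n ν2 m z ≤ rr (ν2 G) m * F0 z + m * ∫⁻ u, disc u ∂ν2 + (ν2 G) ^ m * a := by
  induction m generalizing z with
  | zero => simpa [Fn, rr, Good] using hz
  | succ m ih =>
    set c := ∫⁻ u, disc u ∂ν2 with hc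
    set q := ν2 G with hq
    have hq1 : q ≤ 1 := prob_le_one
    have hcompl : ν2 Gᶜ = 1 - q := prob_compl_eq_one_sub hG
    calc Fn n ν2 (m + 1) z = ∫⁻ u, Fn n ν2 m (step2 z u) ∂ν2 := rfl
      _ = ∫⁻ u in G, Fn n ν2 m (step2 z u) ∂ν2 + ∫⁻ u in Gᶜ, Fn n ν2 m (step2 z u) ∂ν2 :=
        (lintegral_add_compl _ hG).symm
      _ ≤ ∫⁻ u in G, (disc u + (rr q m * F0 z + m * c + q ^ m * a)) ∂ν2 +
          ∫⁻ u in Gᶜ, (disc u + (F0 z + m * c)) ∂ν2 := by
        apply add_le_add
        · apply setLIntegral_mono' hG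
          intro u hu
          refine (ih (step2 z u) (hz u hu)).trans ?_
          have h1 := F0_step2_le z u
          have h2 := rr_le_one q hq1 m
          calc rr q m * F0 (step2 z u) + m * c + q ^ m * a
              ≤ rr q m * (F0 z + disc u) + m * c + q ^ m * a := by gcongr
            _ = rr q m * disc u + (rr q m * F0 z + m * c + q ^ m * a) := by ring
            _ ≤ 1 * disc u + (rr q m * F0 z + m * c + q ^ m * a) := by gcongr
            _ = _ := by rw [one_mul]
        · apply setLIntegral_mono' hG.compl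
          intro u _
          refine (Fn_le ν2 m (step2 z u)).trans ?_
          have h1 := F0_step2_le z u
          calc F0 (step2 z u) + m * c ≤ (F0 z + disc u) + m * c := by gcongr
            _ = disc u + (F0 z + m * c) := by ring
      _ = (∫⁻ u in G, disc u ∂ν2 + ∫⁻ u in Gᶜ, disc u ∂ν2) +
          ((rr q m * F0 z + m * c + q ^ m * a) * q + (F0 z + m * c) * (1 - q)) := by
        rw [lintegral_add_left measurable_disc, lintegral_add_left measurable_disc,
          lintegral_const, lintegral_const]
        simp only [Measure.restrict_apply MeasurableSet.univ, Set.univ_inter]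
        rw [hcompl, ← hq]
        ring
      _ = c + ((rr q m * F0 z + m * c + q ^ m * a) * q + (F0 z + m * c) * (1 - q)) := by
        rw [lintegral_add_compl _ hG]
      _ = (q * rr q m + (1 - q)) * F0 z + (c + m * c * (q + (1 - q))) + q ^ (m + 1) * a := by
        ring
      _ = rr q (m + 1) * F0 z + ((m + 1 : ℕ) : ℝ≥0∞) * c + q ^ (m + 1) * a := by
        rw [add_tsub_cancel_of_le hq1]
        simp only [rr]
        push_cast
        ring

end

/-- coupling of two laws -/
def IsCpl {n : ℕ} (γ : Measure (EE n)) (μ' μ : Measure (Fin (n + 1) → ℝ)) : Prop :=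
  γ.map Prod.fst = μ' ∧ γ.map Prod.snd = μ

section
variable {n : ℕ} {μ' μ : Measure (Fin (n + 1) → ℝ)} {νS' νS νT : Measure ℝ}
  {κ : Measure (ℝ × ℝ)}

lemma IsCpl.prob {γ : Measure (EE n)} (h : IsCpl γ μ' μ) [IsProbabilityMeasure μ] :
    IsProbabilityMeasure γ := by
  constructor
  have h1 := h.2
  have h2 : (γ.map Prod.snd) Set.univ = 1 := by rw [h1]; exact measure_univ
  rwa [Measure.map_apply measurable_snd MeasurableSet.univ, Set.preimage_univ] at h2

lemma IsCpl.step {γ : Measure (EE n)} (h : IsCpl γ μ' μ) (H' : Sys n νS' νT μ')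
    (H : Sys n νS νT μ) (hκ1 : κ.map Prod.fst = νS') (hκ2 : κ.map Prod.snd = νS)
    [IsProbabilityMeasure κ] :
    IsCpl ((γ.prod (κ.prod νT)).map (fun p => step2 p.1 p.2)) μ' μ := by
  have := H.pmu; have := H.pS; have := H.pT
  have := H'.pmu; have := H'.pS
  have := h.prob
  have hm := (continuous_step2 (n := n)).measurable
  have hT : νT.map id = νT := Measure.map_id
  constructor
  · rw [Measure.map_map measurable_fst hm]
    have e1 : (γ.prod (κ.prod νT)).map (Prod.map Prod.fst (Prod.map Prod.fst id)) =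
        μ'.prod (νS'.prod νT) := by
      rw [← Measure.map_prod_map _ _ measurable_fst (measurable_fst.prodMap measurable_id),
        ← Measure.map_prod_map _ _ measurable_fst measurable_id, h.1, hκ1, hT]
    have e2 : (Prod.fst ∘ fun p : EE n × U => step2 p.1 p.2) =
        (fun p : Om n => kwStep p.1.1 p.1.2 p.2) ∘
          (MeasurableEquiv.prodAssoc.symm : (Fin (n + 1) → ℝ) × ℝ × ℝ → Om n) ∘
          (Prod.map Prod.fst (Prod.map Prod.fst id)) := by
      funext p
      rfl
    rw [e2, ← Measure.map_map measurable_kwStep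
      (MeasurableEquiv.prodAssoc.symm.measurable.comp
        (measurable_fst.prodMap (measurable_fst.prodMap measurable_id))),
      ← Measure.map_map MeasurableEquiv.prodAssoc.symm.measurable
        (measurable_fst.prodMap (measurable_fst.prodMap measurable_id)), e1]
    rw [← Measure.prodAssoc_prod, Measure.map_map MeasurableEquiv.prodAssoc.symm.measurable
      MeasurableEquiv.prodAssoc.measurable, MeasurableEquiv.symm_comp_self, Measure.map_id]
    exact H'.st.2
  · rw [Measure.map_map measurable_snd hm]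
    have e1 : (γ.prod (κ.prod νT)).map (Prod.map Prod.snd (Prod.map Prod.snd id)) =
        μ.prod (νS.prod νT) := by
      rw [← Measure.map_prod_map _ _ measurable_snd (measurable_snd.prodMap measurable_id),
        ← Measure.map_prod_map _ _ measurable_snd measurable_id, h.2, hκ2, hT]
    have e2 : (Prod.snd ∘ fun p : EE n × U => step2 p.1 p.2) =
        (fun p : Om n => kwStep p.1.1 p.1.2 p.2) ∘
          (MeasurableEquiv.prodAssoc.symm : (Fin (n + 1) → ℝ) × ℝ × ℝ → Om n) ∘
          (Prod.map Prod.snd (Prod.map Prod.snd id)) := by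
      funext p
      rfl
    rw [e2, ← Measure.map_map measurable_kwStep
      (MeasurableEquiv.prodAssoc.symm.measurable.comp
        (measurable_snd.prodMap (measurable_snd.prodMap measurable_id))),
      ← Measure.map_map MeasurableEquiv.prodAssoc.symm.measurable
        (measurable_snd.prodMap (measurable_snd.prodMap measurable_id)), e1]
    rw [← Measure.prodAssoc_prod, Measure.map_map MeasurableEquiv.prodAssoc.symm.measurable
      MeasurableEquiv.prodAssoc.measurable, MeasurableEquiv.symm_comp_self, Measure.map_id]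
    exact H.st.2

/-- iterated coupling -/
lemma IsCpl.iterate {γ : Measure (EE n)} (h : IsCpl γ μ' μ) (H' : Sys n νS' νT μ')
    (H : Sys n νS νT μ) (hκ1 : κ.map Prod.fst = νS') (hκ2 : κ.map Prod.snd = νS)
    [IsProbabilityMeasure κ] (m : ℕ) :
    ∃ γ' : Measure (EE n), IsCpl γ' μ' μ ∧
      ∫⁻ z, F0 z ∂γ' = ∫⁻ z, Fn n (κ.prod νT) m z ∂γ := by
  have := H.pT; have := H.pmu
  induction m generalizing γ with
  | zero => exact ⟨γ, h, rfl⟩
  | succ m ih =>
    have hstep := h.step H' H hκ1 hκ2
    obtain ⟨γ', h1, h2⟩ := ih hstep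
    refine ⟨γ', h1, ?_⟩
    have := h.prob
    rw [h2, lintegral_map (measurable_Fn _ m) continuous_step2.measurable]
    have h3 := lintegral_prod (μ := γ) (ν := κ.prod νT)
      (fun p : EE n × U => Fn n (κ.prod νT) m (step2 p.1 p.2))
      ((measurable_Fn _ m).comp continuous_step2.measurable).aemeasurable
    rw [h3]
    rfl

end

end Pool.Agent.Work.MP_1ece5f_pr
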