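import Pool.Agent.Work.MP_1ece5f_pr.Couple

open MeasureTheory Filter Topology
open scoped ENNReal

namespace Pool.Agent.Work.MP_1ece5f_pr

set_option maxHeartbeats 400000

attribute [local irreducible] kwStep

lemma iter_shift {n : ℕ} (x : Fin (n + 1) → ℝ) (s t : ℕ → ℝ) (m : ℕ) :
    iter x s t (m + 1) =
      iter (kwStep x (s 0) (t 0)) (fun j => s (j + 1)) (fun j => t (j + 1)) m := by
  induction m with
  | zero => rfl
  | succ m ih =>
    have h1 : iter x s t (m + 1 + 1) = kwStep (iter x s t (m + 1)) (s (m + 1)) (t (m + 1)) := rfl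
    rw [h1, ih]
    rfl

lemma good_of_seq {n : ℕ} {G : Set U} (hG : G.Nonempty) {a : ℝ≥0∞} (N : ℕ) (z : EE n)
    (h : ∀ u : ℕ → U, (∀ j, u j ∈ G) →
      F0 ((iter z.1 (fun j => (u j).1.1) (fun j => (u j).2) N,
        iter z.2 (fun j => (u j).1.2) (fun j => (u j).2) N) : EE n) ≤ a) :
    Good n G a N z := by
  induction N generalizing z with
  | zero =>
    obtain ⟨u0, hu0⟩ := hG
    exact h (fun _ => u0) (fun _ => hu0)
  | succ N ih =>
    intro u0 hu0
    apply ih
    intro u hu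
    have h1 := h (fun j => Nat.casesOn j u0 (fun i => u i)) (by
      intro j
      cases j with
      | zero => exact hu0
      | succ j => exact hu j)
    rw [iter_shift, iter_shift] at h1
    exact h1

section
variable {n : ℕ} {μ' μ : Measure (Fin (n + 1) → ℝ)} {νS' νS νT : Measure ℝ}
  {κ : Measure (ℝ × ℝ)}

lemma exists_coupling (H' : Sys n νS' νT μ') (H : Sys n νS νT μ)
    (hκ1 : κ.map Prod.fst = νS') (hκ2 : κ.map Prod.snd = νS) [IsProbabilityMeasure κ]
    {G : Set U} (hG : MeasurableSet G) (hGpos : (κ.prod νT) G ≠ 0) {a η : ℝ≥0∞} {N : ℕ}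
    {K : Set (Fin (n + 1) → ℝ)} (hK : MeasurableSet K) (h1 : μ' Kᶜ ≤ η) (h2 : μ Kᶜ ≤ η)
    (hgood : ∀ x ∈ K, ∀ y ∈ K, Good n G a N (x, y)) {δ : ℝ≥0∞} (hδ : δ ≠ 0) :
    ∃ γ : Measure (EE n), IsCpl γ μ' μ ∧
      ∫⁻ z, F0 z ∂γ ≤ N * (∫⁻ u, disc u ∂(κ.prod νT)) / ((κ.prod νT) G) ^ N + a + (η + η)
        + δ := by
  have := H.pmu; have := H.pS; have := H.pT
  have := H'.pmu; have := H'.pS
  set c := ∫⁻ u, disc u ∂(κ.prod νT) with hc
  set q := (κ.prod νT) G with hq
  have hq1 : q ≤ 1 := prob_le_one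
  set cs : ℝ≥0∞ := ⨅ (γ : Measure (EE n)) (_ : IsCpl γ μ' μ), ∫⁻ z, F0 z ∂γ with hcs
  have hprod : IsCpl (μ'.prod μ) μ' μ := by
    constructor
    · rw [Measure.map_fst_prod, measure_univ, one_smul]
    · rw [Measure.map_snd_prod, measure_univ, one_smul]
  have hcs1 : cs ≤ 1 := by
    refine (iInf₂_le (μ'.prod μ) hprod).trans ?_
    calc ∫⁻ z, F0 z ∂(μ'.prod μ) ≤ ∫⁻ _, 1 ∂(μ'.prod μ) :=
          lintegral_mono (fun z => F0_le_one z)
      _ = 1 := by simp
  have hcsfin : cs ≠ ∞ := ne_top_of_le_ne_top ENNReal.one_ne_top hcs1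
  have key : ∀ γ : Measure (EE n), IsCpl γ μ' μ →
      cs ≤ rr q N * (∫⁻ z, F0 z ∂γ) + (N * c + q ^ N * (a + (η + η))) := by
    intro γ hγ
    have := hγ.prob
    obtain ⟨γ', hγ', hI⟩ := hγ.iterate H' H hκ1 hκ2 N
    have hle : cs ≤ ∫⁻ z, F0 z ∂γ' := iInf₂_le γ' hγ'
    refine hle.trans ?_
    rw [hI]
    set KK : Set (EE n) := K ×ˢ K with hKK
    have hKKm : MeasurableSet KK := hK.prod hK
    have hpt : ∀ z, Fn n (κ.prod νT) N z ≤
        rr q N * F0 z + (N * c + q ^ N * a + q ^ N * KKᶜ.indicator (fun _ => (1 : ℝ≥0∞)) z) := by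
      intro z
      by_cases hz : z ∈ KK
      · have e1 : KKᶜ.indicator (fun _ => (1 : ℝ≥0∞)) z = 0 :=
          Set.indicator_of_notMem (by simpa using hz) _
        rw [e1, mul_zero, add_zero]
        refine (Fn_good (κ.prod νT) hG N z (hgood z.1 hz.1 z.2 hz.2)).trans ?_
        rw [← hq, ← hc, add_assoc]
      · have e1 : KKᶜ.indicator (fun _ => (1 : ℝ≥0∞)) z = 1 :=
          Set.indicator_of_mem (by simpa using hz) _
        rw [e1, mul_one]
        refine (Fn_le (κ.prod νT) N z).trans ?_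
        rw [← hc]
        calc F0 z + N * c = (rr q N + q ^ N) * F0 z + N * c := by rw [rr_add q hq1, one_mul]
          _ = rr q N * F0 z + (N * c + q ^ N * F0 z) := by ring
          _ ≤ rr q N * F0 z + (N * c + q ^ N * a + q ^ N) := by
            have : q ^ N * F0 z ≤ q ^ N * 1 := by gcongr; exact F0_le_one z
            rw [mul_one] at this
            calc rr q N * F0 z + (N * c + q ^ N * F0 z)
                ≤ rr q N * F0 z + (N * c + q ^ N) := by gcongr
              _ ≤ _ := by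
                gcongr
                exact le_self_add
    calc ∫⁻ z, Fn n (κ.prod νT) N z ∂γ
        ≤ ∫⁻ z, (rr q N * F0 z + (N * c + q ^ N * a +
            q ^ N * KKᶜ.indicator (fun _ => (1 : ℝ≥0∞)) z)) ∂γ := lintegral_mono hpt
      _ = rr q N * (∫⁻ z, F0 z ∂γ) + (N * c + q ^ N * a + q ^ N * γ KKᶜ) := by
        rw [lintegral_add_left (measurable_F0.const_mul _), lintegral_const_mul _ measurable_F0,
          lintegral_add_left measurable_const, lintegral_const, measure_univ, mul_one,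
          lintegral_const_mul _ (measurable_const.indicator hKKm.compl),
          lintegral_indicator_const hKKm.compl, one_mul]
      _ ≤ rr q N * (∫⁻ z, F0 z ∂γ) + (N * c + q ^ N * (a + (η + η))) := by
        have h3 : γ KKᶜ ≤ η + η := by
          have h4 : KKᶜ ⊆ Prod.fst ⁻¹' Kᶜ ∪ Prod.snd ⁻¹' Kᶜ := by
            intro z hz
            by_contra hcon
            simp only [Set.mem_union, Set.mem_preimage, Set.mem_compl_iff, not_or, not_not]
              at hcon
            exact hz ⟨hcon.1, hcon.2⟩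
          refine (measure_mono h4).trans ((measure_union_le _ _).trans ?_)
          rw [← Measure.map_apply measurable_fst hK.compl, hγ.1,
            ← Measure.map_apply measurable_snd hK.compl, hγ.2]
          exact add_le_add h1 h2
        calc rr q N * (∫⁻ z, F0 z ∂γ) + (N * c + q ^ N * a + q ^ N * γ KKᶜ)
            ≤ rr q N * (∫⁻ z, F0 z ∂γ) + (N * c + q ^ N * a + q ^ N * (η + η)) := by gcongr
          _ = _ := by ring
  have hmain : cs ≤ rr q N * cs + (N * c + q ^ N * (a + (η + η))) := by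
    apply ENNReal.le_of_forall_pos_le_add
    intro ε hε _
    have hlt : cs < cs + ε := ENNReal.lt_add_right hcsfin (by exact_mod_cast hε.ne')
    obtain ⟨γ, hγ⟩ := iInf_lt_iff.mp hlt
    obtain ⟨hγc, hγ2⟩ := iInf_lt_iff.mp hγ
    refine (key γ hγc).trans ?_
    calc rr q N * (∫⁻ z, F0 z ∂γ) + (N * c + q ^ N * (a + (η + η)))
        ≤ rr q N * (cs + ε) + (N * c + q ^ N * (a + (η + η))) := by gcongr
      _ = rr q N * cs + (N * c + q ^ N * (a + (η + η))) + rr q N * ε := by ring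
      _ ≤ rr q N * cs + (N * c + q ^ N * (a + (η + η))) + 1 * ε := by
        gcongr
        exact rr_le_one q hq1 N
      _ = _ := by rw [one_mul]
  have hrfin : rr q N * cs ≠ ∞ :=
    ENNReal.mul_ne_top (ne_top_of_le_ne_top ENNReal.one_ne_top (rr_le_one q hq1 N)) hcsfin
  have hq2 : q ^ N * cs ≤ N * c + q ^ N * (a + (η + η)) := by
    have h3 : rr q N * cs + q ^ N * cs ≤ rr q N * cs + (N * c + q ^ N * (a + (η + η))) := by
      rw [← add_mul, rr_add q hq1, one_mul]
      exact hmain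
    exact (ENNReal.add_le_add_iff_left hrfin).mp h3
  have hqN0 : q ^ N ≠ 0 := pow_ne_zero _ hGpos
  have hqNtop : q ^ N ≠ ∞ := ENNReal.pow_ne_top (ne_top_of_le_ne_top ENNReal.one_ne_top hq1)
  have hfin : cs ≤ N * c / q ^ N + a + (η + η) := by
    have h4 : cs * q ^ N ≤ (N * c / q ^ N + a + (η + η)) * q ^ N := by
      rw [mul_comm cs]
      refine hq2.trans ?_
      rw [add_mul, add_mul, ENNReal.div_mul_cancel hqN0 hqNtop]
      apply le_of_eq
      ring
    exact (ENNReal.mul_le_mul_iff_left hqN0 hqNtop).mp h4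
  by_cases hδtop : δ = ∞
  · refine ⟨μ'.prod μ, hprod, ?_⟩
    rw [hδtop, add_top]
    exact le_top
  have hlt : cs < cs + δ := ENNReal.lt_add_right hcsfin hδ
  obtain ⟨γ, hγ⟩ := iInf_lt_iff.mp hlt
  obtain ⟨hγc, hγ2⟩ := iInf_lt_iff.mp hγ
  exact ⟨γ, hγc, hγ2.le.trans (by gcongr)⟩

end

end Pool.Agent.Work.MP_1ece5f_pr
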