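import Mathlib

open MeasureTheory Filter Topology

namespace Pool.Agent.Work.MP_1ece5f_pr

/-- The nondecreasing rearrangement of a finite real vector. -/
noncomputable def rearr {k : ℕ} (v : Fin k → ℝ) : Fin k → ℝ := v ∘ Tuple.sort v

/-- One step of the Kiefer-Wolfowitz recursion for `n + 1` servers: the service time `s` is added
to the first (smallest) component, the interarrival time `t` is subtracted from every component,
positive parts are taken, and the vector is sorted in nondecreasing order. -/
noncomputable def kwStep {n : ℕ} (w : Fin (n + 1) → ℝ) (s t : ℝ) : Fin (n + 1) → ℝ :=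
  rearr (fun i => max ((if i = 0 then w i + s else w i) - t) 0)

/-- `μ` is a stationary distribution of the workload vector of the queue with `n + 1` servers,
service law `νS` and interarrival law `νT`. -/
def IsStationary {n : ℕ} (νS νT : Measure ℝ) (μ : Measure (Fin (n + 1) → ℝ)) : Prop :=
  IsProbabilityMeasure μ ∧
    ((μ.prod νS).prod νT).map (fun p => kwStep p.1.1 p.1.2 p.2) = μ

/-- The law of the perturbed service time: `S (1 - β ε)` with probability `1 / (1 + ε ^ 2)` and
`S (1 + β / ε)` with probability `ε ^ 2 / (1 + ε ^ 2)`, the choice being independent of `S`. -/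
noncomputable def perturb (ν : Measure ℝ) (β ε : ℝ) : Measure ℝ :=
  ENNReal.ofReal (1 / (1 + ε ^ 2)) • ν.map (fun s => s * (1 - β * ε)) +
    ENNReal.ofReal (ε ^ 2 / (1 + ε ^ 2)) • ν.map (fun s => s * (1 + β / ε))

end Pool.Agent.Work.MP_1ece5f_pr
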