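import Pool.Agent.Work.MP_1ece5f_pr.Step

open MeasureTheory Filter Topology

namespace Pool.Agent.Work.MP_1ece5f_pr

/-- iterating the recursion along sequences of services and interarrival times -/
noncomputable def iter {n : ℕ} (x : Fin (n + 1) → ℝ) (s t : ℕ → ℝ) : ℕ → (Fin (n + 1) → ℝ)
  | 0 => x
  | m + 1 => kwStep (iter x s t m) (s m) (t m)

lemma iter_mono {n : ℕ} {x : Fin (n + 1) → ℝ} (hx : Monotone x) (s t : ℕ → ℝ) (m : ℕ) :
    Monotone (iter x s t m) := by
  cases m with
  | zero => exact hx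
  | succ m => exact kwStep_mono _ _ _

lemma iter_nonneg {n : ℕ} {x : Fin (n + 1) → ℝ} (hx : ∀ i, 0 ≤ x i) (s t : ℕ → ℝ) (m : ℕ)
    (i : Fin (n + 1)) : 0 ≤ iter x s t m i := by
  cases m with
  | zero => exact hx i
  | succ m => exact kwStep_nonneg _ _ _ _

lemma cnt_anti {k : ℕ} (v : Fin k → ℝ) {r r' : ℝ} (h : r ≤ r') : cnt v r' ≤ cnt v r := by
  unfold cnt
  apply Finset.card_le_card
  intro i hi
  simp only [Finset.mem_filter, Finset.mem_univ, true_and] at hi ⊢
  linarith

lemma cnt_eq_zero {n : ℕ} {w : Fin (n + 1) → ℝ} (hw : Monotone w) {r : ℝ}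
    (h : w (Fin.last n) ≤ r) : cnt w r = 0 := by
  unfold cnt
  rw [Finset.card_eq_zero, Finset.filter_eq_empty_iff]
  intro i _
  have := hw (Fin.le_last i)
  linarith

section
variable {n : ℕ} {s0 t0 : ℝ} {x : Fin (n + 1) → ℝ} {s t : ℕ → ℝ}

lemma cnt_iter_le (ht0 : 0 < t0) (ht : ∀ j, t0 ≤ t j) (m j : ℕ) :
    ∀ r : ℝ, 0 ≤ r → cnt (iter x s t (m + j)) r ≤ cnt (iter x s t m) (r + j * t0) + j := by
  induction j with
  | zero => intro r _; simp
  | succ j ih =>
    intro r hr
    have h1 : cnt (iter x s t (m + (j + 1))) r =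
        cnt (post (iter x s t (m + j)) (s (m + j))) (r + t (m + j)) := by
      have : iter x s t (m + (j + 1)) = kwStep (iter x s t (m + j)) (s (m + j)) (t (m + j)) := rfl
      rw [this, cnt_kwStep _ _ _ _ hr]
    rw [h1]
    have h2 := cnt_post_le (iter x s t (m + j)) (s (m + j)) (r + t (m + j))
    have h3 : cnt (iter x s t (m + j)) (r + t (m + j)) ≤ cnt (iter x s t (m + j)) (r + t0) :=
      cnt_anti _ (by linarith [ht (m + j)])
    have h4 := ih (r + t0) (by linarith)
    have h5 : r + t0 + (j : ℝ) * t0 = r + ((j + 1 : ℕ) : ℝ) * t0 := by push_cast; ring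
    rw [h5] at h4
    omega

lemma iter_zero_le (hx : Monotone x) (ht0 : 0 < t0) (ht : ∀ j, t0 ≤ t j) (m : ℕ) :
    iter x s t (m + n) 0 ≤ max (iter x s t m (Fin.last n) - n * t0) 0 := by
  by_contra hcon
  push Not at hcon
  rw [lt_iff_cnt (iter_mono hx s t _)] at hcon
  have h1 := cnt_iter_le (x := x) (s := s) ht0 ht m n
    (max (iter x s t m (Fin.last n) - n * t0) 0) (le_max_right _ _)
  have h2 : cnt (iter x s t m) (max (iter x s t m (Fin.last n) - n * t0) 0 + n * t0) = 0 := by
    apply cnt_eq_zero (iter_mono hx s t _)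
    have := le_max_left (iter x s t m (Fin.last n) - n * t0) 0
    linarith
  rw [h2] at h1
  simp at hcon
  omega

lemma iter_last_succ_le (hx : Monotone x) (hs : ∀ j, 0 ≤ s j ∧ s j ≤ s0)
    (ht : ∀ j, t0 ≤ t j) (m : ℕ) :
    iter x s t (m + 1) (Fin.last n) ≤
      max (max (iter x s t m (Fin.last n)) (iter x s t m 0 + s0) - t0) 0 := by
  have h1 : iter x s t (m + 1) = kwStep (iter x s t m) (s m) (t m) := rfl
  rw [h1, kwStep_last (iter_mono hx s t m) (hs m).1]
  apply max_le_max _ le_rfl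
  have h2 : max (iter x s t m (Fin.last n)) (iter x s t m 0 + s m) ≤
      max (iter x s t m (Fin.last n)) (iter x s t m 0 + s0) :=
    max_le_max le_rfl (by linarith [(hs m).2])
  linarith [ht m]

lemma iter_last_le (hx : Monotone x) (hx0 : ∀ i, 0 ≤ x i) {B : ℝ} (hB : x (Fin.last n) ≤ B)
    (hs0 : 0 ≤ s0) (ht0 : 0 < t0) (hs : ∀ j, 0 ≤ s j ∧ s j ≤ s0) (ht : ∀ j, t0 ≤ t j)
    {δ : ℝ} (hδ0 : 0 < δ) (hδ : δ ≤ t0) (hδ2 : (n + 1) * δ ≤ (n + 1) * t0 - s0) (m : ℕ) :
    iter x s t m (Fin.last n) ≤ max (B + (n + 1) * (s0 + t0) - m * δ) (max (s0 - t0) 0) := by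
  have hinit : ∀ m : ℕ, iter x s t m (Fin.last n) ≤ B + m * s0 := by
    intro m
    induction m with
    | zero => simpa [iter] using hB
    | succ m ih =>
      have h1 := iter_last_succ_le hx hs ht m
      have h2 : iter x s t m 0 ≤ iter x s t m (Fin.last n) :=
        iter_mono hx s t m (Fin.zero_le _)
      have h3 := iter_nonneg hx0 s t m (Fin.last n)
      push_cast
      refine h1.trans (max_le ?_ (by linarith))
      have : max (iter x s t m (Fin.last n)) (iter x s t m 0 + s0) ≤ B + m * s0 + s0 :=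
        max_le (by linarith) (by linarith)
      linarith
  induction m using Nat.strong_induction_on with
  | _ m ih =>
    rcases Nat.lt_or_ge m (n + 1) with hm | hm
    · refine le_trans (hinit m) (le_trans ?_ (le_max_left _ _))
      have h1 : (m : ℝ) ≤ n + 1 := by exact_mod_cast hm.le
      have h2 : (m : ℝ) * s0 ≤ (n + 1) * s0 := mul_le_mul_of_nonneg_right h1 hs0
      have h3 : (m : ℝ) * δ ≤ (n + 1) * t0 :=
        mul_le_mul h1 hδ hδ0.le (by positivity)
      linarith
    · obtain ⟨m', rfl⟩ : ∃ m', m = m' + n + 1 := ⟨m - n - 1, by omega⟩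
      have h1 := iter_last_succ_le hx hs ht (m' + n)
      have h2 := iter_zero_le (s := s) hx ht0 ht m'
      have ih1 := ih (m' + n) (by omega)
      have ih2 := ih m' (by omega)
      refine h1.trans ?_
      have hD : (0 : ℝ) ≤ max (s0 - t0) 0 := le_max_right _ _
      have hD2 : s0 - t0 ≤ max (s0 - t0) 0 := le_max_left _ _
      set D := max (s0 - t0) 0 with hDdef
      apply max_le
      · rw [sub_le_iff_le_add]
        apply max_le
        · refine ih1.trans ?_
          rw [← max_add_add_right]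
          apply max_le_max
          · push_cast
            linarith
          · linarith
        · have h3 : iter x s t (m' + n) 0 ≤
              max (max (B + (n + 1) * (s0 + t0) - m' * δ) D - n * t0) 0 :=
            h2.trans (max_le_max (by linarith) le_rfl)
          rcases le_max_iff.mp h3 with h4 | h4
          · have h5 : iter x s t (m' + n) 0 + n * t0 ≤
                max (B + (n + 1) * (s0 + t0) - m' * δ) D := by linarith
            rcases le_max_iff.mp h5 with h6 | h6
            · have : iter x s t (m' + n) 0 + s0 ≤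
                  (B + (n + 1) * (s0 + t0) - ((m' + n + 1 : ℕ) : ℝ) * δ) + t0 := by
                push_cast
                nlinarith
              linarith [le_max_left (B + (n + 1) * (s0 + t0) - ((m' + n + 1 : ℕ) : ℝ) * δ) D]
            · have h8 : 0 ≤ (n + 1) * δ := by positivity
              have h7 : iter x s t (m' + n) 0 + s0 ≤ D + t0 := by nlinarith
              linarith [le_max_right (B + (n + 1) * (s0 + t0) - ((m' + n + 1 : ℕ) : ℝ) * δ) D]
          · have h7 : iter x s t (m' + n) 0 + s0 ≤ D + t0 := by linarith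
            linarith [le_max_right (B + (n + 1) * (s0 + t0) - ((m' + n + 1 : ℕ) : ℝ) * δ) D]
      · exact hD.trans (le_max_right _ _)

lemma cnt_iter_succ_of_zero (m : ℕ) (h0 : iter x s t m 0 = 0) (r : ℝ) (hr : 0 ≤ r)
    (htm : 0 ≤ t m) :
    cnt (iter x s t (m + 1)) r =
      cnt (iter x s t m) (r + t m) + (if r + t m < s m then 1 else 0) := by
  have h1 : iter x s t (m + 1) = kwStep (iter x s t m) (s m) (t m) := rfl
  rw [h1, cnt_kwStep _ _ _ _ hr, cnt_post_zero _ _ _ (by linarith) h0]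

end

/-- loss of memory -/
lemma exists_merge (n : ℕ) {s0 t0 B : ℝ} (hs0 : 0 ≤ s0) (ht0 : 0 < t0)
    (hst : s0 < (n + 1) * t0) :
    ∃ N : ℕ, ∀ (x y : Fin (n + 1) → ℝ) (s t : ℕ → ℝ), Monotone x → Monotone y →
      (∀ i, 0 ≤ x i) → (∀ i, 0 ≤ y i) → x (Fin.last n) ≤ B → y (Fin.last n) ≤ B →
      (∀ j, 0 ≤ s j ∧ s j ≤ s0) → (∀ j, t0 ≤ t j) → iter x s t N = iter y s t N := by
  set δ : ℝ := min t0 (((n + 1) * t0 - s0) / (n + 1)) with hδ
  have hn1 : (0 : ℝ) < n + 1 := by positivity
  have hδ0 : 0 < δ := lt_min ht0 (div_pos (by linarith) hn1)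
  have hδ1 : δ ≤ t0 := min_le_left _ _
  have hδ2 : (n + 1) * δ ≤ (n + 1) * t0 - s0 := by
    have h1 : δ ≤ ((n + 1) * t0 - s0) / (n + 1) := min_le_right _ _
    rw [le_div_iff₀ hn1] at h1
    linarith
  set D : ℝ := max (s0 - t0) 0 with hD
  have hD0 : 0 ≤ D := le_max_right _ _
  obtain ⟨M0, hM0⟩ := exists_nat_gt ((B + (n + 1) * (s0 + t0)) / δ)
  rw [div_lt_iff₀ hδ0] at hM0
  obtain ⟨J, hJ⟩ := exists_nat_gt (D / t0)
  rw [div_lt_iff₀ ht0] at hJ
  refine ⟨M0 + n + J, ?_⟩
  intro x y s t hx hy hx0 hy0 hxB hyB hs ht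
  have bound : ∀ z : Fin (n + 1) → ℝ, Monotone z → (∀ i, 0 ≤ z i) → z (Fin.last n) ≤ B →
      ∀ m : ℕ, M0 ≤ m → iter z s t m (Fin.last n) ≤ D := by
    intro z hz hz0 hzB m hm
    have h1 := iter_last_le hz hz0 hzB hs0 ht0 hs ht hδ0 hδ1 hδ2 m
    refine h1.trans (max_le ?_ le_rfl)
    have h2 : (M0 : ℝ) ≤ m := by exact_mod_cast hm
    have h3 : (M0 : ℝ) * δ ≤ m * δ := mul_le_mul_of_nonneg_right h2 hδ0.le
    linarith
  have zero : ∀ z : Fin (n + 1) → ℝ, Monotone z → (∀ i, 0 ≤ z i) → z (Fin.last n) ≤ B →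
      ∀ m : ℕ, M0 + n ≤ m → iter z s t m 0 = 0 := by
    intro z hz hz0 hzB m hm
    obtain ⟨m', rfl⟩ : ∃ m', m = m' + n := ⟨m - n, by omega⟩
    have h1 := iter_zero_le (s := s) hz ht0 ht m'
    have h2 := bound z hz hz0 hzB m' (by omega)
    have h3 : max (iter z s t m' (Fin.last n) - n * t0) 0 ≤ 0 := by
      apply max_le _ le_rfl
      have : D ≤ n * t0 := by
        apply max_le
        · linarith
        · positivity
      linarith
    exact le_antisymm (h1.trans h3) (iter_nonneg hz0 s t _ _)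
  have key : ∀ j : ℕ, ∀ r : ℝ, 0 ≤ r →
      cnt (iter x s t (M0 + n + j)) r +
        cnt (iter y s t (M0 + n)) (r + ∑ i ∈ Finset.range j, t (M0 + n + i)) =
      cnt (iter y s t (M0 + n + j)) r +
        cnt (iter x s t (M0 + n)) (r + ∑ i ∈ Finset.range j, t (M0 + n + i)) := by
    intro j
    induction j with
    | zero => intro r _; simp [add_comm]
    | succ j ih =>
      intro r hr
      have ht' : 0 ≤ t (M0 + n + j) := by linarith [ht (M0 + n + j)]
      have e1 := cnt_iter_succ_of_zero (x := x) (s := s) (t := t) (M0 + n + j)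
        (zero x hx hx0 hxB _ (by omega)) r hr ht'
      have e2 := cnt_iter_succ_of_zero (x := y) (s := s) (t := t) (M0 + n + j)
        (zero y hy hy0 hyB _ (by omega)) r hr ht'
      have e3 := ih (r + t (M0 + n + j)) (by linarith)
      rw [Finset.sum_range_succ]
      have e4 : r + (∑ i ∈ Finset.range j, t (M0 + n + i) + t (M0 + n + j)) =
          r + t (M0 + n + j) + ∑ i ∈ Finset.range j, t (M0 + n + i) := by ring
      rw [e4]
      have e5 : M0 + n + (j + 1) = M0 + n + j + 1 := by ring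
      rw [e5, e1, e2]
      omega
  apply eq_of_cnt (iter_mono hx s t _) (iter_mono hy s t _) (iter_nonneg hx0 s t _)
    (iter_nonneg hy0 s t _)
  intro r hr
  have hk := key J r hr
  have hZ : D ≤ r + ∑ i ∈ Finset.range J, t (M0 + n + i) := by
    have h1 : ∑ i ∈ Finset.range J, t0 ≤ ∑ i ∈ Finset.range J, t (M0 + n + i) :=
      Finset.sum_le_sum (fun i _ => ht _)
    simp only [Finset.sum_const, Finset.card_range, nsmul_eq_mul] at h1
    linarith
  have hx1 : cnt (iter x s t (M0 + n)) (r + ∑ i ∈ Finset.range J, t (M0 + n + i)) = 0 :=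
    cnt_eq_zero (iter_mono hx s t _) ((bound x hx hx0 hxB _ (by omega)).trans hZ)
  have hy1 : cnt (iter y s t (M0 + n)) (r + ∑ i ∈ Finset.range J, t (M0 + n + i)) = 0 :=
    cnt_eq_zero (iter_mono hy s t _) ((bound y hy hy0 hyB _ (by omega)).trans hZ)
  rw [hx1, hy1] at hk
  simpa using hk

lemma dist_iter_le {n : ℕ} (x : Fin (n + 1) → ℝ) (s' s t : ℕ → ℝ) {c : ℝ}
    (h : ∀ j, |s' j - s j| ≤ c) (m : ℕ) :
    dist (iter x s' t m) (iter x s t m) ≤ m * c := by
  induction m with
  | zero => simp [iter]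
  | succ m ih =>
    have h1 := dist_kwStep_le (iter x s' t m) (iter x s t m) (s' m) (s m) (t m)
    have h2 : iter x s' t (m + 1) = kwStep (iter x s' t m) (s' m) (t m) := rfl
    have h3 : iter x s t (m + 1) = kwStep (iter x s t m) (s m) (t m) := rfl
    rw [h2, h3]
    push_cast
    linarith [h m]

end Pool.Agent.Work.MP_1ece5f_pr
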