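import Pool.Agent.Work.MP_1ece5f_pr.Final

open MeasureTheory Filter Topology
open scoped ENNReal

namespace Pool.Agent.Work.MP_1ece5f_pr

set_option maxHeartbeats 400000

attribute [local irreducible] kwStep

section
variable {n : ℕ} {νS νT : Measure ℝ} {μ : Measure (Fin (n + 1) → ℝ)}

/-- one step on laws -/
noncomputable def stepM (νS νT : Measure ℝ) (μ : Measure (Fin (n + 1) → ℝ)) :
    Measure (Fin (n + 1) → ℝ) :=
  (jt μ νS νT).map (fun p => kwStep p.1.1 p.1.2 p.2)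

/-- law of the workload vector seen by the `j`-th arrival, starting from an empty system -/
noncomputable def mseq (n : ℕ) (νS νT : Measure ℝ) : ℕ → Measure (Fin (n + 1) → ℝ)
  | 0 => Measure.dirac 0
  | j + 1 => stepM νS νT (mseq n νS νT j)

lemma jt_prob [IsProbabilityMeasure μ] [IsProbabilityMeasure νS] [IsProbabilityMeasure νT] :
    IsProbabilityMeasure (jt μ νS νT) := by
  unfold jt
  infer_instance

lemma stepM_prob [IsProbabilityMeasure μ] [IsProbabilityMeasure νS] [IsProbabilityMeasure νT] :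
    IsProbabilityMeasure (stepM νS νT μ) := by
  have := jt_prob (μ := μ) (νS := νS) (νT := νT)
  exact Measure.isProbabilityMeasure_map measurable_kwStep.aemeasurable

lemma stepM_sorted : ∀ᵐ w ∂(stepM νS νT μ), Monotone w ∧ ∀ i, 0 ≤ w i := by
  unfold stepM
  rw [ae_map_iff measurable_kwStep.aemeasurable (measurableSet_sorted n)]
  filter_upwards with p
  exact ⟨kwStep_mono _ _ _, kwStep_nonneg _ _ _⟩

lemma jt_adm [IsProbabilityMeasure μ] [IsProbabilityMeasure νS] [IsProbabilityMeasure νT]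
    (hS0 : ∀ᵐ s ∂νS, 0 ≤ s) (hT0 : ∀ᵐ t ∂νT, 0 ≤ t)
    (hμ : ∀ᵐ w ∂μ, Monotone w ∧ ∀ i, 0 ≤ w i) : ∀ᵐ p ∂(jt μ νS νT), Adm p := by
  have h1 : ∀ᵐ q ∂(μ.prod νS), (Monotone q.1 ∧ ∀ i, 0 ≤ q.1 i) ∧ 0 ≤ q.2 := by
    have a1 := (Measure.quasiMeasurePreserving_fst (μ := μ) (ν := νS)).ae hμ
    have a2 := (Measure.quasiMeasurePreserving_snd (μ := μ) (ν := νS)).ae hS0
    filter_upwards [a1, a2] with q h1 h2
    exact ⟨h1, h2⟩
  have a1 := (Measure.quasiMeasurePreserving_fst (μ := μ.prod νS) (ν := νT)).ae h1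
  have a2 := (Measure.quasiMeasurePreserving_snd (μ := μ.prod νS) (ν := νT)).ae hT0
  unfold jt
  filter_upwards [a1, a2] with q h1 h2
  exact ⟨h1.1, h1.2, h2⟩

lemma tot_int_of_tot2 [IsProbabilityMeasure μ] (hμ : ∀ᵐ w ∂μ, Monotone w ∧ ∀ i, 0 ≤ w i)
    (h2 : Integrable tot2 μ) : Integrable tot μ := by
  apply ((h2.const_mul (n + 1)).add (integrable_const (1 : ℝ))).mono'
    continuous_tot.measurable.aestronglyMeasurable
  filter_upwards [hμ] with w hw
  have h1 := tot_sq_le w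
  have h3 := tot_nonneg hw.2
  rw [Real.norm_eq_abs, abs_of_nonneg h3]
  simp only [Pi.add_apply]
  nlinarith [sq_nonneg (tot w - 1)]

/-- the drift constant -/
noncomputable def dc (n : ℕ) (νS νT : Measure ℝ) : ℝ :=
  2 * (∫ t, t ∂νT - (∫ s, s ∂νS) / (n + 1))

/-- the additive constant -/
noncomputable def ac (n : ℕ) (νS νT : Measure ℝ) : ℝ :=
  ∫ s, s ^ 2 ∂νS + (n + 1) * ∫ t, t ^ 2 ∂νT

lemma step_facts [IsProbabilityMeasure μ] [IsProbabilityMeasure νS] [IsProbabilityMeasure νT]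
    (hS0 : ∀ᵐ s ∂νS, 0 ≤ s) (hT0 : ∀ᵐ t ∂νT, 0 ≤ t)
    (hS2 : Integrable (fun s => s ^ 2) νS) (hT2 : Integrable (fun t => t ^ 2) νT)
    (hμ : ∀ᵐ w ∂μ, Monotone w ∧ ∀ i, 0 ≤ w i) (h2 : Integrable tot2 μ) :
    Integrable tot2 (stepM νS νT μ) ∧
      ∫ w, tot2 w ∂(stepM νS νT μ) ≤
        ∫ w, tot2 w ∂μ - dc n νS νT * (∫ w, tot w ∂μ) + ac n νS νT := by
  have hadm := jt_adm hS0 hT0 hμ
  have hS1 := integrable_id_of_sq hS2
  have hT1 := integrable_id_of_sq hT2
  have ht := tot_int_of_tot2 hμ h2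
  have h0i : Integrable (fun w : Fin (n + 1) → ℝ => w 0) μ := by
    apply ht.mono' (measurable_pi_apply _).aestronglyMeasurable
    filter_upwards [hμ] with w hw
    rw [Real.norm_eq_abs, abs_of_nonneg (hw.2 0)]
    exact le_tot hw.2 0
  have b1 := HIf (νS := νS) (νT := νT) h2
  have b2 := (HIfg (νT := νT) h0i hS1).mul 2
  have b3 := HIg (μ := μ) (νT := νT) hS2
  have b4 := (HIfh (νS := νS) ht hT1).mul 2
  have b5 := (HIh (μ := μ) (νS := νS) hT2).mul (n + 1)
  have b := (((b1.add b2).add b3).sub b4).add b5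
  have hle : ∀ p : Om n, Adm p → tot2 (kwStep p.1.1 p.1.2 p.2) ≤
      tot2 p.1.1 + 2 * (p.1.1 0 * p.1.2) + p.1.2 ^ 2 - 2 * (tot p.1.1 * p.2) +
        (n + 1) * p.2 ^ 2 := by
    intro p hp
    have h := tot2_kwStep p.1.1 p.1.2 p.2
    have h3 := Q_nonneg p.1.1 p.1.2 p.2
    have h4 := mul_nonneg hp.2.1 hp.2.2
    linarith
  have hm : Measurable (fun p : Om n => tot2 (kwStep p.1.1 p.1.2 p.2)) :=
    continuous_tot2.measurable.comp measurable_kwStep
  have hint : Integrable (fun p : Om n => tot2 (kwStep p.1.1 p.1.2 p.2)) (jt μ νS νT) := by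
    apply b.1.mono' hm.aestronglyMeasurable
    filter_upwards [hadm] with p hp
    rw [Real.norm_eq_abs, abs_of_nonneg (Finset.sum_nonneg (fun _ _ => sq_nonneg _))]
    exact hle p hp
  refine ⟨?_, ?_⟩
  · exact (integrable_map_measure continuous_tot2.measurable.aestronglyMeasurable
      measurable_kwStep.aemeasurable).mpr hint
  · unfold stepM
    rw [integral_map measurable_kwStep.aemeasurable
      continuous_tot2.measurable.aestronglyMeasurable]
    have h3 := integral_mono_ae hint b.1 (by filter_upwards [hadm] with p hp using hle p hp)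
    rw [b.2] at h3
    refine h3.trans ?_
    have h4 : (n + 1) * ∫ w, w 0 ∂μ ≤ ∫ w, tot w ∂μ := by
      rw [← integral_const_mul]
      apply integral_mono_ae (h0i.const_mul _) ht
      filter_upwards [hμ] with w hw
      exact zero_le_tot hw.1
    have hn1 : (0 : ℝ) < n + 1 := by positivity
    have hES : 0 ≤ ∫ s, s ∂νS := integral_nonneg_of_ae hS0
    have h5 : (∫ w, w 0 ∂μ) * ∫ s, s ∂νS ≤ (∫ w, tot w ∂μ) * ((∫ s, s ∂νS) / (n + 1)) := by
      have h6 : ∫ w, w 0 ∂μ ≤ (∫ w, tot w ∂μ) / (n + 1) := by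
        rw [le_div_iff₀ hn1]
        linarith
      have h7 := mul_le_mul_of_nonneg_right h6 hES
      have h8 : (∫ w, tot w ∂μ) / (n + 1) * ∫ s, s ∂νS =
          (∫ w, tot w ∂μ) * ((∫ s, s ∂νS) / (n + 1)) := by ring
      linarith
    unfold dc ac
    have h9 : 2 * (∫ t, t ∂νT - (∫ s, s ∂νS) / (n + 1)) * (∫ w, tot w ∂μ) =
        2 * ((∫ w, tot w ∂μ) * ∫ t, t ∂νT) -
          2 * ((∫ w, tot w ∂μ) * ((∫ s, s ∂νS) / (n + 1))) := by ring
    rw [h9]
    linarith

lemma mseq_facts [IsProbabilityMeasure νS] [IsProbabilityMeasure νT]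
    (hS0 : ∀ᵐ s ∂νS, 0 ≤ s) (hT0 : ∀ᵐ t ∂νT, 0 ≤ t)
    (hS2 : Integrable (fun s => s ^ 2) νS) (hT2 : Integrable (fun t => t ^ 2) νT) (j : ℕ) :
    IsProbabilityMeasure (mseq n νS νT j) ∧
      (∀ᵐ w ∂(mseq n νS νT j), Monotone w ∧ ∀ i, 0 ≤ w i) ∧
      Integrable tot2 (mseq n νS νT j) := by
  induction j with
  | zero =>
    refine ⟨?_, ?_, ?_⟩
    · simp only [mseq]
      infer_instance
    · simp only [mseq]
      rw [ae_dirac_iff (measurableSet_sorted n)]
      exact ⟨fun i j _ => le_rfl, fun i => le_rfl⟩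
    · simp only [mseq]
      exact integrable_dirac (by simp)
  | succ j ih =>
    obtain ⟨h1, h2, h3⟩ := ih
    exact ⟨stepM_prob, stepM_sorted, (step_facts hS0 hT0 hS2 hT2 h2 h3).1⟩

lemma mseq_sum [IsProbabilityMeasure νS] [IsProbabilityMeasure νT]
    (hS0 : ∀ᵐ s ∂νS, 0 ≤ s) (hT0 : ∀ᵐ t ∂νT, 0 ≤ t)
    (hS2 : Integrable (fun s => s ^ 2) νS) (hT2 : Integrable (fun t => t ^ 2) νT) (N : ℕ) :
    dc n νS νT * ∑ j ∈ Finset.range N, ∫ w, tot w ∂(mseq n νS νT j) ≤ N * ac n νS νT := by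
  have key : ∀ N : ℕ, ∫ w, tot2 w ∂(mseq n νS νT N) +
      dc n νS νT * ∑ j ∈ Finset.range N, ∫ w, tot w ∂(mseq n νS νT j) ≤ N * ac n νS νT := by
    intro N
    induction N with
    | zero =>
      simp only [mseq, Finset.range_zero, Finset.sum_empty, mul_zero, add_zero,
        CharP.cast_eq_zero, zero_mul]
      rw [integral_dirac]
      simp [tot2]
    | succ N ih =>
      obtain ⟨h1, h2, h3⟩ := mseq_facts (n := n) hS0 hT0 hS2 hT2 N
      have h4 := (step_facts hS0 hT0 hS2 hT2 h2 h3).2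
      rw [Finset.sum_range_succ, mul_add]
      have h5 : mseq n νS νT (N + 1) = stepM νS νT (mseq n νS νT N) := rfl
      rw [h5]
      push_cast
      linarith
  have h := key N
  have h6 : 0 ≤ ∫ w, tot2 w ∂(mseq n νS νT N) :=
    integral_nonneg (fun w => Finset.sum_nonneg (fun _ _ => sq_nonneg _))
  linarith

/-- Cesaro averages -/
noncomputable def avg (n : ℕ) (νS νT : Measure ℝ) (N : ℕ) : Measure (Fin (n + 1) → ℝ) :=
  ENNReal.ofReal (1 / (N + 1)) • ∑ j ∈ Finset.range (N + 1), mseq n νS νT j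

lemma avg_prob [IsProbabilityMeasure νS] [IsProbabilityMeasure νT]
    (hS0 : ∀ᵐ s ∂νS, 0 ≤ s) (hT0 : ∀ᵐ t ∂νT, 0 ≤ t)
    (hS2 : Integrable (fun s => s ^ 2) νS) (hT2 : Integrable (fun t => t ^ 2) νT) (N : ℕ) :
    IsProbabilityMeasure (avg n νS νT N) := by
  constructor
  unfold avg
  rw [Measure.smul_apply, Measure.finsetSum_apply]
  have h : ∀ j ∈ Finset.range (N + 1), (mseq n νS νT j) Set.univ = 1 := by
    intro j _
    have := (mseq_facts (n := n) hS0 hT0 hS2 hT2 j).1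
    exact measure_univ
  rw [Finset.sum_congr rfl h]
  simp only [Finset.sum_const, Finset.card_range, smul_eq_mul, nsmul_eq_mul, mul_one]
  have h1 : ((N + 1 : ℕ) : ℝ≥0∞) = ENNReal.ofReal (N + 1) := by
    rw [← ENNReal.ofReal_natCast]
    push_cast
    rfl
  rw [h1, ← ENNReal.ofReal_mul (by positivity)]
  have : (1 : ℝ) / (N + 1) * (N + 1) = 1 := by
    field_simp
  rw [this, ENNReal.ofReal_one]

lemma avg_integral [IsProbabilityMeasure νS] [IsProbabilityMeasure νT]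
    (hS0 : ∀ᵐ s ∂νS, 0 ≤ s) (hT0 : ∀ᵐ t ∂νT, 0 ≤ t)
    (hS2 : Integrable (fun s => s ^ 2) νS) (hT2 : Integrable (fun t => t ^ 2) νT) (N : ℕ)
    {f : (Fin (n + 1) → ℝ) → ℝ} (hf : Continuous f) {C : ℝ} (hC : ∀ w, |f w| ≤ C) :
    ∫ w, f w ∂(avg n νS νT N) =
      1 / (N + 1) * ∑ j ∈ Finset.range (N + 1), ∫ w, f w ∂(mseq n νS νT j) := by
  unfold avg
  rw [integral_smul_measure, integral_finsetSum_measure,
    ENNReal.toReal_ofReal (by positivity), smul_eq_mul]
  intro j _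
  have := (mseq_facts (n := n) hS0 hT0 hS2 hT2 j).1
  exact Integrable.of_bound (C := C) hf.measurable.aestronglyMeasurable
    (ae_of_all _ fun w => by rw [Real.norm_eq_abs]; exact hC w)

/-- the transition operator -/
noncomputable def Pop (νS νT : Measure ℝ) (f : (Fin (n + 1) → ℝ) → ℝ)
    (w : Fin (n + 1) → ℝ) : ℝ := ∫ s, ∫ t, f (kwStep w s t) ∂νT ∂νS

lemma Pop_inner_cont [IsProbabilityMeasure νT] {f : (Fin (n + 1) → ℝ) → ℝ}
    (hf : Continuous f) {C : ℝ} (hC : ∀ w, |f w| ≤ C) :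
    Continuous (fun q : (Fin (n + 1) → ℝ) × ℝ => ∫ t, f (kwStep q.1 q.2 t) ∂νT) := by
  have hk : Continuous (fun p : Om n => f (kwStep p.1.1 p.1.2 p.2)) :=
    hf.comp continuous_kwStep
  apply continuous_of_dominated (bound := fun _ => C)
  · intro q
    have h1 : Continuous (fun t : ℝ => ((q, t) : Om n)) := by fun_prop
    exact (hk.comp h1).measurable.aestronglyMeasurable
  · intro q
    filter_upwards with t
    rw [Real.norm_eq_abs]
    exact hC _
  · exact integrable_const C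
  · filter_upwards with t
    have h1 : Continuous (fun q : (Fin (n + 1) → ℝ) × ℝ => ((q, t) : Om n)) := by fun_prop
    exact hk.comp h1

lemma Pop_cont [IsProbabilityMeasure νS] [IsProbabilityMeasure νT]
    {f : (Fin (n + 1) → ℝ) → ℝ} (hf : Continuous f) {C : ℝ} (hC : ∀ w, |f w| ≤ C) :
    Continuous (Pop νS νT f) := by
  have hk := Pop_inner_cont (νT := νT) hf hC
  unfold Pop
  apply continuous_of_dominated (bound := fun _ => C)
  · intro w
    have h1 : Continuous (fun s : ℝ => ((w, s) : (Fin (n + 1) → ℝ) × ℝ)) := by fun_prop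
    exact (hk.comp h1).measurable.aestronglyMeasurable
  · intro w
    filter_upwards with s
    have h := norm_integral_le_of_norm_le_const (μ := νT) (f := fun t => f (kwStep w s t))
      (C := C) (ae_of_all _ fun t => by rw [Real.norm_eq_abs]; exact hC _)
    simpa using h
  · exact integrable_const C
  · filter_upwards with s
    have h1 : Continuous (fun w : (Fin (n + 1) → ℝ) => ((w, s) : (Fin (n + 1) → ℝ) × ℝ)) := by
      fun_prop
    exact hk.comp h1

lemma Pop_bdd [IsProbabilityMeasure νS] [IsProbabilityMeasure νT]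
    {f : (Fin (n + 1) → ℝ) → ℝ} {C : ℝ} (hC : ∀ w, |f w| ≤ C)
    (w : Fin (n + 1) → ℝ) : |Pop νS νT f w| ≤ C := by
  unfold Pop
  have h1 : ∀ s, ‖∫ t, f (kwStep w s t) ∂νT‖ ≤ C := by
    intro s
    have h := norm_integral_le_of_norm_le_const (μ := νT) (f := fun t => f (kwStep w s t))
      (C := C) (ae_of_all _ fun t => by rw [Real.norm_eq_abs]; exact hC _)
    simpa using h
  have h := norm_integral_le_of_norm_le_const (μ := νS)
    (f := fun s => ∫ t, f (kwStep w s t) ∂νT) (C := C) (ae_of_all _ h1)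
  simpa using h

lemma Pop_integral [IsProbabilityMeasure μ] [IsProbabilityMeasure νS]
    [IsProbabilityMeasure νT] {f : (Fin (n + 1) → ℝ) → ℝ}
    (hf : Continuous f) {C : ℝ} (hC : ∀ w, |f w| ≤ C) :
    ∫ w, Pop νS νT f w ∂μ = ∫ w, f w ∂(stepM νS νT μ) := by
  have hj := jt_prob (μ := μ) (νS := νS) (νT := νT)
  unfold stepM
  rw [integral_map measurable_kwStep.aemeasurable hf.measurable.aestronglyMeasurable]
  have hk : Continuous (fun p : Om n => f (kwStep p.1.1 p.1.2 p.2)) :=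
    hf.comp continuous_kwStep
  have hi : Integrable (fun p : Om n => f (kwStep p.1.1 p.1.2 p.2)) (jt μ νS νT) :=
    Integrable.of_bound (C := C) hk.measurable.aestronglyMeasurable
      (ae_of_all _ fun w => by rw [Real.norm_eq_abs]; exact hC _)
  have hi2 : Integrable (fun q : (Fin (n + 1) → ℝ) × ℝ => ∫ t, f (kwStep q.1 q.2 t) ∂νT)
      (μ.prod νS) := by
    apply Integrable.of_bound (C := C) (Pop_inner_cont hf hC).measurable.aestronglyMeasurable
    filter_upwards with q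
    have h := norm_integral_le_of_norm_le_const (μ := νT) (f := fun t => f (kwStep q.1 q.2 t))
      (C := C) (ae_of_all _ fun t => by rw [Real.norm_eq_abs]; exact hC _)
    simpa using h
  have e1 : ∫ p, f (kwStep p.1.1 p.1.2 p.2) ∂(jt μ νS νT) =
      ∫ q, ∫ t, f (kwStep q.1 q.2 t) ∂νT ∂(μ.prod νS) := integral_prod _ hi
  have e2 : ∫ q, ∫ t, f (kwStep q.1 q.2 t) ∂νT ∂(μ.prod νS) =
      ∫ w, ∫ s, ∫ t, f (kwStep w s t) ∂νT ∂νS ∂μ := integral_prod _ hi2
  rw [e1, e2]
  rfl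

lemma dc_pos (hlt : ∫ s, s ∂νS < (n + 1) * ∫ t, t ∂νT) : 0 < dc n νS νT := by
  have hn1 : (0 : ℝ) < n + 1 := by positivity
  have h1 : (∫ s, s ∂νS) / (n + 1) < ∫ t, t ∂νT := by
    rw [div_lt_iff₀ hn1]
    linarith
  unfold dc
  linarith

lemma avg_tail [IsProbabilityMeasure νS] [IsProbabilityMeasure νT]
    (hS0 : ∀ᵐ s ∂νS, 0 ≤ s) (hT0 : ∀ᵐ t ∂νT, 0 ≤ t)
    (hS2 : Integrable (fun s => s ^ 2) νS) (hT2 : Integrable (fun t => t ^ 2) νT)
    (hlt : ∫ s, s ∂νS < (n + 1) * ∫ t, t ∂νT) {B : ℝ} (hB : 0 < B) (N : ℕ) :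
    (avg n νS νT N) (Set.Icc (0 : Fin (n + 1) → ℝ) (fun _ => B))ᶜ ≤
      ENNReal.ofReal (ac n νS νT / dc n νS νT / B) := by
  have hd := dc_pos hlt
  unfold avg
  rw [Measure.smul_apply, Measure.finsetSum_apply]
  have h1 : ∀ j ∈ Finset.range (N + 1),
      (mseq n νS νT j) (Set.Icc (0 : Fin (n + 1) → ℝ) (fun _ => B))ᶜ ≤
        ENNReal.ofReal ((∫ w, tot w ∂(mseq n νS νT j)) / B) := by
    intro j _
    obtain ⟨p1, p2, p3⟩ := mseq_facts (n := n) hS0 hT0 hS2 hT2 j
    have h2 : ∀ᵐ w ∂(mseq n νS νT j), w ∈ (Set.Icc (0 : Fin (n + 1) → ℝ) (fun _ => B))ᶜ →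
        w ∈ {w : Fin (n + 1) → ℝ | B ≤ tot w} := by
      filter_upwards [p2] with w hw hw2
      have h3 : ∃ i, B < w i := by
        by_contra hcon
        push Not at hcon
        exact hw2 ⟨fun i => hw.2 i, fun i => hcon i⟩
      obtain ⟨i, hi⟩ := h3
      exact hi.le.trans (le_tot hw.2 i)
    have h3' : (mseq n νS νT j) (Set.Icc (0 : Fin (n + 1) → ℝ) (fun _ => B))ᶜ ≤
        (mseq n νS νT j) {w : Fin (n + 1) → ℝ | B ≤ tot w} := measure_mono_ae h2
    refine h3'.trans ?_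
    have h4 := mul_meas_ge_le_integral_of_nonneg (μ := mseq n νS νT j) (f := tot)
      (by filter_upwards [p2] with w hw; exact tot_nonneg hw.2) (tot_int_of_tot2 p2 p3) B
    rw [← ENNReal.ofReal_toReal (measure_ne_top (mseq n νS νT j)
      {w : Fin (n + 1) → ℝ | B ≤ tot w})]
    apply ENNReal.ofReal_le_ofReal
    rw [le_div_iff₀ hB]
    have h5 : ((mseq n νS νT j) {w : Fin (n + 1) → ℝ | B ≤ tot w}).toReal =
        (mseq n νS νT j).real {w : Fin (n + 1) → ℝ | B ≤ tot w} := rfl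
    rw [h5]
    linarith
  have htn : ∀ j ∈ Finset.range (N + 1), 0 ≤ (∫ w, tot w ∂(mseq n νS νT j)) / B := by
    intro j _
    obtain ⟨p1, p2, p3⟩ := mseq_facts (n := n) hS0 hT0 hS2 hT2 j
    apply div_nonneg _ hB.le
    apply integral_nonneg_of_ae
    filter_upwards [p2] with w hw
    exact tot_nonneg hw.2
  rw [smul_eq_mul]
  refine (mul_le_mul_right (Finset.sum_le_sum h1) _).trans ?_
  rw [← ENNReal.ofReal_sum_of_nonneg htn, ← ENNReal.ofReal_mul (by positivity)]
  apply ENNReal.ofReal_le_ofReal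
  have h6 := mseq_sum (n := n) hS0 hT0 hS2 hT2 (N + 1)
  rw [← Finset.sum_div]
  push_cast at h6
  have h7 : ∑ j ∈ Finset.range (N + 1), ∫ w, tot w ∂(mseq n νS νT j) ≤
      (N + 1) * ac n νS νT / dc n νS νT := by
    rw [le_div_iff₀ hd]
    linarith
  calc 1 / ((N : ℝ) + 1) * ((∑ j ∈ Finset.range (N + 1), ∫ w, tot w ∂(mseq n νS νT j)) / B)
      ≤ 1 / ((N : ℝ) + 1) * ((N + 1) * ac n νS νT / dc n νS νT / B) := by gcongr
    _ = ac n νS νT / dc n νS νT / B := by
      field_simp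

lemma exists_stationary [IsProbabilityMeasure νS] [IsProbabilityMeasure νT]
    (hS0 : ∀ᵐ s ∂νS, 0 ≤ s) (hT0 : ∀ᵐ t ∂νT, 0 ≤ t)
    (hS2 : Integrable (fun s => s ^ 2) νS) (hT2 : Integrable (fun t => t ^ 2) νT)
    (hlt : ∫ s, s ∂νS < (n + 1) * ∫ t, t ∂νT) :
    ∃ μ : Measure (Fin (n + 1) → ℝ), IsStationary νS νT μ := by
  have hd := dc_pos hlt
  let A : ℕ → ProbabilityMeasure (Fin (n + 1) → ℝ) := fun N =>
    ⟨avg n νS νT N, avg_prob hS0 hT0 hS2 hT2 N⟩
  have htight : IsTightMeasureSet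
      {((μ : ProbabilityMeasure (Fin (n + 1) → ℝ)) : Measure (Fin (n + 1) → ℝ)) |
        μ ∈ Set.range A} := by
    rw [isTightMeasureSet_iff_exists_isCompact_measure_compl_le]
    intro η hη
    by_cases htop : η = ∞
    · refine ⟨∅, isCompact_empty, ?_⟩
      intro μ _
      rw [htop]
      exact le_top
    set e := η.toReal with he
    have hepos : 0 < e := ENNReal.toReal_pos hη.ne' htop
    set c := ac n νS νT / dc n νS νT with hc
    have hB : 0 < |c| / e + 1 := by positivity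
    refine ⟨Set.Icc (0 : Fin (n + 1) → ℝ) (fun _ => |c| / e + 1), isCompact_Icc, ?_⟩
    rintro μ ⟨P, ⟨N, rfl⟩, rfl⟩
    have h1 := avg_tail (n := n) hS0 hT0 hS2 hT2 hlt hB N
    refine h1.trans ?_
    rw [← ENNReal.ofReal_toReal htop, ← he]
    apply ENNReal.ofReal_le_ofReal
    rw [div_le_iff₀ hB]
    have : e * (|c| / e + 1) = |c| + e := by
      field_simp
    rw [this]
    linarith [le_abs_self c]
  have hcomp := isCompact_closure_of_isTightMeasureSet htight
  obtain ⟨μ, _, hμ⟩ := hcomp.exists_mapClusterPt (f := atTop) (u := A)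
    (Filter.tendsto_principal.mpr (Eventually.of_forall fun N =>
      subset_closure (Set.mem_range_self N)))
  rw [mapClusterPt_iff_ultrafilter] at hμ
  obtain ⟨𝓤, h𝓤, hlim⟩ := hμ
  rw [ProbabilityMeasure.tendsto_iff_forall_integral_tendsto] at hlim
  refine ⟨μ, inferInstance, ?_⟩
  have hstep : IsProbabilityMeasure (stepM νS νT (μ : Measure (Fin (n + 1) → ℝ))) := stepM_prob
  have hgoal : stepM νS νT (μ : Measure (Fin (n + 1) → ℝ)) = μ := by
    apply ext_of_forall_integral_eq_of_IsFiniteMeasure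
    intro f
    set C := ‖f‖ with hC
    have hfC : ∀ w, |f w| ≤ C := fun w => by
      rw [← Real.norm_eq_abs]
      exact f.norm_coe_le_norm w
    rw [← Pop_integral f.continuous hfC]
    let g : BoundedContinuousFunction (Fin (n + 1) → ℝ) ℝ :=
      BoundedContinuousFunction.ofNormedAddCommGroup (Pop νS νT f)
        (Pop_cont f.continuous hfC) C (fun w => by
          rw [Real.norm_eq_abs]
          exact Pop_bdd hfC w)
    have l1 := hlim f
    have l2 := hlim g
    have hdiff : ∀ N : ℕ, ∫ w, g w ∂((A N : ProbabilityMeasure (Fin (n + 1) → ℝ)) :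
        Measure (Fin (n + 1) → ℝ)) -
        ∫ w, f w ∂((A N : ProbabilityMeasure (Fin (n + 1) → ℝ)) : Measure (Fin (n + 1) → ℝ)) =
        1 / ((N : ℝ) + 1) * (∫ w, f w ∂(mseq n νS νT (N + 1)) -
          ∫ w, f w ∂(mseq n νS νT 0)) := by
      intro N
      have e1 : ∫ w, g w ∂((A N : ProbabilityMeasure (Fin (n + 1) → ℝ)) :
          Measure (Fin (n + 1) → ℝ)) =
          1 / (N + 1) * ∑ j ∈ Finset.range (N + 1), ∫ w, g w ∂(mseq n νS νT j) :=
        avg_integral hS0 hT0 hS2 hT2 N g.continuous (fun w => Pop_bdd hfC w)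
      have e2 : ∫ w, f w ∂((A N : ProbabilityMeasure (Fin (n + 1) → ℝ)) :
          Measure (Fin (n + 1) → ℝ)) =
          1 / (N + 1) * ∑ j ∈ Finset.range (N + 1), ∫ w, f w ∂(mseq n νS νT j) :=
        avg_integral hS0 hT0 hS2 hT2 N f.continuous hfC
      have e3 : ∀ j ∈ Finset.range (N + 1), ∫ w, g w ∂(mseq n νS νT j) =
          ∫ w, f w ∂(mseq n νS νT (j + 1)) := by
        intro j _
        have := (mseq_facts (n := n) hS0 hT0 hS2 hT2 j).1
        exact Pop_integral f.continuous hfC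
      rw [e1, e2, Finset.sum_congr rfl e3, ← mul_sub, ← Finset.sum_sub_distrib,
        Finset.sum_range_sub (fun j => ∫ w, f w ∂(mseq n νS νT j))]
    have hzero : Tendsto (fun N : ℕ => 1 / ((N : ℝ) + 1) *
        (∫ w, f w ∂(mseq n νS νT (N + 1)) - ∫ w, f w ∂(mseq n νS νT 0))) atTop (𝓝 0) := by
      have hb : ∀ j, |∫ w, f w ∂(mseq n νS νT j)| ≤ C := by
        intro j
        have := (mseq_facts (n := n) hS0 hT0 hS2 hT2 j).1
        have h := norm_integral_le_of_norm_le_const (μ := mseq n νS νT j) (f := f)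
          (C := C) (ae_of_all _ fun t => by rw [Real.norm_eq_abs]; exact hfC _)
        simpa using h
      have hz2 : Tendsto (fun N : ℕ => 2 * C * (1 / ((N : ℝ) + 1))) atTop (𝓝 0) := by
        have := (tendsto_one_div_add_atTop_nhds_zero_nat (𝕜 := ℝ)).const_mul (2 * C)
        simpa using this
      refine squeeze_zero_norm (fun N => ?_) hz2
      rw [norm_mul, Real.norm_eq_abs, Real.norm_eq_abs,
        abs_of_nonneg (by positivity : (0 : ℝ) ≤ 1 / ((N : ℝ) + 1)), mul_comm]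
      apply mul_le_mul_of_nonneg_right _ (by positivity)
      refine (abs_sub _ _).trans ?_
      linarith [hb (N + 1), hb 0]
    have l3 : Tendsto (fun N : ℕ => ∫ w, g w ∂((A N : ProbabilityMeasure (Fin (n + 1) → ℝ)) :
        Measure (Fin (n + 1) → ℝ)) -
        ∫ w, f w ∂((A N : ProbabilityMeasure (Fin (n + 1) → ℝ)) : Measure (Fin (n + 1) → ℝ)))
        𝓤 (𝓝 0) := by
      simp_rw [hdiff]
      exact hzero.mono_left h𝓤
    have l4 := l2.sub l1
    have := tendsto_nhds_unique l4 l3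
    have h8 : ∫ w, g w ∂(μ : Measure (Fin (n + 1) → ℝ)) -
      ∫ w, f w ∂(μ : Measure (Fin (n + 1) → ℝ)) = 0 := this
    have h9 : ∫ w, Pop νS νT f w ∂(μ : Measure (Fin (n + 1) → ℝ)) =
      ∫ w, g w ∂(μ : Measure (Fin (n + 1) → ℝ)) := rfl
    rw [h9]
    linarith
  exact hgoal

end

end Pool.Agent.Work.MP_1ece5f_pr
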