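import Pool.Agent.Work.MP_1ece5f_pr.Limits

open MeasureTheory Filter Topology
open scoped ENNReal

namespace Pool.Agent.Work.MP_1ece5f_pr

set_option maxHeartbeats 400000

attribute [local irreducible] kwStep

section
variable {n : ℕ} {νS νT : Measure ℝ} {μ : Measure (Fin (n + 1) → ℝ)} {β : ℝ}
  {με : ℝ → Measure (Fin (n + 1) → ℝ)}

lemma Sys.tot_split (H : Sys n νS νT μ) :
    ∫ w, tot w ∂μ = ∫ w, P1 w ∂μ + ∫ w, w (Fin.last n) ∂μ := by
  rw [← integral_add H.P1_int (H.comp_int _)]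
  congr 1
  funext w
  exact tot_eq w

lemma Sys.P1_sum (H : Sys n νS νT μ) : ∫ w, P1 w ∂μ = ∑ i : Fin n, ∫ w, w i.castSucc ∂μ := by
  unfold P1
  exact integral_finsetSum _ (fun i _ => H.comp_int _)

/-- underloaded case, lower components -/
lemma under_low (H : Fam n νS νT μ β με) (hn : 0 < n)
    (hU : ∫ s, s ∂νS < n * ∫ t, t ∂νT) (i : Fin n) :
    Tendsto (fun ε => ∫ w, w i.castSucc ∂(με ε) - ∫ w, w i.castSucc ∂μ) (𝓝[>] 0) (𝓝 0) := by
  have h1 := Cv.P1_under H hn hU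
  have h2 : Cv νS νT μ β με (fun p => p.1.1 i.castSucc) := by
    apply h1.dom H (by fun_prop)
    intro p hp
    rw [abs_of_nonneg (hp.1.2 _)]
    exact Finset.single_le_sum (f := fun i : Fin n => p.1.1 i.castSucc)
      (fun i _ => hp.1.2 _) (Finset.mem_univ i)
  have h3 := h2.to_w H (f := fun w => w i.castSucc) (by fun_prop)
  have h4 := h3.sub_const (∫ w, w i.castSucc ∂μ)
  rwa [sub_self] at h4

lemma under_last (H : Fam n νS νT μ β με) (hn : 0 < n)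
    (hU : ∫ s, s ∂νS < n * ∫ t, t ∂νT) :
    Tendsto (fun ε => ∫ w, w (Fin.last n) ∂(με ε) - ∫ w, w (Fin.last n) ∂μ) (𝓝[>] 0)
      (𝓝 (β ^ 2 * (∫ s, s ^ 2 ∂νS) / (2 * ∫ t, t ∂νT))) := by
  have hET := H.ETpos
  have h0 := under_low H hn hU ⟨0, hn⟩
  have e0 : (Fin.castSucc (⟨0, hn⟩ : Fin n)) = (0 : Fin (n + 1)) := rfl
  rw [e0] at h0
  have h1 := (Cv.P1_under H hn hU).to_w H continuous_P1
  have h2 := h1.sub_const (∫ w, P1 w ∂μ)
  rw [sub_self] at h2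
  have h3 := lim_I1 H
  have h4 := ((h3.add (h0.const_mul (2 * ∫ s, s ∂νS))).sub
    (h2.const_mul (2 * ∫ t, t ∂νT))).div_const (2 * ∫ t, t ∂νT)
  have e1 : (β ^ 2 * ∫ s, s ^ 2 ∂νS + (2 * ∫ s, s ∂νS) * 0 - (2 * ∫ t, t ∂νT) * 0) /
      (2 * ∫ t, t ∂νT) = β ^ 2 * (∫ s, s ^ 2 ∂νS) / (2 * ∫ t, t ∂νT) := by ring
  rw [e1] at h4
  refine h4.congr' ?_
  filter_upwards [H.ev] with ε hε
  rw [hε.2.2.2.tot_split, H.base.tot_split]
  field_simp
  ring

/-- overloaded and critical case: total workload -/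
lemma over_tot (H : Fam n νS νT μ β με) (hO : n * ∫ t, t ∂νT ≤ ∫ s, s ∂νS) :
    Tendsto (fun ε => ∫ w, tot w ∂(με ε) - ∫ w, tot w ∂μ) (𝓝[>] 0)
      (𝓝 (β ^ 2 * (∫ s, s ^ 2 ∂νS) / (2 * ((n + 1) * (∫ t, t ∂νT) - ∫ s, s ∂νS)))) := by
  have hpos : 0 < 2 * ((n + 1) * (∫ t, t ∂νT) - ∫ s, s ∂νS) := by linarith [H.base.lt]
  have h := (lim_I2 H hO).div_const (2 * ((n + 1) * (∫ t, t ∂νT) - ∫ s, s ∂νS))
  refine h.congr' ?_
  filter_upwards with ε
  exact mul_div_cancel_left₀ _ hpos.ne'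

lemma over_zero (H : Fam n νS νT μ β με) (hO : n * ∫ t, t ∂νT ≤ ∫ s, s ∂νS) :
    Tendsto (fun ε => ∫ w, w 0 ∂(με ε) - ∫ w, w 0 ∂μ) (𝓝[>] 0)
      (𝓝 ((2 * (∫ t, t ∂νT) * (β ^ 2 * (∫ s, s ^ 2 ∂νS) /
        (2 * ((n + 1) * (∫ t, t ∂νT) - ∫ s, s ∂νS))) - β ^ 2 * ∫ s, s ^ 2 ∂νS) /
        (2 * ∫ s, s ∂νS))) := by
  have hES := H.hES
  have h1 := over_tot H hO
  have h2 := lim_I1 H
  have h3 := ((h1.const_mul (2 * ∫ t, t ∂νT)).sub h2).div_const (2 * ∫ s, s ∂νS)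
  refine h3.congr' ?_
  filter_upwards with ε
  field_simp
  ring

/-- all lower components have the same limit -/
lemma gap_low (H : Fam n νS νT μ β με) (i : Fin n) :
    Tendsto (fun ε => (∫ w, w i.castSucc ∂(με ε) - ∫ w, w i.castSucc ∂μ) -
      (∫ w, w 0 ∂(με ε) - ∫ w, w 0 ∂μ)) (𝓝[>] 0) (𝓝 0) := by
  have h1 := Cv.Lam H
  have h2 : Cv νS νT μ β με (fun p => p.1.1 i.castSucc - p.1.1 0) := by
    apply h1.dom H (by fun_prop)
    intro p hp
    have e1 := hp.1.1 (Fin.zero_le i.castSucc)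
    rw [abs_of_nonneg (by linarith)]
    have e2 : P1 p.1.1 - n * p.1.1 0 = ∑ i : Fin n, (p.1.1 i.castSucc - p.1.1 0) := by
      unfold P1
      rw [Finset.sum_sub_distrib]
      simp
    rw [e2]
    exact Finset.single_le_sum (f := fun i : Fin n => p.1.1 i.castSucc - p.1.1 0)
      (fun j _ => by
        have := hp.1.1 (Fin.zero_le j.castSucc)
        linarith) (Finset.mem_univ i)
  have h3 := h2.to_w H (f := fun w => w i.castSucc - w 0) (by fun_prop)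
  have h4 := h3.sub_const (∫ w, (w i.castSucc - w 0) ∂μ)
  rw [sub_self] at h4
  refine h4.congr' ?_
  filter_upwards [H.ev] with ε hε
  have hs := hε.2.2.2
  rw [integral_sub (hs.comp_int _) (hs.comp_int _),
    integral_sub (H.base.comp_int _) (H.base.comp_int _)]
  ring

lemma over_low (H : Fam n νS νT μ β με) (hO : n * ∫ t, t ∂νT ≤ ∫ s, s ∂νS) (i : Fin n) :
    Tendsto (fun ε => ∫ w, w i.castSucc ∂(με ε) - ∫ w, w i.castSucc ∂μ) (𝓝[>] 0)
      (𝓝 ((2 * (∫ t, t ∂νT) * (β ^ 2 * (∫ s, s ^ 2 ∂νS) /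
        (2 * ((n + 1) * (∫ t, t ∂νT) - ∫ s, s ∂νS))) - β ^ 2 * ∫ s, s ^ 2 ∂νS) /
        (2 * ∫ s, s ∂νS))) := by
  have h := (gap_low H i).add (over_zero H hO)
  rw [zero_add] at h
  refine h.congr' ?_
  filter_upwards with ε
  ring

lemma over_last (H : Fam n νS νT μ β με) (hO : n * ∫ t, t ∂νT ≤ ∫ s, s ∂νS) :
    Tendsto (fun ε => ∫ w, w (Fin.last n) ∂(με ε) - ∫ w, w (Fin.last n) ∂μ) (𝓝[>] 0)
      (𝓝 (β ^ 2 * (∫ s, s ^ 2 ∂νS) / (2 * ((n + 1) * (∫ t, t ∂νT) - ∫ s, s ∂νS)) -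
        n * ((2 * (∫ t, t ∂νT) * (β ^ 2 * (∫ s, s ^ 2 ∂νS) /
        (2 * ((n + 1) * (∫ t, t ∂νT) - ∫ s, s ∂νS))) - β ^ 2 * ∫ s, s ^ 2 ∂νS) /
        (2 * ∫ s, s ∂νS)))) := by
  have h1 := tendsto_finsetSum (Finset.univ : Finset (Fin n)) (fun i _ => over_low H hO i)
  simp only [Finset.sum_const, Finset.card_univ, Fintype.card_fin, nsmul_eq_mul] at h1
  have h2 := (over_tot H hO).sub h1
  refine h2.congr' ?_
  filter_upwards [H.ev] with ε hε
  have hs := hε.2.2.2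
  rw [hs.tot_split, H.base.tot_split, hs.P1_sum, H.base.P1_sum, Finset.sum_sub_distrib]
  ring

/-- the limits with the displayed values -/
theorem main (H : Fam n νS νT μ β με) {ρ : ℝ}
    (hρ : ρ = (∫ s, s ∂νS) / ((n + 1) * ∫ t, t ∂νT)) :
    (∀ i : Fin n, Tendsto (fun ε => ∫ w, w i.castSucc ∂(με ε) - ∫ w, w i.castSucc ∂μ) (𝓝[>] 0)
      (𝓝 (max (1 - (n + 1) * (1 - ρ)) 0 / ρ *
        (β ^ 2 * (∫ s, s ^ 2 ∂νS) / (2 * (n + 1) ^ 2 * (1 - ρ) * ∫ t, t ∂νT))))) ∧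
    (ρ ≤ 1 - 1 / (n + 1) →
      Tendsto (fun ε => ∫ w, w (Fin.last n) ∂(με ε) - ∫ w, w (Fin.last n) ∂μ) (𝓝[>] 0)
        (𝓝 (β ^ 2 * (∫ s, s ^ 2 ∂νS) / (2 * ∫ t, t ∂νT)))) ∧
    (1 - 1 / (n + 1) ≤ ρ →
      Tendsto (fun ε => ∫ w, w (Fin.last n) ∂(με ε) - ∫ w, w (Fin.last n) ∂μ) (𝓝[>] 0)
        (𝓝 (β ^ 2 * (∫ s, s ^ 2 ∂νS) / (2 * ∫ t, t ∂νT) *
          ((ρ + (1 - ρ) * n ^ 2) / ((n + 1) ^ 2 * ρ * (1 - ρ)))))) := by
  have hET := H.ETpos
  have hES := H.hES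
  have hlt := H.base.lt
  have hn1 : (0 : ℝ) < n + 1 := by positivity
  set ES := ∫ s, s ∂νS with hESd
  set ET := ∫ t, t ∂νT with hETd
  set B := ∫ s, s ^ 2 ∂νS with hBd
  have hρ0 : 0 < ρ := by rw [hρ]; positivity
  have hρ1 : ρ < 1 := by
    rw [hρ, div_lt_one (by positivity)]
    exact hlt
  have hES' : ES = ρ * ((n + 1) * ET) := by
    rw [hρ]
    field_simp
  have h1ρ : 0 < 1 - ρ := by linarith
  -- equivalences
  have hcrit : 1 - (n + 1) * (1 - ρ) = (ES - n * ET) / ET := by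
    rw [hES']
    field_simp
    ring
  have hden : (n + 1) * ET - ES = (n + 1) * ET * (1 - ρ) := by
    rw [hES']
    ring
  have hval : (2 * ET * (β ^ 2 * B / (2 * ((n + 1) * ET - ES))) - β ^ 2 * B) / (2 * ES) =
      (1 - (n + 1) * (1 - ρ)) / ρ * (β ^ 2 * B / (2 * (n + 1) ^ 2 * (1 - ρ) * ET)) := by
    rw [hden, hES']
    field_simp
  have hvlast : β ^ 2 * B / (2 * ((n + 1) * ET - ES)) -
        n * ((1 - (n + 1) * (1 - ρ)) / ρ * (β ^ 2 * B / (2 * (n + 1) ^ 2 * (1 - ρ) * ET))) =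
      β ^ 2 * B / (2 * ET) * ((ρ + (1 - ρ) * n ^ 2) / ((n + 1) ^ 2 * ρ * (1 - ρ))) := by
    rw [hden]
    field_simp
    ring
  have hiff : 1 - 1 / ((n : ℝ) + 1) ≤ ρ ↔ n * ET ≤ ES := by
    rw [hES']
    constructor
    · intro h
      have e1 : (1 - 1 / ((n : ℝ) + 1)) * ((n + 1) * ET) = n * ET := by
        field_simp
        ring
      rw [← e1]
      exact mul_le_mul_of_nonneg_right h (by positivity)
    · intro h
      have e1 : (1 - 1 / ((n : ℝ) + 1)) * ((n + 1) * ET) = n * ET := by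
        field_simp
        ring
      rw [← e1] at h
      exact le_of_mul_le_mul_right h (by positivity)
  have hnpos : ES < n * ET → 0 < n := by
    intro h
    by_contra hcon
    have : n = 0 := by omega
    rw [this] at h
    simp only [CharP.cast_eq_zero, zero_mul] at h
    linarith
  refine ⟨?_, ?_, ?_⟩
  · intro i
    rcases lt_or_ge ES (n * ET) with h | h
    · have e1 : max (1 - ((n : ℝ) + 1) * (1 - ρ)) 0 = 0 := by
        apply max_eq_right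
        rw [hcrit]
        apply div_nonpos_of_nonpos_of_nonneg (by linarith) hET.le
      rw [e1, zero_div, zero_mul]
      exact under_low H (hnpos h) h i
    · have e1 : max (1 - ((n : ℝ) + 1) * (1 - ρ)) 0 = 1 - (n + 1) * (1 - ρ) := by
        apply max_eq_left
        rw [hcrit]
        apply div_nonneg (by linarith) hET.le
      rw [e1, ← hval]
      exact over_low H h i
  · intro hle
    rcases lt_or_ge ES (n * ET) with h | h
    · exact under_last H (hnpos h) h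
    · have h3 := over_last H h
      rw [← hESd, ← hETd, ← hBd, hval, hvlast] at h3
      have h4 := hiff.mpr h
      have hρeq : ρ = 1 - 1 / (n + 1) := le_antisymm hle h4
      have hn0 : (0 : ℝ) < n := by
        have h5 : 0 < 1 - 1 / ((n : ℝ) + 1) := by rw [← hρeq]; exact hρ0
        have h6 : 1 - 1 / ((n : ℝ) + 1) = n / (n + 1) := by
          field_simp
          ring
        rw [h6] at h5
        by_contra hcon
        have h7 : (n : ℝ) = 0 := le_antisymm (not_lt.mp hcon) (Nat.cast_nonneg n)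
        rw [h7] at h5
        simp at h5
      have e2 : (ρ + (1 - ρ) * (n : ℝ) ^ 2) / ((n + 1) ^ 2 * ρ * (1 - ρ)) = 1 := by
        have g1 : 1 - ρ = 1 / (n + 1) := by rw [hρeq]; ring
        have g2 : ρ = n / (n + 1) := by
          rw [hρeq]
          field_simp
          ring
        rw [g1, g2]
        field_simp
        ring
      rw [e2, mul_one] at h3
      exact h3
  · intro hge
    have h := hiff.mp hge
    have h3 := over_last H h
    rw [← hESd, ← hETd, ← hBd, hval, hvlast] at h3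
    exact h3

end

end Pool.Agent.Work.MP_1ece5f_pr
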