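import Pool.Agent.Work.MP_1ece5f_pr.Basic

open MeasureTheory Filter Topology
open scoped ENNReal

namespace Pool.Agent.Work.MP_1ece5f_pr

set_option maxHeartbeats 400000

attribute [local irreducible] kwStep

/-- sum of the lower components -/
noncomputable def P1 {n : ℕ} (w : Fin (n + 1) → ℝ) : ℝ := ∑ i : Fin n, w i.castSucc

/-- sum of the squares of the lower components -/
noncomputable def P2 {n : ℕ} (w : Fin (n + 1) → ℝ) : ℝ := ∑ i : Fin n, w i.castSucc ^ 2

/-- idle time of the lower servers -/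
noncomputable def lowI {n : ℕ} (w : Fin (n + 1) → ℝ) (s t : ℝ) : ℝ :=
  ∑ i : Fin n, max (t - low w s i) 0

/-- sum of squares of the idle times of the lower servers -/
noncomputable def lowQ {n : ℕ} (w : Fin (n + 1) → ℝ) (s t : ℝ) : ℝ :=
  ∑ i : Fin n, (max (t - low w s i) 0) ^ 2

/-- total idle time in one step -/
noncomputable def idl {n : ℕ} (w : Fin (n + 1) → ℝ) (s t : ℝ) : ℝ :=
  ∑ i : Fin (n + 1), max (t - post w s i) 0

lemma max_sub_eq (x t : ℝ) : max (x - t) 0 = x - t + max (t - x) 0 := by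
  rcases le_total x t with h | h
  · rw [max_eq_right (by linarith), max_eq_left (by linarith)]; ring
  · rw [max_eq_left (by linarith), max_eq_right (by linarith)]; ring

section det
variable {n : ℕ} {w : Fin (n + 1) → ℝ} {s t : ℝ}

lemma tot_eq (w : Fin (n + 1) → ℝ) : tot w = P1 w + w (Fin.last n) := by
  unfold tot P1
  rw [Fin.sum_univ_castSucc]

lemma dl_zero {w : Fin (0 + 1) → ℝ} (hs : 0 ≤ s) : dl w s = 0 := by
  unfold dl
  have : w (Fin.last 0) - w 0 = 0 := by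
    have : (Fin.last 0 : Fin (0 + 1)) = 0 := rfl
    rw [this, sub_self]
  rw [this, min_eq_right hs]

lemma sum_low (hs : 0 ≤ s) : ∑ i : Fin n, low w s i = P1 w + dl w s := by
  cases n with
  | zero => simp [P1, dl_zero hs]
  | succ m =>
    unfold P1
    rw [Fin.sum_univ_succ, Fin.sum_univ_succ]
    have e1 : low w s (0 : Fin (m + 1)) = w 0 + dl w s := by simp [low]
    have e2 : ∀ i : Fin m, low w s (i.succ) = w i.succ.castSucc := by
      intro i
      simp [low]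
    rw [e1]
    simp only [e2, Fin.castSucc_zero]
    ring

lemma sum_low_sq (hs : 0 ≤ s) :
    ∑ i : Fin n, low w s i ^ 2 = P2 w + 2 * (w 0 * dl w s) + dl w s ^ 2 := by
  cases n with
  | zero => simp [P2, dl_zero hs]
  | succ m =>
    unfold P2
    rw [Fin.sum_univ_succ, Fin.sum_univ_succ]
    have e1 : low w s (0 : Fin (m + 1)) = w 0 + dl w s := by simp [low]
    have e2 : ∀ i : Fin m, low w s (i.succ) = w i.succ.castSucc := by
      intro i
      simp [low]
    rw [e1]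
    simp only [e2, Fin.castSucc_zero]
    ring

lemma P1_kwStep (hw : Monotone w) (hs : 0 ≤ s) (t : ℝ) :
    P1 (kwStep w s t) = P1 w + dl w s - n * t + lowI w s t := by
  have h1 : P1 (kwStep w s t) = ∑ i : Fin n, max (low w s i - t) 0 :=
    sum_low_kwStep hw hs t (fun x => x)
  rw [h1, Finset.sum_congr rfl (fun i _ => max_sub_eq (low w s i) t), Finset.sum_add_distrib,
    Finset.sum_sub_distrib, sum_low hs]
  unfold lowI
  simp

lemma P2_kwStep (hw : Monotone w) (hs : 0 ≤ s) (t : ℝ) :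
    P2 (kwStep w s t) = P2 w + 2 * (w 0 * dl w s) + dl w s ^ 2 - 2 * t * (P1 w + dl w s) +
      n * t ^ 2 - lowQ w s t := by
  have h1 : P2 (kwStep w s t) = ∑ i : Fin n, (max (low w s i - t) 0) ^ 2 :=
    sum_low_kwStep hw hs t (fun x => x ^ 2)
  rw [h1, Finset.sum_congr rfl (fun i _ => max_sub_sq (low w s i) t),
    Finset.sum_sub_distrib]
  have h2 : ∑ i : Fin n, (low w s i - t) ^ 2 =
      ∑ i : Fin n, low w s i ^ 2 - 2 * t * ∑ i : Fin n, low w s i + n * t ^ 2 := by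
    rw [Finset.mul_sum]
    have : (n : ℝ) * t ^ 2 = ∑ _i : Fin n, t ^ 2 := by simp
    rw [this, ← Finset.sum_sub_distrib, ← Finset.sum_add_distrib]
    apply Finset.sum_congr rfl
    intro i _
    ring
  rw [h2, sum_low hs, sum_low_sq hs]
  unfold lowQ
  ring

lemma tot_kwStep (w : Fin (n + 1) → ℝ) (s t : ℝ) :
    tot (kwStep w s t) = tot w + s - (n + 1) * t + idl w s t := by
  have h1 : tot (kwStep w s t) = ∑ i, max (post w s i - t) 0 :=
    sum_kwStep w s t (fun x => x)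
  rw [h1, Finset.sum_congr rfl (fun i _ => max_sub_eq (post w s i) t), Finset.sum_add_distrib,
    Finset.sum_sub_distrib, sum_post]
  unfold idl
  simp

lemma low_nonneg (hw : Monotone w) (h0 : ∀ i, 0 ≤ w i) (hs : 0 ≤ s) (i : Fin n) :
    0 ≤ low w s i := by
  unfold low
  have := h0 0
  have := dl_nonneg hw hs
  split_ifs
  · linarith
  · exact h0 _

lemma lowI_nonneg : 0 ≤ lowI w s t := Finset.sum_nonneg (fun _ _ => le_max_right _ _)

lemma lowQ_nonneg : 0 ≤ lowQ w s t := Finset.sum_nonneg (fun _ _ => sq_nonneg _)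

lemma idl_nonneg : 0 ≤ idl w s t := Finset.sum_nonneg (fun _ _ => le_max_right _ _)

lemma lowI_le (hw : Monotone w) (h0 : ∀ i, 0 ≤ w i) (hs : 0 ≤ s) (ht : 0 ≤ t) :
    lowI w s t ≤ n * t := by
  unfold lowI
  have : (n : ℝ) * t = ∑ _i : Fin n, t := by simp
  rw [this]
  apply Finset.sum_le_sum
  intro i _
  have := low_nonneg hw h0 hs i
  exact max_le (by linarith) ht

lemma lowQ_le (hw : Monotone w) (h0 : ∀ i, 0 ≤ w i) (hs : 0 ≤ s) (ht : 0 ≤ t) :
    lowQ w s t ≤ n * t ^ 2 := by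
  unfold lowQ
  have : (n : ℝ) * t ^ 2 = ∑ _i : Fin n, t ^ 2 := by simp
  rw [this]
  apply Finset.sum_le_sum
  intro i _
  have := low_nonneg hw h0 hs i
  exact pow_le_pow_left₀ (le_max_right _ _) (max_le (by linarith) ht) 2

lemma idl_le (h0 : ∀ i, 0 ≤ w i) (hs : 0 ≤ s) (ht : 0 ≤ t) :
    idl w s t ≤ (n + 1) * t := by
  unfold idl
  have : ((n : ℝ) + 1) * t = ∑ _i : Fin (n + 1), t := by simp
  rw [this]
  apply Finset.sum_le_sum
  intro i _
  have := post_nonneg h0 hs i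
  exact max_le (by linarith) ht

lemma lowI_sq_le : lowI w s t ^ 2 ≤ n * lowQ w s t := by
  unfold lowI lowQ
  have := sq_sum_le_card_mul_sum_sq (s := (Finset.univ : Finset (Fin n)))
    (f := fun i => max (t - low w s i) 0)
  simpa using this

lemma P1_nonneg (h0 : ∀ i, 0 ≤ w i) : 0 ≤ P1 w := Finset.sum_nonneg (fun _ _ => h0 _)

lemma P1_le_tot (h0 : ∀ i, 0 ≤ w i) : P1 w ≤ tot w := by
  rw [tot_eq]
  linarith [h0 (Fin.last n)]

lemma n_zero_le (hw : Monotone w) : n * w 0 ≤ P1 w := by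
  unfold P1
  have : (n : ℝ) * w 0 = ∑ _i : Fin n, w 0 := by simp
  rw [this]
  exact Finset.sum_le_sum (fun i _ => hw (Fin.zero_le _))

end det

section cont
variable {n : ℕ}

lemma continuous_dl : Continuous (fun p : Om n => dl p.1.1 p.1.2) := by
  unfold dl; fun_prop

lemma continuous_low (i : Fin n) : Continuous (fun p : Om n => low p.1.1 p.1.2 i) := by
  unfold low
  by_cases h : (i : ℕ) = 0
  · simp only [h, if_true]
    have := continuous_dl (n := n)
    fun_prop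
  · simp only [h, if_false]
    fun_prop

lemma continuous_post (i : Fin (n + 1)) : Continuous (fun p : Om n => post p.1.1 p.1.2 i) := by
  unfold post
  by_cases h : i = 0
  · simp only [h, if_true]
    fun_prop
  · simp only [h, if_false]
    fun_prop

lemma continuous_lowI : Continuous (fun p : Om n => lowI p.1.1 p.1.2 p.2) := by
  unfold lowI
  apply continuous_finsetSum
  intro i _
  exact (continuous_snd.sub (continuous_low i)).max continuous_const

lemma continuous_lowQ : Continuous (fun p : Om n => lowQ p.1.1 p.1.2 p.2) := by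
  unfold lowQ
  apply continuous_finsetSum
  intro i _
  exact ((continuous_snd.sub (continuous_low i)).max continuous_const).pow 2

lemma continuous_idl : Continuous (fun p : Om n => idl p.1.1 p.1.2 p.2) := by
  unfold idl
  apply continuous_finsetSum
  intro i _
  exact (continuous_snd.sub (continuous_post i)).max continuous_const

lemma continuous_Q : Continuous (fun p : Om n => Q p.1.1 p.1.2 p.2) := by
  unfold Q
  apply continuous_finsetSum
  intro i _
  exact ((continuous_snd.sub (continuous_post i)).max continuous_const).pow 2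

lemma continuous_P1 : Continuous (P1 (n := n)) := by
  unfold P1; fun_prop

lemma continuous_P2 : Continuous (P2 (n := n)) := by
  unfold P2; fun_prop

lemma continuous_w {f : (Fin (n + 1) → ℝ) → ℝ} (hf : Continuous f) :
    Continuous (fun p : Om n => f p.1.1) := hf.comp (continuous_fst.comp continuous_fst)

end cont

section
variable {n : ℕ} {νS νT : Measure ℝ} {μ : Measure (Fin (n + 1) → ℝ)} {β : ℝ}
  {με : ℝ → Measure (Fin (n + 1) → ℝ)} {F G : Om n → ℝ}

lemma Sys.int_of_le (H : Sys n νS νT μ) (hF : Continuous F) (hG : Integrable G (jt μ νS νT))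
    (h : ∀ p, Adm p → |F p| ≤ G p) : Integrable F (jt μ νS νT) := by
  apply hG.mono' hF.measurable.aestronglyMeasurable
  filter_upwards [H.ae_adm] with p hp
  rw [Real.norm_eq_abs]
  exact h p hp

lemma Sys.P1_int (H : Sys n νS νT μ) : Integrable P1 μ := by
  apply H.tot_bound.1.mono' continuous_P1.measurable.aestronglyMeasurable
  filter_upwards [H.sorted] with w hw
  rw [Real.norm_eq_abs, abs_of_nonneg (P1_nonneg hw.2)]
  exact P1_le_tot hw.2

/-- stationarity in terms of an explicit increment -/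
lemma Sys.SI' (H : Sys n νS νT μ) {V : (Fin (n + 1) → ℝ) → ℝ} (hV : Measurable V)
    (hint : Integrable F (jt μ νS νT))
    (h : ∀ p, Adm p → V (kwStep p.1.1 p.1.2 p.2) - V p.1.1 = F p) :
    ∫ p, F p ∂(jt μ νS νT) = 0 := by
  have h1 : (fun p : Om n => V (kwStep p.1.1 p.1.2 p.2) - V p.1.1) =ᵐ[jt μ νS νT] F := by
    filter_upwards [H.ae_adm] with p hp
    exact h p hp
  rw [← integral_congr_ae h1]
  exact H.SI hV (hint.congr h1.symm)

/-- (I1) -/
lemma Sys.I1 (H : Sys n νS νT μ) :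
    2 * (∫ t, t ∂νT) * (∫ w, tot w ∂μ) - 2 * (∫ s, s ∂νS) * (∫ w, w 0 ∂μ) =
      ∫ s, s ^ 2 ∂νS - 2 * (∫ s, s ∂νS) * (∫ t, t ∂νT) + (n + 1) * ∫ t, t ^ 2 ∂νT -
        ∫ p, Q p.1.1 p.1.2 p.2 ∂(jt μ νS νT) := by
  have := H.pmu; have := H.pS; have := H.pT
  have b1 := (HIfg (νT := νT) (H.comp_int 0) H.S1).mul 2
  have b2 := HIg (μ := μ) (νT := νT) H.S2
  have b3 := (HIfh (νS := νS) H.tot_bound.1 H.T1).mul 2
  have b4 := (HIgh (μ := μ) H.S1 H.T1).mul 2
  have b5 := (HIh (μ := μ) (νS := νS) H.T2).mul (n + 1)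
  have b6 := HI.of (H.int_of_le (F := fun p => Q p.1.1 p.1.2 p.2) continuous_Q b5.1
    (fun p hp => by
      rw [abs_of_nonneg (Q_nonneg _ _ _)]
      exact Q_le hp.1.2 hp.2.1 hp.2.2))
  have b := ((((b1.add b2).sub b3).sub b4).add b5).sub b6
  have h0 := H.SI' continuous_tot2.measurable b.1 (fun p _ => tot2_kwStep p.1.1 p.1.2 p.2)
  rw [b.2] at h0
  linarith

/-- (I2) -/
lemma Sys.I2 (H : Sys n νS νT μ) :
    2 * ((n + 1) * (∫ t, t ∂νT) - ∫ s, s ∂νS) * (∫ w, tot w ∂μ) =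
      2 * ∫ p, tot p.1.1 * idl p.1.1 p.1.2 p.2 ∂(jt μ νS νT) + ∫ s, s ^ 2 ∂νS +
        ∫ p, (2 * (p.1.2 * (idl p.1.1 p.1.2 p.2 - (n + 1) * p.2)) +
          (idl p.1.1 p.1.2 p.2 - (n + 1) * p.2) ^ 2) ∂(jt μ νS νT) := by
  have := H.pmu; have := H.pS; have := H.pT
  have b1 := (HIfg (νT := νT) H.tot_bound.1 H.S1).mul 2
  have b2 := HIg (μ := μ) (νT := νT) H.S2
  have b3 := (HIfh (νS := νS) H.tot_bound.1 H.T1).mul (2 * (n + 1))
  have c1 := (HIfh (νS := νS) H.tot_bound.1 H.T1).mul (n + 1)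
  have b4 := (HI.of (H.int_of_le (F := fun p => tot p.1.1 * idl p.1.1 p.1.2 p.2)
    ((continuous_w continuous_tot).mul continuous_idl) c1.1
    (fun p hp => by
      have e1 := tot_nonneg hp.1.2
      have e2 : 0 ≤ idl p.1.1 p.1.2 p.2 := idl_nonneg
      have e3 := idl_le hp.1.2 hp.2.1 hp.2.2
      rw [abs_of_nonneg (mul_nonneg e1 e2)]
      nlinarith))).mul 2
  have c2 := ((HIgh (μ := μ) H.S1 H.T1).mul (2 * (n + 1))).add
    ((HIh (μ := μ) (νS := νS) H.T2).mul ((n + 1) ^ 2))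
  have b5 := HI.of (H.int_of_le (F := fun p => (2 * (p.1.2 * (idl p.1.1 p.1.2 p.2 -
      (n + 1) * p.2)) + (idl p.1.1 p.1.2 p.2 - (n + 1) * p.2) ^ 2))
    (by
      have := continuous_idl (n := n)
      fun_prop) c2.1
    (fun p hp => by
      have e2 : 0 ≤ idl p.1.1 p.1.2 p.2 := idl_nonneg
      have e3 := idl_le hp.1.2 hp.2.1 hp.2.2
      have e4 := hp.2.1
      have e5 := hp.2.2
      have e6 : |idl p.1.1 p.1.2 p.2 - (n + 1) * p.2| ≤ (n + 1) * p.2 := by
        rw [abs_le]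
        constructor <;> linarith
      refine (abs_add_le _ _).trans (add_le_add ?_ ?_)
      · rw [abs_mul, abs_mul, abs_of_nonneg e4, abs_of_nonneg (zero_le_two (α := ℝ))]
        have := mul_le_mul_of_nonneg_left e6 e4
        linarith
      · rw [abs_of_nonneg (sq_nonneg _), ← sq_abs, ← mul_pow]
        exact pow_le_pow_left₀ (abs_nonneg _) e6 2))
  have b := (((b1.sub b3).add b4).add b2).add b5
  have h0 := H.SI' (V := fun w => tot w ^ 2) (continuous_tot.pow 2).measurable b.1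
    (fun p _ => by
      rw [tot_kwStep]
      ring)
  rw [b.2] at h0
  linarith

/-- (I6) -/
lemma Sys.I6 (H : Sys n νS νT μ) :
    2 * (∫ t, t ∂νT) * (∫ w, P1 w ∂μ) - 2 * (∫ s, s ∂νS) * (∫ w, w 0 ∂μ) +
      2 * ∫ p, p.1.1 0 * (p.1.2 - dl p.1.1 p.1.2) ∂(jt μ νS νT) =
      ∫ p, (dl p.1.1 p.1.2 ^ 2 - 2 * (p.2 * dl p.1.1 p.1.2) + n * p.2 ^ 2 -
        lowQ p.1.1 p.1.2 p.2) ∂(jt μ νS νT) := by
  have := H.pmu; have := H.pS; have := H.pT
  have b1 := (HIfg (νT := νT) (H.comp_int 0) H.S1).mul 2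
  have b2 := (HIfh (νS := νS) H.P1_int H.T1).mul 2
  have hdl := continuous_dl (n := n)
  have b3 := (HI.of (H.int_of_le (F := fun p => p.1.1 0 * (p.1.2 - dl p.1.1 p.1.2))
    (by fun_prop) b1.1
    (fun p hp => by
      have e1 := dl_nonneg hp.1.1 hp.2.1
      have e2 := dl_le p.1.1 p.1.2
      have e3 := hp.1.2 0
      have e4 := hp.2.1
      rw [abs_of_nonneg (mul_nonneg e3 (by linarith))]
      nlinarith [mul_nonneg e3 e4]))).mul 2
  have c2 := (((HIg (μ := μ) (νT := νT) H.S2)).add ((HIgh (μ := μ) H.S1 H.T1).mul 2)).add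
    ((HIh (μ := μ) (νS := νS) H.T2).mul (2 * n))
  have b4 := HI.of (H.int_of_le (F := fun p => (dl p.1.1 p.1.2 ^ 2 -
      2 * (p.2 * dl p.1.1 p.1.2) + n * p.2 ^ 2 - lowQ p.1.1 p.1.2 p.2))
    (by
      have := continuous_lowQ (n := n)
      fun_prop) c2.1
    (fun p hp => by
      have e1 := dl_nonneg hp.1.1 hp.2.1
      have e2 := dl_le p.1.1 p.1.2
      have e4 := hp.2.1
      have e5 := hp.2.2
      have e6 := lowQ_nonneg (w := p.1.1) (s := p.1.2) (t := p.2)
      have e7 := lowQ_le hp.1.1 hp.1.2 hp.2.1 hp.2.2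
      have e8 : dl p.1.1 p.1.2 ^ 2 ≤ p.1.2 ^ 2 := pow_le_pow_left₀ e1 e2 2
      have e9 : p.2 * dl p.1.1 p.1.2 ≤ p.1.2 * p.2 := by nlinarith
      have e10 : 0 ≤ p.2 * dl p.1.1 p.1.2 := mul_nonneg e5 e1
      have e11 : 0 ≤ (n : ℝ) * p.2 ^ 2 := by positivity
      have e12 := sq_nonneg (dl p.1.1 p.1.2)
      rw [abs_le]
      constructor <;> linarith))
  have b := (((b1.sub b2).sub b3).add b4)
  have h0 := H.SI' continuous_P2.measurable b.1
    (fun p hp => by
      rw [P2_kwStep hp.1.1 hp.2.1]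
      ring)
  rw [b.2] at h0
  linarith

/-- the functional `J` -/
noncomputable def JJ {n : ℕ} (p : Om n) : ℝ :=
  n * lowQ p.1.1 p.1.2 p.2 + 2 * ((P1 p.1.1 + dl p.1.1 p.1.2 - n * p.2 +
    lowI p.1.1 p.1.2 p.2) * lowI p.1.1 p.1.2 p.2) - lowI p.1.1 p.1.2 p.2 ^ 2

lemma continuous_JJ : Continuous (JJ (n := n)) := by
  have h1 := continuous_lowQ (n := n)
  have h2 := continuous_lowI (n := n)
  have h3 := continuous_dl (n := n)
  have h4 := continuous_w (continuous_P1 (n := n))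
  unfold JJ
  fun_prop

lemma JJ_nonneg {p : Om n} (hp : Adm p) : 0 ≤ JJ p := by
  unfold JJ
  have h1 := P1_kwStep hp.1.1 hp.2.1 p.2
  have h2 : 0 ≤ P1 (kwStep p.1.1 p.1.2 p.2) := P1_nonneg (kwStep_nonneg _ _ _)
  rw [h1] at h2
  have h3 := lowI_nonneg (w := p.1.1) (s := p.1.2) (t := p.2)
  have h4 := lowI_sq_le (w := p.1.1) (s := p.1.2) (t := p.2)
  have h5 := mul_nonneg h2 h3
  linarith

lemma JJ_le {p : Om n} (hp : Adm p) : JJ p ≤ n ^ 2 * p.2 ^ 2 +
    2 * n * (tot p.1.1 * p.2) + 2 * n * (p.1.2 * p.2) := by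
  unfold JJ
  have h1 := P1_le_tot hp.1.2
  have h3 := lowI_nonneg (w := p.1.1) (s := p.1.2) (t := p.2)
  have h4 := lowI_le hp.1.1 hp.1.2 hp.2.1 hp.2.2
  have h5 := lowQ_le hp.1.1 hp.1.2 hp.2.1 hp.2.2
  have h6 := dl_le p.1.1 p.1.2
  have h7 := P1_nonneg hp.1.2
  have h8 := dl_nonneg hp.1.1 hp.2.1
  have h9 := hp.2.2
  have hn : (0 : ℝ) ≤ n := Nat.cast_nonneg n
  set I := lowI p.1.1 p.1.2 p.2
  set q := lowQ p.1.1 p.1.2 p.2
  set A := P1 p.1.1 with hA
  set d := dl p.1.1 p.1.2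
  have e1 : (n : ℝ) * q ≤ n * (n * p.2 ^ 2) := mul_le_mul_of_nonneg_left h5 hn
  have e2 : (A + d - n * p.2 + I) * I ≤ (A + d) * I := by
    apply mul_le_mul_of_nonneg_right _ h3
    linarith
  have e3 : (A + d) * I ≤ (A + d) * (n * p.2) := mul_le_mul_of_nonneg_left h4 (by linarith)
  have e4 : (A + d) * (n * p.2) ≤ (tot p.1.1 + p.1.2) * (n * p.2) := by
    apply mul_le_mul_of_nonneg_right (by linarith) (by positivity)
  nlinarith [sq_nonneg I]

/-- (I5) -/
lemma Sys.I5 (H : Sys n νS νT μ) :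
    ∫ p, (2 * (dl p.1.1 p.1.2 * (P1 p.1.1 - n * p.1.1 0)) + JJ p) ∂(jt μ νS νT) =
      ∫ p, ((n - 1) * dl p.1.1 p.1.2 ^ 2) ∂(jt μ νS νT) := by
  have := H.pmu; have := H.pS; have := H.pT
  have hdl := continuous_dl (n := n)
  have hP := continuous_w (continuous_P1 (n := n))
  have hJ := continuous_JJ (n := n)
  have c1 := (HIfg (νT := νT) H.tot_bound.1 H.S1)
  have c2 := HIg (μ := μ) (νT := νT) H.S2
  have c3 := ((HIh (μ := μ) (νS := νS) H.T2).mul (n ^ 2)).add
    ((HIfh (νS := νS) H.tot_bound.1 H.T1).mul (2 * n))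
  have c4 := c3.add ((HIgh (μ := μ) H.S1 H.T1).mul (2 * n))
  have b1 := (HI.of (H.int_of_le
    (F := fun p => dl p.1.1 p.1.2 * (P1 p.1.1 - n * p.1.1 0))
    (by fun_prop) c1.1
    (fun p hp => by
      have e1 := dl_nonneg hp.1.1 hp.2.1
      have e2 := dl_le p.1.1 p.1.2
      have e3 := n_zero_le hp.1.1
      have e4 := hp.2.1
      have e5 := P1_le_tot hp.1.2
      have e6 : (0 : ℝ) ≤ n * p.1.1 0 := mul_nonneg (Nat.cast_nonneg n) (hp.1.2 0)
      rw [abs_of_nonneg (mul_nonneg e1 (by linarith))]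
      calc dl p.1.1 p.1.2 * (P1 p.1.1 - n * p.1.1 0) ≤ p.1.2 * tot p.1.1 :=
            mul_le_mul e2 (by linarith) (by linarith) e4
        _ = _ := by ring))).mul 2
  have b2 := HI.of (H.int_of_le hJ c4.1
    (fun p hp => by
      rw [abs_of_nonneg (JJ_nonneg hp)]
      exact JJ_le hp))
  have b3 := (HI.of (H.int_of_le (F := fun p => dl p.1.1 p.1.2 ^ 2) (by fun_prop) c2.1
    (fun p hp => by
      rw [abs_of_nonneg (sq_nonneg _)]
      exact pow_le_pow_left₀ (dl_nonneg hp.1.1 hp.2.1) (dl_le _ _) 2))).mul ((n : ℝ) - 1)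
  have b := (b3.sub b1).sub b2
  have h0 := H.SI' (V := fun w => n * P2 w - P1 w ^ 2)
    ((continuous_const.mul continuous_P2).sub (continuous_P1.pow 2)).measurable b.1
    (fun p hp => by
      rw [P2_kwStep hp.1.1 hp.2.1, P1_kwStep hp.1.1 hp.2.1]
      unfold JJ
      ring)
  rw [b.2] at h0
  have b4 := b1.add b2
  rw [b4.2, b3.2]
  linarith

end

end Pool.Agent.Work.MP_1ece5f_pr
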