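import Pool.Agent.Work.MP_1ece5f_pr.Over2

open MeasureTheory Filter Topology
open scoped ENNReal

namespace Pool.Agent.Work.MP_1ece5f_pr

set_option maxHeartbeats 400000

attribute [local irreducible] kwStep

section
variable {n : ℕ} {νS νT : Measure ℝ} {μ : Measure (Fin (n + 1) → ℝ)} {β : ℝ}
  {με : ℝ → Measure (Fin (n + 1) → ℝ)} {F G : Om n → ℝ}

lemma Sys.int_w (H : Sys n νS νT μ) {f : (Fin (n + 1) → ℝ) → ℝ} (hf : Continuous f) :
    ∫ p, f p.1.1 ∂(jt μ νS νT) = ∫ w, f w ∂μ := by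
  have h1 : ∫ w, f w ∂((jt μ νS νT).map (fun p => p.1.1)) = ∫ p, f p.1.1 ∂(jt μ νS νT) :=
    integral_map (measurable_fst.comp measurable_fst).aemeasurable
      hf.measurable.aestronglyMeasurable
  rw [← h1, H.map_w]

/-- transfer to the workload law -/
lemma Cv.to_w (H : Fam n νS νT μ β με) {f : (Fin (n + 1) → ℝ) → ℝ} (hf : Continuous f)
    (hc : Cv νS νT μ β με (fun p => f p.1.1)) :
    Tendsto (fun ε => ∫ w, f w ∂(με ε)) (𝓝[>] 0) (𝓝 (∫ w, f w ∂μ)) := by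
  have h := hc.lim
  rw [H.base.int_w hf] at h
  refine h.congr' ?_
  filter_upwards [H.ev] with ε hε
  exact hε.2.2.2.int_w hf

lemma Cv.of_int_eq (hG : Cv νS νT μ β με G) (hF : Continuous F)
    (h0 : HI (jt μ νS νT) F (∫ p, G p ∂(jt μ νS νT)))
    (he : ∀ᶠ ε in 𝓝[>] 0, HI (je νS νT β με ε) F (∫ p, G p ∂(je νS νT β με ε))) :
    Cv νS νT μ β με F := by
  refine ⟨hF, h0.1, ?_, ?_⟩
  · filter_upwards [he] with ε hε using hε.1
  · rw [h0.2]
    refine hG.lim.congr' ?_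
    filter_upwards [he] with ε hε
    exact hε.2.symm

lemma dl_le_min {p : Om n} (hp : Adm p) :
    dl p.1.1 p.1.2 ≤ min p.1.2 (p.1.1 (Fin.last n)) := by
  unfold dl
  apply min_le_min le_rfl
  linarith [hp.1.2 0]

lemma dl_sq_le_mm {p : Om n} (hp : Adm p) : dl p.1.1 p.1.2 ^ 2 ≤ mm p := by
  unfold mm
  have h1 := dl_le_min hp
  have h2 := dl_nonneg hp.1.1 hp.2.1
  have h3 := dl_le p.1.1 p.1.2
  rw [sq]
  exact mul_le_mul h3 h1 h2 hp.2.1

lemma Cv.dlsq (H : Fam n νS νT μ β με) : Cv νS νT μ β με (fun p => dl p.1.1 p.1.2 ^ 2) := by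
  apply (Cv.mm H).dom H (continuous_dl.pow 2)
  intro p hp
  rw [abs_of_nonneg (sq_nonneg _)]
  exact dl_sq_le_mm hp

lemma Cv.tdl (H : Fam n νS νT μ β με) : Cv νS νT μ β με (fun p => p.2 * dl p.1.1 p.1.2) := by
  apply (Cv.st H).dom H (continuous_snd.mul continuous_dl)
  intro p hp
  have h1 := dl_nonneg hp.1.1 hp.2.1
  have h2 := dl_le p.1.1 p.1.2
  change |p.2 * dl p.1.1 p.1.2| ≤ _
  rw [abs_of_nonneg (mul_nonneg hp.2.2 h1)]
  nlinarith [hp.2.2]

lemma Cv.lowQ (H : Fam n νS νT μ β με) :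
    Cv νS νT μ β με (fun p => lowQ p.1.1 p.1.2 p.2) := by
  apply ((Cv.h H (h := fun t => t ^ 2) (continuous_pow 2) H.base.T2).mul n).dom H
    continuous_lowQ
  intro p hp
  rw [abs_of_nonneg lowQ_nonneg]
  exact lowQ_le hp.1.1 hp.1.2 hp.2.1 hp.2.2

lemma Cv.Q (H : Fam n νS νT μ β με) : Cv νS νT μ β με (fun p => Q p.1.1 p.1.2 p.2) := by
  apply ((Cv.h H (h := fun t => t ^ 2) (continuous_pow 2) H.base.T2).mul (n + 1)).dom H
    continuous_Q
  intro p hp
  rw [abs_of_nonneg (Q_nonneg _ _ _)]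
  exact Q_le hp.1.2 hp.2.1 hp.2.2

/-- underloaded case -/
lemma Cv.P1_under (H : Fam n νS νT μ β με) (hn : 0 < n)
    (hU : ∫ s, s ∂νS < n * ∫ t, t ∂νT) : Cv νS νT μ β με (fun p => P1 p.1.1) := by
  have hn' : (0 : ℝ) < n := by exact_mod_cast hn
  have hES := H.hES
  set ES := ∫ s, s ∂νS with hESd
  set ET := ∫ t, t ∂νT with hETd
  have hPsi : Cv νS νT μ β με (fun p => dl p.1.1 p.1.2 ^ 2 - 2 * (p.2 * dl p.1.1 p.1.2) +
      n * p.2 ^ 2 - Work.MP_1ece5f_pr.lowQ p.1.1 p.1.2 p.2) :=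
    (((Cv.dlsq H).sub ((Cv.tdl H).mul 2)).add
      ((Cv.h H (h := fun t => t ^ 2) (continuous_pow 2) H.base.T2).mul n)).sub (Cv.lowQ H)
  have hdl := continuous_dl (n := n)
  have hP := continuous_w (continuous_P1 (n := n))
  have gen : ∀ (νS' : Measure ℝ) (μ' : Measure (Fin (n + 1) → ℝ)), Sys n νS' νT μ' →
      ∫ s, s ∂νS' = ES →
      HI (jt μ' νS' νT) (fun p : Om n => 2 * (ET - ES / n) * P1 p.1.1 +
        2 * ES / n * (P1 p.1.1 - n * p.1.1 0) + 2 * (p.1.1 0 * (p.1.2 - dl p.1.1 p.1.2)))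
        (∫ p, (dl p.1.1 p.1.2 ^ 2 - 2 * (p.2 * dl p.1.1 p.1.2) +
          n * p.2 ^ 2 - Work.MP_1ece5f_pr.lowQ p.1.1 p.1.2 p.2) ∂(jt μ' νS' νT)) := by
    intro νS' μ' hs hE
    have := hs.pS; have := hs.pT; have := hs.pmu
    have b1 := (HIf (νS := νS') (νT := νT) hs.P1_int)
    have b2 := (HIf (νS := νS') (νT := νT) (hs.comp_int 0))
    have c1 := (HIfg (νT := νT) (hs.comp_int 0) hs.S1)
    have b3 := HI.of (hs.int_of_le (F := fun p => p.1.1 0 * (p.1.2 - dl p.1.1 p.1.2))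
      (by fun_prop) c1.1
      (fun p hp => by
        have e1 := dl_nonneg hp.1.1 hp.2.1
        have e2 := dl_le p.1.1 p.1.2
        have e3 := hp.1.2 0
        have e4 := hp.2.1
        rw [abs_of_nonneg (mul_nonneg e3 (by linarith))]
        nlinarith [mul_nonneg e3 e4]))
    have b := ((b1.mul (2 * (ET - ES / n))).add ((b1.sub (b2.mul n)).mul (2 * ES / n))).add
      (b3.mul 2)
    refine b.congr (ae_of_all _ fun p => rfl) ?_
    rw [← hs.I6, hE, ← hETd]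
    field_simp
    ring
  have hG : Cv νS νT μ β με (fun p : Om n => 2 * (ET - ES / n) * P1 p.1.1 +
        2 * ES / n * (P1 p.1.1 - n * p.1.1 0) + 2 * (p.1.1 0 * (p.1.2 - dl p.1.1 p.1.2))) := by
    apply hPsi.of_int_eq (by fun_prop) (gen νS μ H.base rfl)
    filter_upwards [H.ev] with ε hε
    exact gen _ _ hε.2.2.2 (perturb_id H.base.S1 hε.1).2
  have hc : 0 < 2 * (ET - ES / n) := by
    have : ES / n < ET := by
      rw [div_lt_iff₀ hn']
      linarith
    linarith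
  apply (hG.mul (1 / (2 * (ET - ES / n)))).dom H hP
  intro p hp
  rw [abs_of_nonneg (P1_nonneg hp.1.2)]
  have e1 : 0 ≤ 2 * ES / n * (P1 p.1.1 - n * p.1.1 0) := by
    have := n_zero_le hp.1.1
    exact mul_nonneg (by positivity) (by linarith)
  have e2 : 0 ≤ 2 * (p.1.1 0 * (p.1.2 - dl p.1.1 p.1.2)) := by
    have := dl_le p.1.1 p.1.2
    have := hp.1.2 0
    exact mul_nonneg zero_le_two (mul_nonneg this (by linarith))
  rw [one_div, inv_mul_eq_div, le_div_iff₀ hc]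
  linarith

/-- balance of the lower components -/
lemma Cv.Lam (H : Fam n νS νT μ β με) :
    Cv νS νT μ β με (fun p => P1 p.1.1 - n * p.1.1 0) := by
  have := H.base.pS; have := H.base.pT; have := H.base.pmu
  have hdl := continuous_dl (n := n)
  have hP := continuous_w (continuous_P1 (n := n))
  have hJ := continuous_JJ (n := n)
  have hR : Cv νS νT μ β με (fun p => ((n : ℝ) - 1) * dl p.1.1 p.1.2 ^ 2) :=
    (Cv.dlsq H).mul _
  have gen : ∀ (νS' : Measure ℝ) (μ' : Measure (Fin (n + 1) → ℝ)), Sys n νS' νT μ' →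
      HI (jt μ' νS' νT) (fun p : Om n =>
        2 * (dl p.1.1 p.1.2 * (P1 p.1.1 - n * p.1.1 0)) + JJ p)
        (∫ p, (((n : ℝ) - 1) * dl p.1.1 p.1.2 ^ 2) ∂(jt μ' νS' νT)) := by
    intro νS' μ' hs
    have := hs.pS; have := hs.pT; have := hs.pmu
    rw [← hs.I5]
    apply HI.of
    have c1 := (HIfg (νT := νT) hs.tot_bound.1 hs.S1)
    have c3 := ((HIh (μ := μ') (νS := νS') hs.T2).mul (n ^ 2)).add
      ((HIfh (νS := νS') hs.tot_bound.1 hs.T1).mul (2 * n))
    have c4 := c3.add ((HIgh (μ := μ') hs.S1 hs.T1).mul (2 * n))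
    have b1 := hs.int_of_le
      (F := fun p => dl p.1.1 p.1.2 * (P1 p.1.1 - n * p.1.1 0))
      (by fun_prop) c1.1
      (fun p hp => by
        have e1 := dl_nonneg hp.1.1 hp.2.1
        have e2 := dl_le p.1.1 p.1.2
        have e3 := n_zero_le hp.1.1
        have e4 := hp.2.1
        have e5 := P1_le_tot hp.1.2
        have e6 : (0 : ℝ) ≤ n * p.1.1 0 := mul_nonneg (Nat.cast_nonneg n) (hp.1.2 0)
        rw [abs_of_nonneg (mul_nonneg e1 (by linarith))]
        calc dl p.1.1 p.1.2 * (P1 p.1.1 - n * p.1.1 0) ≤ p.1.2 * tot p.1.1 :=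
              mul_le_mul e2 (by linarith) (by linarith) e4
          _ = _ := by ring)
    have b2 := hs.int_of_le hJ c4.1
      (fun p hp => by
        rw [abs_of_nonneg (JJ_nonneg hp)]
        exact JJ_le hp)
    exact (b1.const_mul 2).add b2
  have hG : Cv νS νT μ β με (fun p : Om n =>
        2 * (dl p.1.1 p.1.2 * (P1 p.1.1 - n * p.1.1 0)) + JJ p) := by
    apply hR.of_int_eq (by fun_prop) (gen νS μ H.base)
    filter_upwards [H.ev] with ε hε
    exact gen _ _ hε.2.2.2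
  -- the bounded factor
  have hLamn : ∀ p : Om n, Adm p → 0 ≤ P1 p.1.1 - n * p.1.1 0 := fun p hp => by
    linarith [n_zero_le hp.1.1]
  have hmL : Cv νS νT μ β με (fun p => min |p.1.2| 1 * (P1 p.1.1 - n * p.1.1 0)) := by
    have hconst : Cv νS νT μ β με (fun _ => (n : ℝ)) :=
      Cv.of_bdd H continuous_const (C := |(n : ℝ)|) (fun _ => le_rfl)
    apply (hG.add hconst).dom H (by fun_prop)
    intro p hp
    have e0 := hLamn p hp
    have e1 : 0 ≤ min |p.1.2| 1 := le_min (abs_nonneg _) zero_le_one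
    rw [abs_of_nonneg (mul_nonneg e1 e0), abs_of_nonneg hp.2.1]
    have e2 := JJ_nonneg hp
    have e3 := dl_nonneg hp.1.1 hp.2.1
    have e4 := mul_nonneg e3 e0
    have e5 : P1 p.1.1 - n * p.1.1 0 ≤ n * (p.1.1 (Fin.last n) - p.1.1 0) := by
      have : P1 p.1.1 ≤ n * p.1.1 (Fin.last n) := by
        unfold P1
        have h : (n : ℝ) * p.1.1 (Fin.last n) = ∑ _i : Fin n, p.1.1 (Fin.last n) := by simp
        rw [h]
        exact Finset.sum_le_sum (fun i _ => hp.1.1 (Fin.le_last _))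
      linarith
    rcases le_total 1 (p.1.1 (Fin.last n) - p.1.1 0) with h | h
    · have e6 : min p.1.2 1 ≤ dl p.1.1 p.1.2 := by
        unfold dl
        exact min_le_min le_rfl h
      have e7 := mul_le_mul_of_nonneg_right e6 e0
      have e8 : (0 : ℝ) ≤ n := Nat.cast_nonneg n
      linarith
    · have e6 : n * (p.1.1 (Fin.last n) - p.1.1 0) ≤ n := by
        have : (0 : ℝ) ≤ n := Nat.cast_nonneg n
        nlinarith
      have e7 : min p.1.2 1 ≤ 1 := min_le_right _ _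
      have e8 : min p.1.2 1 * (P1 p.1.1 - n * p.1.1 0) ≤ 1 * (P1 p.1.1 - n * p.1.1 0) :=
        mul_le_mul_of_nonneg_right e7 e0
      linarith
  have hm : Cv νS νT μ β με (fun p => min |p.1.2| 1) := by
    apply Cv.of_bdd H (by fun_prop) (C := 1)
    intro p
    rw [abs_of_nonneg (le_min (abs_nonneg _) zero_le_one)]
    exact min_le_right _ _
  have hLc : Continuous (fun w : Fin (n + 1) → ℝ => P1 w - n * w 0) := by
    have := continuous_P1 (n := n)
    fun_prop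
  -- factorisation
  have hgi : ∀ (ν : Measure ℝ) [IsProbabilityMeasure ν], Integrable (fun s => min |s| 1) ν := by
    intro ν _
    apply Integrable.of_bound (C := 1) (by fun_prop)
    filter_upwards with s
    rw [Real.norm_eq_abs, abs_of_nonneg (le_min (abs_nonneg _) zero_le_one)]
    exact min_le_right _ _
  have fac : ∀ (νS' : Measure ℝ) (μ' : Measure (Fin (n + 1) → ℝ)), Sys n νS' νT μ' →
      ∫ p, min |p.1.2| 1 * (P1 p.1.1 - n * p.1.1 0) ∂(jt μ' νS' νT) =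
      (∫ p : Om n, (P1 p.1.1 - n * p.1.1 0) ∂(jt μ' νS' νT)) *
        ∫ p : Om n, min |p.1.2| 1 ∂(jt μ' νS' νT) := by
    intro νS' μ' hs
    have := hs.pS; have := hs.pT; have := hs.pmu
    have iL : Integrable (fun w : Fin (n + 1) → ℝ => P1 w - n * w 0) μ' :=
      hs.P1_int.sub ((hs.comp_int 0).const_mul n)
    have c1 := HIfg (νT := νT) iL (hgi νS')
    have c2 := HIf (νS := νS') (νT := νT) iL
    have c3 := HIg (μ := μ') (νT := νT) (hgi νS')
    rw [c2.2, c3.2, ← c1.2]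
    apply integral_congr_ae
    filter_upwards with p
    ring
  have hpos : 0 < ∫ p : Om n, min |p.1.2| 1 ∂(jt μ νS νT) := by
    have c3 := HIg (μ := μ) (νT := νT) (hgi νS)
    rw [c3.2]
    rw [integral_pos_iff_support_of_nonneg (fun s => le_min (abs_nonneg _) zero_le_one)
      (hgi νS)]
    have hsp : 0 < νS (Function.support (fun s : ℝ => s)) := by
      have := H.hES
      rwa [integral_pos_iff_support_of_nonneg_ae H.base.S0 H.base.S1] at this
    refine hsp.trans_le (measure_mono ?_)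
    intro s hs
    simp only [Function.mem_support] at hs ⊢
    have : 0 < min |s| 1 := lt_min (abs_pos.mpr hs) one_pos
    exact this.ne'
  refine ⟨by fun_prop, ?_, ?_, ?_⟩
  · exact (HIf (νS := νS) (νT := νT) (H.base.P1_int.sub ((H.base.comp_int 0).const_mul n))).1
  · filter_upwards [H.ev] with ε hε
    have hs := hε.2.2.2
    have := hs.pS; have := hs.pmu
    exact (HIf (νS := perturb νS β ε) (νT := νT)
      (hs.P1_int.sub ((hs.comp_int 0).const_mul n))).1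
  · have h1 := hmL.lim.div hm.lim hpos.ne'
    rw [fac νS μ H.base, mul_div_cancel_right₀ _ hpos.ne'] at h1
    refine h1.congr' ?_
    filter_upwards [H.ev, hm.lim.eventually (lt_mem_nhds hpos)] with ε hε h2
    have h3 := fac _ _ hε.2.2.2
    have h4 : ∫ p, min |p.1.2| 1 * (P1 p.1.1 - n * p.1.1 0) ∂(je νS νT β με ε) =
      (∫ p : Om n, (P1 p.1.1 - n * p.1.1 0) ∂(je νS νT β με ε)) *
        ∫ p : Om n, min |p.1.2| 1 ∂(je νS νT β με ε) := h3
    rw [Pi.div_apply, h4, mul_div_cancel_right₀ _ h2.ne']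

lemma idl_eq {p : Om n} (hp : Adm p) : idl p.1.1 p.1.2 p.2 = lowI p.1.1 p.1.2 p.2 +
    max (p.2 - (p.1.1 (Fin.last n) + (p.1.2 - dl p.1.1 p.1.2))) 0 := by
  have h1 := tot_kwStep p.1.1 p.1.2 p.2
  have h2 := P1_kwStep hp.1.1 hp.2.1 p.2
  have h3 := kwStep_last hp.1.1 hp.2.1 p.2
  rw [max_eq_dl, max_sub_eq] at h3
  rw [tot_eq, tot_eq, h2, h3] at h1
  linarith

/-- overloaded and critical case -/
lemma Cv.totidl (H : Fam n νS νT μ β με) (hO : n * ∫ t, t ∂νT ≤ ∫ s, s ∂νS) :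
    Cv νS νT μ β με (fun p => tot p.1.1 * idl p.1.1 p.1.2 p.2) := by
  have h1 := (Cv.wl_lowI H hO).mul (n + 1)
  have h2 := (Cv.h H (h := fun t => t ^ 2) (continuous_pow 2) H.base.T2).mul (n + 1)
  apply (h1.add h2).dom H ((continuous_w continuous_tot).mul continuous_idl)
  intro p hp
  have e1 := tot_nonneg hp.1.2
  have e2 : 0 ≤ idl p.1.1 p.1.2 p.2 := idl_nonneg
  change |tot p.1.1 * idl p.1.1 p.1.2 p.2| ≤ _
  rw [abs_of_nonneg (mul_nonneg e1 e2), idl_eq hp]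
  have e3 : tot p.1.1 ≤ (n + 1) * p.1.1 (Fin.last n) := by
    unfold tot
    have h : ((n : ℝ) + 1) * p.1.1 (Fin.last n) =
        ∑ _i : Fin (n + 1), p.1.1 (Fin.last n) := by simp
    rw [h]
    exact Finset.sum_le_sum (fun i _ => hp.1.1 (Fin.le_last _))
  have e4 := lowI_nonneg (w := p.1.1) (s := p.1.2) (t := p.2)
  have e5 := mul_le_mul_of_nonneg_right e3 e4
  have e6 := dl_le p.1.1 p.1.2
  have e7 := hp.1.2 (Fin.last n)
  have e8 := hp.2.2
  have hn : (0 : ℝ) < n + 1 := by positivity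
  set a := p.1.1 (Fin.last n) with ha
  have e9 : tot p.1.1 * max (p.2 - (a + (p.1.2 - dl p.1.1 p.1.2))) 0 ≤
      (n + 1) * p.2 ^ 2 := by
    rcases le_total (p.2) (a + (p.1.2 - dl p.1.1 p.1.2)) with h | h
    · rw [max_eq_right (by linarith), mul_zero]
      positivity
    · rw [max_eq_left (by linarith)]
      have f1 : a ≤ p.2 := by linarith
      have f2 : p.2 - (a + (p.1.2 - dl p.1.1 p.1.2)) ≤ p.2 := by linarith
      have f3 : tot p.1.1 ≤ (n + 1) * p.2 := by nlinarith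
      calc tot p.1.1 * (p.2 - (a + (p.1.2 - dl p.1.1 p.1.2)))
          ≤ ((n + 1) * p.2) * p.2 := mul_le_mul f3 f2 (by linarith) (by positivity)
        _ = _ := by ring
  rw [mul_add]
  have e10 : (n + 1) * a * lowI p.1.1 p.1.2 p.2 = (n + 1) * (a * lowI p.1.1 p.1.2 p.2) := by
    ring
  rw [e10] at e5
  linarith

/-- limit form of (I1) -/
lemma lim_I1 (H : Fam n νS νT μ β με) :
    Tendsto (fun ε => 2 * (∫ t, t ∂νT) * (∫ w, tot w ∂(με ε) - ∫ w, tot w ∂μ) -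
      2 * (∫ s, s ∂νS) * (∫ w, w 0 ∂(με ε) - ∫ w, w 0 ∂μ)) (𝓝[>] 0)
      (𝓝 (β ^ 2 * ∫ s, s ^ 2 ∂νS)) := by
  have h1 := (Cv.Q H).lim
  have h2 := (tendsto_const_nhds (x := ∫ p, Work.MP_1ece5f_pr.Q p.1.1 p.1.2 p.2
    ∂(jt μ νS νT))).sub h1
  have h3 := h2.const_add (β ^ 2 * ∫ s, s ^ 2 ∂νS)
  rw [sub_self, add_zero] at h3
  refine h3.congr' ?_
  filter_upwards [H.ev] with ε hε
  have e1 := hε.2.2.2.I1
  have e2 := H.base.I1
  rw [(perturb_id H.base.S1 hε.1).2, (perturb_sq H.base.S2 hε.1).2] at e1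
  have e3 : ∫ p, Work.MP_1ece5f_pr.Q p.1.1 p.1.2 p.2 ∂(je νS νT β με ε) =
    ∫ p, Work.MP_1ece5f_pr.Q p.1.1 p.1.2 p.2 ∂(jt (με ε) (perturb νS β ε) νT) := rfl
  rw [e3]
  linarith

/-- limit form of (I2) -/
lemma lim_I2 (H : Fam n νS νT μ β με) (hO : n * ∫ t, t ∂νT ≤ ∫ s, s ∂νS) :
    Tendsto (fun ε => 2 * ((n + 1) * (∫ t, t ∂νT) - ∫ s, s ∂νS) *
      (∫ w, tot w ∂(με ε) - ∫ w, tot w ∂μ)) (𝓝[>] 0) (𝓝 (β ^ 2 * ∫ s, s ^ 2 ∂νS)) := by
  have a1 := (Cv.totidl H hO).mul 2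
  have a2 : Cv νS νT μ β με (fun p => (2 * (p.1.2 * (idl p.1.1 p.1.2 p.2 - (n + 1) * p.2)) +
      (idl p.1.1 p.1.2 p.2 - (n + 1) * p.2) ^ 2)) := by
    have c1 := (Cv.st H).mul (2 * (n + 1))
    have c2 := (Cv.h H (h := fun t => t ^ 2) (continuous_pow 2) H.base.T2).mul ((n + 1) ^ 2)
    apply (c1.add c2).dom H (by have := continuous_idl (n := n); fun_prop)
    intro p hp
    have e2 : 0 ≤ idl p.1.1 p.1.2 p.2 := idl_nonneg
    have e3 := idl_le hp.1.2 hp.2.1 hp.2.2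
    have e4 := hp.2.1
    have e5 := hp.2.2
    have e6 : |idl p.1.1 p.1.2 p.2 - (n + 1) * p.2| ≤ (n + 1) * p.2 := by
      rw [abs_le]
      constructor <;> linarith
    refine (abs_add_le _ _).trans (add_le_add ?_ ?_)
    · rw [abs_mul, abs_mul, abs_of_nonneg e4, abs_of_nonneg (zero_le_two (α := ℝ))]
      have := mul_le_mul_of_nonneg_left e6 e4
      linarith
    · rw [abs_of_nonneg (sq_nonneg _), ← sq_abs, ← mul_pow]
      exact pow_le_pow_left₀ (abs_nonneg _) e6 2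
  have h1 := (a1.add a2).lim
  have h2 := h1.sub (tendsto_const_nhds (x := ∫ p, (2 * (tot p.1.1 * idl p.1.1 p.1.2 p.2) +
    (2 * (p.1.2 * (idl p.1.1 p.1.2 p.2 - (n + 1) * p.2)) +
      (idl p.1.1 p.1.2 p.2 - (n + 1) * p.2) ^ 2)) ∂(jt μ νS νT)))
  have h3 := h2.const_add (β ^ 2 * ∫ s, s ^ 2 ∂νS)
  rw [sub_self, add_zero] at h3
  refine h3.congr' ?_
  filter_upwards [H.ev, a1.inte, a2.inte] with ε hε i1 i2
  have e1 := hε.2.2.2.I2
  have e2 := H.base.I2
  rw [(perturb_id H.base.S1 hε.1).2, (perturb_sq H.base.S2 hε.1).2] at e1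
  rw [integral_add i1 i2, integral_add a1.int0 a2.int0, integral_const_mul,
    integral_const_mul]
  unfold je
  linarith

end

end Pool.Agent.Work.MP_1ece5f_pr
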