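import Pool.Agent.Work.MP_1ece5f_pr.Ident

open MeasureTheory Filter Topology
open scoped ENNReal

namespace Pool.Agent.Work.MP_1ece5f_pr

set_option maxHeartbeats 400000

attribute [local irreducible] kwStep

section scalar

lemma max_sub_zero (x R : ℝ) : max (x - R) 0 = max x R - R := by
  rcases le_total x R with h | h
  · rw [max_eq_right (by linarith), max_eq_right h, sub_self]
  · rw [max_eq_left (by linarith), max_eq_left h]

lemma chi_diff {K x x' : ℝ} (hK : 0 < K) (hx : 0 ≤ x) (hx' : 0 ≤ x') :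
    K ^ 2 / (K + x') - K ^ 2 / (K + x) ≤
      -(K ^ 2 / (K + x) ^ 2 * (x' - x)) + (x' - x) ^ 2 / K := by
  have h1 : 0 < K + x := by linarith
  have h2 : 0 < K + x' := by linarith
  have e : K ^ 2 / (K + x') - K ^ 2 / (K + x) =
      -(K ^ 2 / (K + x) ^ 2 * (x' - x)) +
        (x' - x) ^ 2 * (K ^ 2 / ((K + x) ^ 2 * (K + x'))) := by
    field_simp
    ring
  have h3 : K ^ 2 / ((K + x) ^ 2 * (K + x')) ≤ 1 / K := by
    rw [div_le_div_iff₀ (by positivity) hK]
    have h4 : K ^ 2 ≤ (K + x) ^ 2 := pow_le_pow_left₀ hK.le (by linarith) 2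
    have h5 : K ≤ K + x' := by linarith
    have h6 : K ^ 2 * K ≤ (K + x) ^ 2 * (K + x') := mul_le_mul h4 h5 hK.le (by positivity)
    linarith
  rw [e]
  have h7 : (x' - x) ^ 2 * (K ^ 2 / ((K + x) ^ 2 * (K + x'))) ≤ (x' - x) ^ 2 * (1 / K) :=
    mul_le_mul_of_nonneg_left h3 (sq_nonneg _)
  have h8 : (x' - x) ^ 2 * (1 / K) = (x' - x) ^ 2 / K := by ring
  linarith

lemma u_ge {K x : ℝ} (hK : 0 < K) (hx : 0 ≤ x) : 1 - 2 * x / K ≤ K ^ 2 / (K + x) ^ 2 := by
  have h1 : 0 < K + x := by linarith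
  rw [le_div_iff₀ (by positivity)]
  have : (1 - 2 * x / K) * (K + x) ^ 2 = K ^ 2 - (3 * K * x ^ 2 + 2 * x ^ 3) / K := by
    field_simp
    ring
  rw [this]
  have : 0 ≤ (3 * K * x ^ 2 + 2 * x ^ 3) / K := by positivity
  linarith

lemma u_le_one {K x : ℝ} (hK : 0 < K) (hx : 0 ≤ x) : K ^ 2 / (K + x) ^ 2 ≤ 1 := by
  rw [div_le_one (by positivity)]
  exact pow_le_pow_left₀ hK.le (by linarith) 2

lemma u_anti {K x y : ℝ} (hK : 0 < K) (hx : 0 ≤ x) (hxy : x ≤ y) :
    K ^ 2 / (K + y) ^ 2 ≤ K ^ 2 / (K + x) ^ 2 := by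
  apply div_le_div_of_nonneg_left (by positivity) (by positivity)
  exact pow_le_pow_left₀ (by positivity) (by linarith) 2

lemma chi_anti {K x y : ℝ} (hK : 0 < K) (hx : 0 ≤ x) (hxy : x ≤ y) :
    K ^ 2 / (K + y) ≤ K ^ 2 / (K + x) := by
  apply div_le_div_of_nonneg_left (by positivity) (by positivity)
  linarith

lemma step_i {K x v s t : ℝ} (hK : 0 < K) (hx : 0 ≤ x) (hv : x ≤ v) (hvs : v - x ≤ s)
    (ht : 0 ≤ t) :
    K ^ 2 / (K + max (v - t) 0) - K ^ 2 / (K + x) ≤
      K ^ 2 / (K + x) ^ 2 * (t - (v - x)) - max (t - v) 0 + (3 * t ^ 2 + s ^ 2) / K := by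
  have hs : 0 ≤ s := by linarith
  have h1 := chi_diff hK hx (le_max_right (v - t) 0)
  have h2 := max_sub_eq v t
  have h3 := u_ge hK hx
  have h4 := u_le_one hK hx
  set u := K ^ 2 / (K + x) ^ 2 with hu
  set ι := max (t - v) 0 with hι
  have hι0 : 0 ≤ ι := le_max_right _ _
  have hιt : ι ≤ t := max_le (by linarith) ht
  have h5 : (1 - 2 * x / K) * ι ≤ u * ι := mul_le_mul_of_nonneg_right h3 hι0
  have h6 : x * ι ≤ t ^ 2 := by
    rcases le_total t v with h | h
    · have : ι = 0 := max_eq_right (by linarith)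
      rw [this, mul_zero]
      positivity
    · have : x ≤ t := by linarith
      nlinarith
  have h7 : 2 * x / K * ι ≤ 2 * t ^ 2 / K := by
    have : 2 * x / K * ι = 2 * (x * ι) / K := by ring
    rw [this]
    gcongr
  have h8 : (max (v - t) 0 - x) ^ 2 ≤ t ^ 2 + s ^ 2 := by
    have a1 : -t ≤ max (v - t) 0 - x := by
      have := le_max_left (v - t) 0
      linarith
    have a2 : max (v - t) 0 - x ≤ s := by
      have : max (v - t) 0 ≤ v := max_le (by linarith) (by linarith)
      linarith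
    rcases le_total 0 (max (v - t) 0 - x) with h | h
    · nlinarith
    · nlinarith
  have h9 : (max (v - t) 0 - x) ^ 2 / K ≤ (t ^ 2 + s ^ 2) / K := by gcongr
  have h10 : (t ^ 2 + s ^ 2) / K + 2 * t ^ 2 / K = (3 * t ^ 2 + s ^ 2) / K := by ring
  have h11 : -(u * (max (v - t) 0 - x)) = u * (t - (v - x)) - u * ι := by
    rw [h2]
    ring
  nlinarith

end scalar

/-- the bounded functional of the lower components -/
noncomputable def psi {n : ℕ} (K : ℝ) (w : Fin (n + 1) → ℝ) : ℝ :=
  ∑ i : Fin n, K ^ 2 / (K + w i.castSucc)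

section det
variable {n : ℕ} {K : ℝ} {w : Fin (n + 1) → ℝ} {s t : ℝ}

lemma psi_step (hK : 0 < K) (hw : Monotone w) (h0 : ∀ i, 0 ≤ w i) (hs : 0 ≤ s) (ht : 0 ≤ t) :
    psi K (kwStep w s t) - psi K w ≤
      K ^ 2 / (K + w 0) ^ 2 * (n * t - s) + K ^ 2 / (K + w 0) ^ 2 * (s - dl w s) -
        lowI w s t + n * ((3 * t ^ 2 + s ^ 2) / K) := by
  have h1 : psi K (kwStep w s t) = ∑ i : Fin n, K ^ 2 / (K + max (low w s i - t) 0) :=
    sum_low_kwStep hw hs t (fun x => K ^ 2 / (K + x))
  have hdl0 := dl_nonneg hw hs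
  have hdl := dl_le w s
  set u := K ^ 2 / (K + w 0) ^ 2 with hu
  have hu0 : 0 ≤ u := by positivity
  have h2 : ∀ i : Fin n, K ^ 2 / (K + max (low w s i - t) 0) - K ^ 2 / (K + w i.castSucc) ≤
      (u * t - (if (i : ℕ) = 0 then u * dl w s else 0)) - max (t - low w s i) 0 +
        (3 * t ^ 2 + s ^ 2) / K := by
    intro i
    by_cases hi : (i : ℕ) = 0
    · have e1 : i.castSucc = (0 : Fin (n + 1)) := by
        ext
        simp [hi]
      have e2 : low w s i = w 0 + dl w s := by simp [low, hi]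
      rw [e1, e2]
      simp only [hi, if_true]
      have := step_i (v := w 0 + dl w s) (s := s) hK (h0 0) (by linarith) (by linarith) ht
      rw [← hu] at this
      have e3 : w 0 + dl w s - w 0 = dl w s := by ring
      rw [e3] at this
      linarith
    · have e2 : low w s i = w i.castSucc := by simp [low, hi]
      rw [e2]
      simp only [hi, if_false]
      have := step_i (v := w i.castSucc) (s := s) hK (h0 i.castSucc) le_rfl (by linarith) ht
      have h3 := u_anti hK (h0 0) (hw (Fin.zero_le i.castSucc))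
      have e3 : t - (w i.castSucc - w i.castSucc) = t := by ring
      rw [e3] at this
      have h4 : K ^ 2 / (K + w i.castSucc) ^ 2 * t ≤ u * t := mul_le_mul_of_nonneg_right h3 ht
      linarith
  have h3 : ∑ i : Fin n, (if (i : ℕ) = 0 then u * dl w s else 0) = u * dl w s := by
    cases n with
    | zero => simp [dl_zero hs]
    | succ m =>
      rw [Fin.sum_univ_succ]
      simp
  rw [h1]
  unfold psi lowI
  rw [← Finset.sum_sub_distrib]
  refine (Finset.sum_le_sum (fun i _ => h2 i)).trans ?_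
  rw [Finset.sum_add_distrib, Finset.sum_sub_distrib, Finset.sum_sub_distrib, h3]
  simp only [Finset.sum_const, Finset.card_univ, Fintype.card_fin, nsmul_eq_mul]
  apply le_of_eq
  ring

lemma psi_nonneg (hK : 0 < K) (h0 : ∀ i, 0 ≤ w i) : 0 ≤ psi K w := by
  apply Finset.sum_nonneg
  intro i _
  have := h0 i.castSucc
  positivity

lemma psi_le (hK : 0 < K) (h0 : ∀ i, 0 ≤ w i) : psi K w ≤ n * K := by
  unfold psi
  have : (n : ℝ) * K = ∑ _i : Fin n, K := by simp
  rw [this]
  apply Finset.sum_le_sum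
  intro i _
  have := h0 i.castSucc
  rw [div_le_iff₀ (by positivity)]
  nlinarith

lemma psi_step_le (hK : 0 < K) (hw : Monotone w) (hs : 0 ≤ s) :
    psi K (kwStep w s t) ≤ n * (K ^ 2 / (K + max (w 0 - t) 0)) := by
  have h1 : psi K (kwStep w s t) = ∑ i : Fin n, K ^ 2 / (K + max (low w s i - t) 0) :=
    sum_low_kwStep hw hs t (fun x => K ^ 2 / (K + x))
  have hdl0 := dl_nonneg hw hs
  rw [h1]
  have : (n : ℝ) * (K ^ 2 / (K + max (w 0 - t) 0)) =
      ∑ _i : Fin n, (K ^ 2 / (K + max (w 0 - t) 0)) := by simp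
  rw [this]
  apply Finset.sum_le_sum
  intro i _
  apply chi_anti hK (le_max_right _ _)
  apply max_le_max _ le_rfl
  unfold low
  split_ifs
  · linarith
  · have := hw (Fin.zero_le i.castSucc)
    linarith

/-- first error term -/
lemma T1_le {R : ℝ} (hK : 0 < K) (hR : 0 < R) (hw : Monotone w) (h0 : ∀ i, 0 ≤ w i)
    (hs : 0 ≤ s) :
    max (w (Fin.last n) - R) 0 * (K ^ 2 / (K + w 0) ^ 2 * (s - dl w s)) ≤
      4 * K ^ 2 / R * s + 4 * max (s * min s (w (Fin.last n)) - R ^ 2 / 8) 0 := by
  have hdl0 := dl_nonneg hw hs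
  have hdl := dl_le w s
  have hw0 := h0 0
  have hwl := h0 (Fin.last n)
  set a := w (Fin.last n) with ha
  have hle : w 0 ≤ a := hw (Fin.zero_le _)
  have hpos1 : 0 ≤ 4 * K ^ 2 / R * s := by positivity
  have hpos2 : 0 ≤ 4 * max (s * min s a - R ^ 2 / 8) 0 := by positivity
  rcases le_total a R with h | h
  · rw [max_eq_right (by linarith), zero_mul]
    linarith
  rw [max_eq_left (by linarith)]
  have ha0 : 0 < a := by linarith
  rcases le_total (a / 2) (w 0) with h1 | h1
  · have e1 : (a - R) * (K ^ 2 / (K + w 0) ^ 2) ≤ 4 * K ^ 2 / R := by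
      calc (a - R) * (K ^ 2 / (K + w 0) ^ 2) ≤ a * (K ^ 2 / (a / 2) ^ 2) := by
            apply mul_le_mul (by linarith) _ (by positivity) ha0.le
            apply div_le_div_of_nonneg_left (by positivity) (by positivity)
            exact pow_le_pow_left₀ (by positivity) (by linarith) 2
        _ = 4 * K ^ 2 / a := by
            field_simp
            ring
        _ ≤ 4 * K ^ 2 / R := by
            apply div_le_div_of_nonneg_left (by positivity) hR h
    calc (a - R) * (K ^ 2 / (K + w 0) ^ 2 * (s - dl w s))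
        = (a - R) * (K ^ 2 / (K + w 0) ^ 2) * (s - dl w s) := by ring
      _ ≤ 4 * K ^ 2 / R * s := by
          apply mul_le_mul e1 (by linarith) (by linarith) (by positivity)
      _ ≤ _ := by linarith
  · rcases le_total s (a - w 0) with h2 | h2
    · have : dl w s = s := by
        unfold dl
        exact min_eq_left h2
      rw [this, sub_self, mul_zero, mul_zero]
      linarith
    · have hu := u_le_one hK hw0
      have hs2 : a / 2 ≤ s := by linarith
      have e1 : (a - R) * (K ^ 2 / (K + w 0) ^ 2 * (s - dl w s)) ≤ a * s := by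
        have hu0 : 0 ≤ K ^ 2 / (K + w 0) ^ 2 := by positivity
        have e2 : K ^ 2 / (K + w 0) ^ 2 * (s - dl w s) ≤ s := by nlinarith
        have e3 : 0 ≤ K ^ 2 / (K + w 0) ^ 2 * (s - dl w s) :=
          mul_nonneg hu0 (by linarith)
        exact mul_le_mul (by linarith) e2 e3 ha0.le
      have e4 : a * s ≤ 2 * (s * min s a) := by
        rcases le_total s a with h3 | h3
        · rw [min_eq_left h3]
          nlinarith
        · rw [min_eq_right h3]
          nlinarith
      have e5 : R ^ 2 / 4 ≤ s * min s a := by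
        have : R / 2 ≤ min s a := le_min (by linarith) (by linarith)
        have h4 : R / 2 ≤ s := by linarith
        nlinarith
      have e6 : 2 * (s * min s a) ≤ 4 * max (s * min s a - R ^ 2 / 8) 0 := by
        have := le_max_left (s * min s a - R ^ 2 / 8) 0
        linarith
      linarith

/-- second error term -/
lemma T3_le {R : ℝ} (hK : 0 < K) (hR : 0 < R) (hw : Monotone w) (h0 : ∀ i, 0 ≤ w i)
    (hs : 0 ≤ s) (ht : 0 ≤ t) :
    max (w 0 + s - max (w (Fin.last n)) R) 0 * psi K (kwStep w s t) ≤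
      n * K * max (s - R / 2) 0 + 4 * n * K ^ 2 / R * s + 4 * n * K / R * (s * t) := by
  have hw0 := h0 0
  set a := w (Fin.last n) with ha
  have hle : w 0 ≤ a := hw (Fin.zero_le _)
  have hp1 := psi_step_le (t := t) hK hw hs
  have hp0 : 0 ≤ psi K (kwStep w s t) := psi_nonneg hK (kwStep_nonneg _ _ _)
  have hp2 : psi K (kwStep w s t) ≤ n * K := psi_le hK (kwStep_nonneg _ _ _)
  have hm1 := le_max_left a R
  have hm2 := le_max_right a R
  have q1 : 0 ≤ n * K * max (s - R / 2) 0 := by positivity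
  have q2 : 0 ≤ 4 * n * K ^ 2 / R * s := by positivity
  have q3 : 0 ≤ 4 * n * K / R * (s * t) := by positivity
  rcases le_total (w 0) (R / 2) with h | h
  · have e1 : max (w 0 + s - max a R) 0 ≤ max (s - R / 2) 0 :=
      max_le_max (by linarith) le_rfl
    calc max (w 0 + s - max a R) 0 * psi K (kwStep w s t)
        ≤ max (s - R / 2) 0 * (n * K) := mul_le_mul e1 hp2 hp0 (le_max_right _ _)
      _ = n * K * max (s - R / 2) 0 := by ring
      _ ≤ _ := by linarith
  · have e1 : max (w 0 + s - max a R) 0 ≤ s := max_le (by linarith) hs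
    rcases le_total t (R / 4) with h2 | h2
    · have e2 : psi K (kwStep w s t) ≤ 4 * n * K ^ 2 / R := by
        refine hp1.trans ?_
        have e3 : K ^ 2 / (K + max (w 0 - t) 0) ≤ K ^ 2 / (R / 4) := by
          apply div_le_div_of_nonneg_left (by positivity) (by positivity)
          have := le_max_left (w 0 - t) 0
          linarith
        have e4 : (n : ℝ) * (K ^ 2 / (R / 4)) = 4 * n * K ^ 2 / R := by
          field_simp
        rw [← e4]
        exact mul_le_mul_of_nonneg_left e3 (Nat.cast_nonneg n)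
      calc max (w 0 + s - max a R) 0 * psi K (kwStep w s t)
          ≤ s * (4 * n * K ^ 2 / R) := mul_le_mul e1 e2 hp0 hs
        _ = 4 * n * K ^ 2 / R * s := by ring
        _ ≤ _ := by linarith
    · have e2 : n * K ≤ n * K * (4 * t / R) := by
        have : 1 ≤ 4 * t / R := by
          rw [le_div_iff₀ hR]
          linarith
        have hnK : 0 ≤ n * K := by positivity
        nlinarith
      calc max (w 0 + s - max a R) 0 * psi K (kwStep w s t)
          ≤ s * (n * K * (4 * t / R)) := mul_le_mul e1 (hp2.trans e2) hp0 hs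
        _ = 4 * n * K / R * (s * t) := by ring
        _ ≤ _ := by linarith

/-- the test function -/
noncomputable def VV {n : ℕ} (K R : ℝ) (w : Fin (n + 1) → ℝ) : ℝ :=
  max (w (Fin.last n) - R) 0 * psi K w

lemma VV_step {R : ℝ} (hK : 0 < K) (hR : 0 < R) (hw : Monotone w) (h0 : ∀ i, 0 ≤ w i)
    (hs : 0 ≤ s) (ht : 0 ≤ t) :
    VV K R (kwStep w s t) - VV K R w ≤
      max (w (Fin.last n) - R) 0 * (K ^ 2 / (K + w 0) ^ 2) * (n * t - s) -
      max (w (Fin.last n) - R) 0 * lowI w s t +
      n / K * (w (Fin.last n) * (3 * t ^ 2 + s ^ 2)) +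
      (4 * K ^ 2 / R * s + 4 * max (s * min s (w (Fin.last n)) - R ^ 2 / 8) 0 +
        (n * K * max (s - R / 2) 0 + 4 * n * K ^ 2 / R * s + 4 * n * K / R * (s * t))) := by
  have h1 := psi_step hK hw h0 hs ht
  have h2 := T1_le hK hR hw h0 hs
  have h3 := T3_le hK hR hw h0 hs ht
  have h4 : kwStep w s t (Fin.last n) = max (max (w (Fin.last n)) (w 0 + s) - t) 0 :=
    kwStep_last hw hs t
  have hp0 : 0 ≤ psi K (kwStep w s t) := psi_nonneg hK (kwStep_nonneg _ _ _)
  unfold VV
  set a := w (Fin.last n) with ha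
  have ha0 : 0 ≤ a := h0 _
  set b := kwStep w s t (Fin.last n) with hb
  set ψ' := psi K (kwStep w s t) with hψ'
  set ψ := psi K w with hψ
  set u := K ^ 2 / (K + w 0) ^ 2 with hu
  have h5 : max (b - R) 0 - max (a - R) 0 ≤ max (w 0 + s - max a R) 0 := by
    have e1 : b ≤ max a (w 0 + s) := by
      rw [h4]
      exact max_le (by linarith) (ha0.trans (le_max_left _ _))
    have e2 : max (b - R) 0 ≤ max (max a (w 0 + s) - R) 0 := max_le_max (by linarith) le_rfl
    have e3 : max (a - R) 0 = max a R - R := max_sub_zero a R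
    have e4 : max (max a (w 0 + s) - R) 0 = max (max a (w 0 + s)) R - R := max_sub_zero _ _
    rw [e4] at e2
    rw [e3]
    have e5 : max (max a (w 0 + s)) R ≤ max a R + max (w 0 + s - max a R) 0 := by
      apply max_le
      · apply max_le
        · linarith [le_max_left a R, le_max_right (w 0 + s - max a R) 0]
        · linarith [le_max_left (w 0 + s - max a R) 0]
      · linarith [le_max_right a R, le_max_right (w 0 + s - max a R) 0]
    linarith
  have h6 : (max (b - R) 0 - max (a - R) 0) * ψ' ≤ max (w 0 + s - max a R) 0 * ψ' :=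
    mul_le_mul_of_nonneg_right h5 hp0
  have hm0 : 0 ≤ max (a - R) 0 := le_max_right _ _
  have h7 := mul_le_mul_of_nonneg_left h1 hm0
  have h8 : max (a - R) 0 * (n * ((3 * t ^ 2 + s ^ 2) / K)) ≤
      n / K * (a * (3 * t ^ 2 + s ^ 2)) := by
    have e1 : max (a - R) 0 ≤ a := max_le (by linarith) ha0
    have e2 : 0 ≤ (n : ℝ) * ((3 * t ^ 2 + s ^ 2) / K) := by positivity
    calc max (a - R) 0 * (n * ((3 * t ^ 2 + s ^ 2) / K))
        ≤ a * (n * ((3 * t ^ 2 + s ^ 2) / K)) := mul_le_mul_of_nonneg_right e1 e2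
      _ = _ := by ring
  have e9 : max (b - R) 0 * ψ' - max (a - R) 0 * ψ =
      (max (b - R) 0 - max (a - R) 0) * ψ' + max (a - R) 0 * (ψ' - ψ) := by ring
  rw [e9]
  have e10 : max (a - R) 0 * (u * (n * t - s) + u * (s - dl w s) - lowI w s t +
      n * ((3 * t ^ 2 + s ^ 2) / K)) =
      max (a - R) 0 * u * (n * t - s) + max (a - R) 0 * (u * (s - dl w s)) -
      max (a - R) 0 * lowI w s t + max (a - R) 0 * (n * ((3 * t ^ 2 + s ^ 2) / K)) := by ring
  rw [e10] at h7
  linarith

end det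

end Pool.Agent.Work.MP_1ece5f_pr
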