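import Pool.Agent.Work.MP_1ece5f_pr.Over

open MeasureTheory Filter Topology
open scoped ENNReal

namespace Pool.Agent.Work.MP_1ece5f_pr

set_option maxHeartbeats 400000

attribute [local irreducible] kwStep

/-- the error functional -/
noncomputable def Th {n : ℕ} (K R : ℝ) (p : Om n) : ℝ :=
  4 * K ^ 2 / R * p.1.2 + 4 * max (mm p - R ^ 2 / 8) 0 +
    (n * K * max (p.1.2 - R / 2) 0 + 4 * n * K ^ 2 / R * p.1.2 +
      4 * n * K / R * (p.1.2 * p.2))

section
variable {n : ℕ} {νS νT : Measure ℝ} {μ : Measure (Fin (n + 1) → ℝ)} {β : ℝ}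
  {με : ℝ → Measure (Fin (n + 1) → ℝ)} {F G : Om n → ℝ} {K R : ℝ}

lemma continuous_Th : Continuous (Th (n := n) K R) := by
  have := continuous_mm (n := n)
  unfold Th
  fun_prop

lemma Th_int (H : Sys n νS νT μ) : Integrable (Th K R) (jt μ νS νT) := by
  have := H.pmu; have := H.pS; have := H.pT
  have b1 := (HIg (μ := μ) (νT := νT) H.S1)
  have b2 := (HIgh (μ := μ) H.S1 H.T1)
  have b3 := mm_integrable H
  have i1 : Integrable (fun p : Om n => max (mm p - R ^ 2 / 8) 0) (jt μ νS νT) := by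
    have := H.pj
    exact (b3.sub (integrable_const _)).sup (integrable_const (0 : ℝ))
  have i2 : Integrable (fun p : Om n => max (p.1.2 - R / 2) 0) (jt μ νS νT) := by
    have := H.pj
    exact (b1.1.sub (integrable_const _)).sup (integrable_const (0 : ℝ))
  unfold Th
  exact ((b1.1.const_mul _).add (i1.const_mul _)).add
    (((i2.const_mul _).add (b1.1.const_mul _)).add (b2.1.const_mul _))

lemma continuous_wl_lowI :
    Continuous (fun p : Om n => p.1.1 (Fin.last n) * lowI p.1.1 p.1.2 p.2) := by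
  have := continuous_lowI (n := n)
  fun_prop

lemma wl_lowI_int (H : Sys n νS νT μ) :
    Integrable (fun p : Om n => p.1.1 (Fin.last n) * lowI p.1.1 p.1.2 p.2) (jt μ νS νT) := by
  have := H.pmu; have := H.pS; have := H.pT
  have b1 := (HIfh (νS := νS) (H.comp_int (Fin.last n)) H.T1).mul n
  apply H.int_of_le continuous_wl_lowI b1.1
  intro p hp
  have e1 := hp.1.2 (Fin.last n)
  have e2 := lowI_nonneg (w := p.1.1) (s := p.1.2) (t := p.2)
  have e3 := lowI_le hp.1.1 hp.1.2 hp.2.1 hp.2.2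
  rw [abs_of_nonneg (mul_nonneg e1 e2)]
  nlinarith

lemma measurable_psi : Measurable (psi (n := n) K) := by
  unfold psi
  apply Finset.measurable_fun_sum
  intro i _
  exact measurable_const.div (measurable_const.add (measurable_pi_apply _))

lemma Sys.L3 (H : Sys n νS νT μ) (hO : n * ∫ t, t ∂νT ≤ ∫ s, s ∂νS) (hK : 0 < K)
    (hR : 0 < R) :
    ∫ p, max (p.1.1 (Fin.last n) - R) 0 * lowI p.1.1 p.1.2 p.2 ∂(jt μ νS νT) ≤
      n / K * ((∫ w, w (Fin.last n) ∂μ) * (3 * ∫ t, t ^ 2 ∂νT + ∫ s, s ^ 2 ∂νS)) +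
      ∫ p, Th K R p ∂(jt μ νS νT) := by
  have := H.pmu; have := H.pS; have := H.pT; have := H.pj
  -- the prefactor
  set f : (Fin (n + 1) → ℝ) → ℝ := fun w =>
    max (w (Fin.last n) - R) 0 * (K ^ 2 / (K + w 0) ^ 2) with hf
  have hfm : Measurable f := by
    have h1 : Measurable (fun w : Fin (n + 1) → ℝ => max (w (Fin.last n) - R) 0) := by fun_prop
    have h2 : Measurable (fun w : Fin (n + 1) → ℝ => K ^ 2 / (K + w 0) ^ 2) :=
      measurable_const.div ((measurable_const.add (measurable_pi_apply 0)).pow_const 2)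
    exact h1.mul h2
  have hf0 : ∀ w : Fin (n + 1) → ℝ, (∀ i, 0 ≤ w i) → 0 ≤ f w ∧ f w ≤ w (Fin.last n) := by
    intro w hw
    have e1 := u_le_one hK (hw 0)
    have e2 : 0 ≤ K ^ 2 / (K + w 0) ^ 2 := by positivity
    have e3 : max (w (Fin.last n) - R) 0 ≤ w (Fin.last n) := max_le (by linarith) (hw _)
    have e4 : 0 ≤ max (w (Fin.last n) - R) 0 := le_max_right _ _
    refine ⟨mul_nonneg e4 e2, ?_⟩
    simp only [hf]
    nlinarith [hw (Fin.last n)]
  have hfi : Integrable f μ := by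
    apply (H.comp_int (Fin.last n)).mono' hfm.aestronglyMeasurable
    filter_upwards [H.sorted] with w hw
    rw [Real.norm_eq_abs, abs_of_nonneg (hf0 w hw.2).1]
    exact (hf0 w hw.2).2
  have b1 := ((HIfh (νS := νS) hfi H.T1).mul n).sub (HIfg (νT := νT) hfi H.S1)
  have b2 := HI.of (H.int_of_le
    (F := fun p : Om n => max (p.1.1 (Fin.last n) - R) 0 * lowI p.1.1 p.1.2 p.2)
    (by have := continuous_lowI (n := n); fun_prop) (wl_lowI_int H)
    (fun p hp => by
      have e1 := hp.1.2 (Fin.last n)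
      have e2 := lowI_nonneg (w := p.1.1) (s := p.1.2) (t := p.2)
      have e3 : max (p.1.1 (Fin.last n) - R) 0 ≤ p.1.1 (Fin.last n) := max_le (by linarith) e1
      rw [abs_of_nonneg (mul_nonneg (le_max_right _ _) e2)]
      exact mul_le_mul_of_nonneg_right e3 e2))
  have b3 := (((HIfh (νS := νS) (H.comp_int (Fin.last n)) H.T2).mul 3).add
    (HIfg (νT := νT) (H.comp_int (Fin.last n)) H.S2)).mul (n / K)
  have b4 := HI.of (Th_int (K := K) (R := R) H)
  have b := ((b1.sub b2).add b3).add b4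
  -- integrability of the increment
  have hVm : Measurable (VV (n := n) K R) := by
    unfold VV
    exact (by fun_prop : Measurable (fun w : Fin (n + 1) → ℝ =>
      max (w (Fin.last n) - R) 0)).mul measurable_psi
  have hint : Integrable (fun p : Om n => VV K R (kwStep p.1.1 p.1.2 p.2) - VV K R p.1.1)
      (jt μ νS νT) := by
    have c := ((HIf (νS := νS) (νT := νT) (H.comp_int (Fin.last n))).mul (2 * (n * K))).add
      ((HIg (μ := μ) (νT := νT) H.S1).mul (n * K))
    apply c.1.mono'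
    · exact ((hVm.comp measurable_kwStep).sub
        (hVm.comp (measurable_fst.comp measurable_fst))).aestronglyMeasurable
    · filter_upwards [H.ae_adm] with p hp
      obtain ⟨⟨hm, h0⟩, hs, ht⟩ := hp
      rw [Real.norm_eq_abs]
      have a1 : 0 ≤ VV K R p.1.1 := mul_nonneg (le_max_right _ _) (psi_nonneg hK h0)
      have a2 : 0 ≤ VV K R (kwStep p.1.1 p.1.2 p.2) :=
        mul_nonneg (le_max_right _ _) (psi_nonneg hK (kwStep_nonneg _ _ _))
      have a3 : VV K R p.1.1 ≤ p.1.1 (Fin.last n) * (n * K) := by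
        unfold VV
        exact mul_le_mul (max_le (by linarith) (h0 _)) (psi_le hK h0) (psi_nonneg hK h0) (h0 _)
      have a4 : VV K R (kwStep p.1.1 p.1.2 p.2) ≤
          (p.1.1 (Fin.last n) + p.1.2) * (n * K) := by
        unfold VV
        have e1 : kwStep p.1.1 p.1.2 p.2 (Fin.last n) ≤ p.1.1 (Fin.last n) + p.1.2 := by
          rw [kwStep_last hm hs]
          have e2 := hm (Fin.zero_le (Fin.last n))
          have e3 := h0 (Fin.last n)
          apply max_le _ (by linarith)
          have : max (p.1.1 (Fin.last n)) (p.1.1 0 + p.1.2) ≤ p.1.1 (Fin.last n) + p.1.2 :=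
            max_le (by linarith) (by linarith)
          linarith
        have e4 := h0 (Fin.last n)
        exact mul_le_mul (max_le (by linarith) (by linarith))
          (psi_le hK (kwStep_nonneg _ _ _)) (psi_nonneg hK (kwStep_nonneg _ _ _))
          (by linarith)
      rw [abs_le]
      constructor <;> linarith
  have h0 := H.SI hVm hint
  have hle : ∀ᵐ p ∂(jt μ νS νT), VV K R (kwStep p.1.1 p.1.2 p.2) - VV K R p.1.1 ≤
      n * (f p.1.1 * p.2) - f p.1.1 * p.1.2 -
        max (p.1.1 (Fin.last n) - R) 0 * lowI p.1.1 p.1.2 p.2 +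
        n / K * (3 * (p.1.1 (Fin.last n) * p.2 ^ 2) + p.1.1 (Fin.last n) * p.1.2 ^ 2) +
        Th K R p := by
    filter_upwards [H.ae_adm] with p hp
    obtain ⟨⟨hm, h0⟩, hs, ht⟩ := hp
    have h1 := VV_step hK hR hm h0 hs ht
    refine h1.trans (le_of_eq ?_)
    simp only [hf]
    unfold Th mm
    ring
  have hmain := integral_mono_ae hint b.1 hle
  rw [h0, b.2] at hmain
  have hfn : 0 ≤ ∫ w, f w ∂μ := by
    apply integral_nonneg_of_ae
    filter_upwards [H.sorted] with w hw
    exact (hf0 w hw.2).1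
  have hneg : n * ((∫ w, f w ∂μ) * ∫ t, t ∂νT) - (∫ w, f w ∂μ) * ∫ s, s ∂νS ≤ 0 := by
    have e1 : n * ((∫ w, f w ∂μ) * ∫ t, t ∂νT) - (∫ w, f w ∂μ) * ∫ s, s ∂νS =
        (∫ w, f w ∂μ) * (n * ∫ t, t ∂νT - ∫ s, s ∂νS) := by ring
    rw [e1]
    exact mul_nonpos_of_nonneg_of_nonpos hfn (by linarith)
  have e2 : n / K * (3 * ((∫ w, w (Fin.last n) ∂μ) * ∫ t, t ^ 2 ∂νT) +
      (∫ w, w (Fin.last n) ∂μ) * ∫ s, s ^ 2 ∂νS) =
      n / K * ((∫ w, w (Fin.last n) ∂μ) * (3 * ∫ t, t ^ 2 ∂νT + ∫ s, s ^ 2 ∂νS)) := by ring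
  rw [e2] at hmain
  linarith

lemma Cv.Th (H : Fam n νS νT μ β με) (hR : 0 < R) :
    Cv νS νT μ β με (Th K R) := by
  have a1 := Cv.s H
  have a2 := Cv.st H
  have a3 := Cv.mm H
  have a4 : Cv νS νT μ β με (fun p => max (Work.MP_1ece5f_pr.mm p - R ^ 2 / 8) 0) := by
    apply a3.dom H (by have := continuous_mm (n := n); fun_prop)
    intro p hp
    rw [abs_of_nonneg (le_max_right _ _)]
    apply max_le _ (mm_nonneg hp)
    have : 0 ≤ R ^ 2 / 8 := by positivity
    linarith
  have a5 : Cv νS νT μ β με (fun p => max (p.1.2 - R / 2) 0) := by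
    apply a1.dom H (by fun_prop)
    intro p hp
    rw [abs_of_nonneg (le_max_right _ _)]
    apply max_le _ hp.2.1
    linarith
  exact (((a1.mul (4 * K ^ 2 / R)).add (a4.mul 4))).add
    (((a5.mul (n * K)).add (a1.mul (4 * n * K ^ 2 / R))).add (a2.mul (4 * n * K / R)))

lemma tail_tendsto_real {Ω : Type*} [MeasurableSpace Ω] {ν : Measure Ω} {f : Ω → ℝ}
    (hf : Integrable f ν) :
    Tendsto (fun R : ℝ => ∫ s, max (f s - R) 0 ∂ν) atTop (𝓝 0) := by
  suffices key : Tendsto (fun R : ℝ => ∫ s, max (f s - R) 0 ∂ν) atTop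
      (𝓝 (∫ _ : Ω, (0 : ℝ) ∂ν)) by simpa using key
  apply tendsto_integral_filter_of_dominated_convergence (fun s => |f s|)
  · filter_upwards with R
    exact ((hf.aestronglyMeasurable.aemeasurable.sub_const _).max
      aemeasurable_const).aestronglyMeasurable
  · filter_upwards [eventually_ge_atTop 0] with R hR
    filter_upwards with s
    rw [Real.norm_eq_abs, abs_of_nonneg (le_max_right _ _)]
    exact max_le (by linarith [le_abs_self (f s)]) (abs_nonneg _)
  · exact hf.abs
  · filter_upwards with s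
    apply tendsto_const_nhds.congr'
    filter_upwards [eventually_ge_atTop (f s)] with M hM
    rw [max_eq_right (by linarith)]

lemma Th_tendsto (H : Sys n νS νT μ) (K : ℝ) :
    Tendsto (fun R : ℝ => ∫ p, Th K R p ∂(jt μ νS νT)) atTop (𝓝 0) := by
  have := H.pmu; have := H.pS; have := H.pT; have := H.pj
  have b1 := (HIg (μ := μ) (νT := νT) H.S1)
  have b2 := (HIgh (μ := μ) H.S1 H.T1)
  have b3 := mm_integrable H
  have i1 : ∀ R : ℝ, Integrable (fun p : Om n => max (mm p - R ^ 2 / 8) 0) (jt μ νS νT) :=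
    fun R => (b3.sub (integrable_const _)).sup (integrable_const (0 : ℝ))
  have i2 : ∀ R : ℝ, Integrable (fun p : Om n => max (p.1.2 - R / 2) 0) (jt μ νS νT) :=
    fun R => (b1.1.sub (integrable_const _)).sup (integrable_const (0 : ℝ))
  have e : ∀ R : ℝ, ∫ p, Th K R p ∂(jt μ νS νT) =
      4 * K ^ 2 / R * (∫ s, s ∂νS) + 4 * ∫ p, max (mm p - R ^ 2 / 8) 0 ∂(jt μ νS νT) +
      (n * K * ∫ p : Om n, max (p.1.2 - R / 2) 0 ∂(jt μ νS νT) +
        4 * n * K ^ 2 / R * (∫ s, s ∂νS) +
        4 * n * K / R * ((∫ s, s ∂νS) * ∫ t, t ∂νT)) := by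
    intro R
    have c := (((b1.mul (4 * K ^ 2 / R)).add ((HI.of (i1 R)).mul 4))).add
      ((((HI.of (i2 R)).mul (n * K)).add (b1.mul (4 * n * K ^ 2 / R))).add
        (b2.mul (4 * n * K / R)))
    exact c.2
  simp_rw [e]
  have t1 : Tendsto (fun R : ℝ => 4 * K ^ 2 / R) atTop (𝓝 0) :=
    tendsto_const_nhds.div_atTop tendsto_id
  have t2 : Tendsto (fun R : ℝ => 4 * n * K ^ 2 / R) atTop (𝓝 0) :=
    tendsto_const_nhds.div_atTop tendsto_id
  have t3 : Tendsto (fun R : ℝ => 4 * n * K / R) atTop (𝓝 0) :=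
    tendsto_const_nhds.div_atTop tendsto_id
  have g1 : Tendsto (fun R : ℝ => R ^ 2 / 8) atTop atTop :=
    (tendsto_pow_atTop (two_ne_zero)).atTop_div_const (by norm_num)
  have g2 : Tendsto (fun R : ℝ => R / 2) atTop atTop :=
    tendsto_id.atTop_div_const (by norm_num)
  have t4 := (tail_tendsto_real b3).comp g1
  have t5 := (tail_tendsto_real b1.1).comp g2
  have := ((t1.mul_const (∫ s, s ∂νS)).add (t4.const_mul 4)).add
    (((t5.const_mul (n * K)).add (t2.mul_const (∫ s, s ∂νS))).add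
      (t3.mul_const ((∫ s, s ∂νS) * ∫ t, t ∂νT)))
  simpa using this

lemma Cv.wl_lowI (H : Fam n νS νT μ β με) (hO : n * ∫ t, t ∂νT ≤ ∫ s, s ∂νS) :
    Cv νS νT μ β με (fun p => p.1.1 (Fin.last n) * lowI p.1.1 p.1.2 p.2) := by
  have := H.base.pS; have := H.base.pT; have := H.base.pmu
  apply Cv.approx H continuous_wl_lowI (wl_lowI_int H.base)
  · filter_upwards [H.ev] with ε hε
    exact wl_lowI_int hε.2.2.2
  · intro p hp
    exact mul_nonneg (hp.1.2 _) lowI_nonneg
  · intro η hη
    set C := CC n νS νT β with hC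
    have hCn : 0 ≤ C := H.CC_nonneg
    have hT2 : 0 ≤ ∫ t, t ^ 2 ∂νT := integral_nonneg (fun _ => sq_nonneg _)
    have hS2 : 0 ≤ ∫ s, s ^ 2 ∂νS := integral_nonneg (fun _ => sq_nonneg _)
    set D := C * (3 * ∫ t, t ^ 2 ∂νT + (1 + β ^ 2) * ∫ s, s ^ 2 ∂νS) with hD
    have hDn : 0 ≤ D := by positivity
    set K : ℝ := 3 * (n * D) / η + 1 with hKdef
    have hK : 0 < K := by positivity
    have hK1 : n / K * D ≤ η / 3 := by
      have : n / K * D = n * D / K := by ring
      rw [this, div_le_iff₀ hK, hKdef]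
      have e1 : η / 3 * (3 * (n * D) / η + 1) = n * D + η / 3 := by
        field_simp
      rw [e1]
      linarith
    obtain ⟨R, hR1, hR2⟩ := (((Th_tendsto H.base K).eventually
      (gt_mem_nhds (show (0 : ℝ) < η / 3 by positivity))).and (eventually_gt_atTop 0)).exists
    refine ⟨fun p => min (max (p.1.1 (Fin.last n)) 0) R * lowI p.1.1 p.1.2 p.2, ?_, ?_, ?_⟩
    · have h1 := (Cv.h H (h := fun t => t) continuous_id H.base.T1).mul (R * n)
      apply h1.dom H (by have := continuous_lowI (n := n); fun_prop)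
      intro p hp
      have e1 : 0 ≤ min (max (p.1.1 (Fin.last n)) 0) R := le_min (le_max_right _ _) hR2.le
      have e2 : min (max (p.1.1 (Fin.last n)) 0) R ≤ R := min_le_right _ _
      have e3 := lowI_nonneg (w := p.1.1) (s := p.1.2) (t := p.2)
      have e4 := lowI_le hp.1.1 hp.1.2 hp.2.1 hp.2.2
      rw [abs_of_nonneg (mul_nonneg e1 e3)]
      calc min (max (p.1.1 (Fin.last n)) 0) R * lowI p.1.1 p.1.2 p.2 ≤ R * (n * p.2) :=
            mul_le_mul e2 e4 e3 hR2.le
        _ = R * n * p.2 := by ring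
    · intro p hp
      apply mul_le_mul_of_nonneg_right _ lowI_nonneg
      rw [max_eq_left (hp.1.2 _)]
      exact min_le_left _ _
    · have hTh := (Cv.Th (K := K) H hR2).lim.eventually
        (gt_mem_nhds (show ∫ p, Work.MP_1ece5f_pr.Th K R p ∂(jt μ νS νT) < 2 * η / 3 by
          linarith))
      filter_upwards [hTh, H.ev] with ε h1 h2
      obtain ⟨hε0, hε1, _, hs⟩ := h2
      have hbound := hs.L3 (K := K) (R := R)
        (by rw [(perturb_id H.base.S1 hε0).2]; exact hO) hK hR2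
      rw [(perturb_sq H.base.S2 hε0).2] at hbound
      have hCε := last_le_tot_int hs (H.tot_le hε0 hε1) (Fin.last n)
      have hw0 : 0 ≤ ∫ w, w (Fin.last n) ∂(με ε) := by
        apply integral_nonneg_of_ae
        filter_upwards [hs.sorted] with w hw
        exact hw.2 _
      have hb2 : n / K * ((∫ w, w (Fin.last n) ∂(με ε)) *
          (3 * ∫ t, t ^ 2 ∂νT + (1 + β ^ 2) * ∫ s, s ^ 2 ∂νS)) ≤ n / K * D := by
        apply mul_le_mul_of_nonneg_left _ (by positivity)
        exact mul_le_mul_of_nonneg_right hCε (by positivity)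
      have hpj := hs.pj
      have j1 : Integrable (fun p : Om n => max (p.1.1 (Fin.last n) - R) 0 *
          lowI p.1.1 p.1.2 p.2) (je νS νT β με ε) := by
        apply hs.int_of_le (by have := continuous_lowI (n := n); fun_prop) (wl_lowI_int hs)
        intro p hp
        have e1 := hp.1.2 (Fin.last n)
        have e2 := lowI_nonneg (w := p.1.1) (s := p.1.2) (t := p.2)
        have e3 : max (p.1.1 (Fin.last n) - R) 0 ≤ p.1.1 (Fin.last n) := max_le (by linarith) e1
        rw [abs_of_nonneg (mul_nonneg (le_max_right _ _) e2)]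
        exact mul_le_mul_of_nonneg_right e3 e2
      have j2 : Integrable (fun p : Om n => min (max (p.1.1 (Fin.last n)) 0) R *
          lowI p.1.1 p.1.2 p.2) (je νS νT β με ε) := by
        apply hs.int_of_le (by have := continuous_lowI (n := n); fun_prop) (wl_lowI_int hs)
        intro p hp
        have e1 := hp.1.2 (Fin.last n)
        have e2 := lowI_nonneg (w := p.1.1) (s := p.1.2) (t := p.2)
        have e3 : 0 ≤ min (max (p.1.1 (Fin.last n)) 0) R := le_min (le_max_right _ _) hR2.le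
        rw [abs_of_nonneg (mul_nonneg e3 e2)]
        apply mul_le_mul_of_nonneg_right _ e2
        rw [max_eq_left e1]
        exact min_le_left _ _
      have hsplit : ∫ p, p.1.1 (Fin.last n) * lowI p.1.1 p.1.2 p.2 ∂(je νS νT β με ε) =
          ∫ p, min (max (p.1.1 (Fin.last n)) 0) R * lowI p.1.1 p.1.2 p.2 ∂(je νS νT β με ε) +
          ∫ p, max (p.1.1 (Fin.last n) - R) 0 * lowI p.1.1 p.1.2 p.2 ∂(je νS νT β με ε) := by
        rw [← integral_add j2 j1]
        apply integral_congr_ae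
        have hadm : ∀ᵐ p ∂(je νS νT β με ε), Adm p := hs.ae_adm
        filter_upwards [hadm] with p hp
        have e1 := hp.1.2 (Fin.last n)
        rw [max_eq_left e1, max_sub_zero, ← add_mul]
        congr 1
        have := min_add_max (p.1.1 (Fin.last n)) R
        linarith
      rw [hsplit]
      have hb3 : ∫ p, max (p.1.1 (Fin.last n) - R) 0 * lowI p.1.1 p.1.2 p.2 ∂(je νS νT β με ε)
          ≤ n / K * ((∫ w, w (Fin.last n) ∂(με ε)) *
          (3 * ∫ t, t ^ 2 ∂νT + (1 + β ^ 2) * ∫ s, s ^ 2 ∂νS)) +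
          ∫ p, Work.MP_1ece5f_pr.Th K R p ∂(je νS νT β με ε) := hbound
      linarith

end

end Pool.Agent.Work.MP_1ece5f_pr
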