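import Pool.Agent.Work.MP_1ece5f_pr.CoupleEx

open MeasureTheory Filter Topology
open scoped ENNReal

namespace Pool.Agent.Work.MP_1ece5f_pr

set_option maxHeartbeats 400000

attribute [local irreducible] kwStep

/-- mixture with weights `1/(1+ε²)` and `ε²/(1+ε²)` of two images -/
noncomputable def mix {X : Type*} [MeasurableSpace X] (ν : Measure ℝ) (f g : ℝ → X) (ε : ℝ) :
    Measure X :=
  ENNReal.ofReal (1 / (1 + ε ^ 2)) • ν.map f + ENNReal.ofReal (ε ^ 2 / (1 + ε ^ 2)) • ν.map g

lemma perturb_eq (ν : Measure ℝ) (β ε : ℝ) :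
    perturb ν β ε = mix ν (fun s => s * (1 - β * ε)) (fun s => s * (1 + β / ε)) ε := rfl

lemma one_add_sq_pos (ε : ℝ) : 0 < 1 + ε ^ 2 := by positivity

lemma weights_add (ε : ℝ) :
    ENNReal.ofReal (1 / (1 + ε ^ 2)) + ENNReal.ofReal (ε ^ 2 / (1 + ε ^ 2)) = 1 := by
  have h := one_add_sq_pos ε
  rw [← ENNReal.ofReal_add (by positivity) (by positivity), ← add_div, div_self h.ne',
    ENNReal.ofReal_one]

section mix
variable {X : Type*} [MeasurableSpace X] {ν : Measure ℝ} {f g : ℝ → X} {ε : ℝ}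

lemma mix_prob [IsProbabilityMeasure ν] (hf : Measurable f) (hg : Measurable g) :
    IsProbabilityMeasure (mix ν f g ε) := by
  constructor
  unfold mix
  rw [Measure.add_apply, Measure.smul_apply, Measure.smul_apply,
    Measure.map_apply hf MeasurableSet.univ, Measure.map_apply hg MeasurableSet.univ]
  simp only [Set.preimage_univ, measure_univ, smul_eq_mul, mul_one]
  exact weights_add ε

lemma mix_map {Y : Type*} [MeasurableSpace Y] {h : X → Y} (hh : Measurable h)
    (hf : Measurable f) (hg : Measurable g) :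
    (mix ν f g ε).map h = mix ν (h ∘ f) (h ∘ g) ε := by
  unfold mix
  rw [Measure.map_add _ _ hh, Measure.map_smul, Measure.map_smul, Measure.map_map hh hf,
    Measure.map_map hh hg]

lemma mix_self : mix ν f f ε = ν.map f := by
  unfold mix
  rw [← add_smul, weights_add, one_smul]

lemma HI_mix {F : X → ℝ} {a b : ℝ} (hF : Measurable F) (hf : Measurable f) (hg : Measurable g)
    (h1 : HI ν (fun s => F (f s)) a) (h2 : HI ν (fun s => F (g s)) b) :
    HI (mix ν f g ε) F (1 / (1 + ε ^ 2) * a + ε ^ 2 / (1 + ε ^ 2) * b) := by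
  have i1 : Integrable F (ν.map f) :=
    (integrable_map_measure hF.aestronglyMeasurable hf.aemeasurable).mpr h1.1
  have i2 : Integrable F (ν.map g) :=
    (integrable_map_measure hF.aestronglyMeasurable hg.aemeasurable).mpr h2.1
  have j1 := i1.smul_measure (c := ENNReal.ofReal (1 / (1 + ε ^ 2))) ENNReal.ofReal_ne_top
  have j2 := i2.smul_measure (c := ENNReal.ofReal (ε ^ 2 / (1 + ε ^ 2))) ENNReal.ofReal_ne_top
  refine ⟨j1.add_measure j2, ?_⟩
  unfold mix
  rw [integral_add_measure j1 j2, integral_smul_measure, integral_smul_measure,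
    integral_map hf.aemeasurable hF.aestronglyMeasurable,
    integral_map hg.aemeasurable hF.aestronglyMeasurable, h1.2, h2.2,
    ENNReal.toReal_ofReal (by positivity), ENNReal.toReal_ofReal (by positivity)]
  simp only [smul_eq_mul]

lemma lintegral_mix {F : X → ℝ≥0∞} (hF : Measurable F) (hf : Measurable f)
    (hg : Measurable g) :
    ∫⁻ x, F x ∂(mix ν f g ε) = ENNReal.ofReal (1 / (1 + ε ^ 2)) * ∫⁻ s, F (f s) ∂ν +
      ENNReal.ofReal (ε ^ 2 / (1 + ε ^ 2)) * ∫⁻ s, F (g s) ∂ν := by
  unfold mix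
  rw [lintegral_add_measure, lintegral_smul_measure, lintegral_smul_measure,
    lintegral_map hF hf, lintegral_map hF hg]
  rfl

lemma ae_mix {p : X → Prop} (hp : MeasurableSet {x | p x}) (hf : Measurable f)
    (hg : Measurable g) (h1 : ∀ᵐ s ∂ν, p (f s)) (h2 : ∀ᵐ s ∂ν, p (g s)) :
    ∀ᵐ x ∂(mix ν f g ε), p x := by
  unfold mix
  rw [ae_add_measure_iff]
  constructor
  · exact Measure.ae_smul_measure ((ae_map_iff hf.aemeasurable hp).mpr h1) _
  · exact Measure.ae_smul_measure ((ae_map_iff hg.aemeasurable hp).mpr h2) _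

end mix

/-- the family of perturbed systems -/
structure Fam (n : ℕ) (νS νT : Measure ℝ) (μ : Measure (Fin (n + 1) → ℝ)) (β : ℝ)
    (με : ℝ → Measure (Fin (n + 1) → ℝ)) : Prop where
  base : Sys n νS νT μ
  hES : 0 < ∫ s, s ∂νS
  hβ : 0 < β
  st : ∀ ε, 0 < ε → ε < 1 / β → IsStationary (perturb νS β ε) νT (με ε)

section
variable {n : ℕ} {νS νT : Measure ℝ} {μ : Measure (Fin (n + 1) → ℝ)} {β ε : ℝ}
  {με : ℝ → Measure (Fin (n + 1) → ℝ)}

lemma perturb_id (h1 : Integrable (fun s => s) νS) (hε : 0 < ε) :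
    HI (perturb νS β ε) (fun s => s) (∫ s, s ∂νS) := by
  rw [perturb_eq]
  have e1 := (HI.of h1).mul (1 - β * ε)
  have e2 := (HI.of h1).mul (1 + β / ε)
  have e3 := HI_mix (ε := ε) (F := fun s => s) (f := fun s => s * (1 - β * ε))
    (g := fun s => s * (1 + β / ε)) measurable_id (by fun_prop) (by fun_prop)
    (e1.congr (ae_of_all _ fun s => by ring) rfl) (e2.congr (ae_of_all _ fun s => by ring) rfl)
  apply e3.congr (ae_of_all _ fun s => rfl)
  have := one_add_sq_pos ε
  field_simp
  ring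

lemma perturb_sq (h2 : Integrable (fun s => s ^ 2) νS) (hε : 0 < ε) :
    HI (perturb νS β ε) (fun s => s ^ 2) ((1 + β ^ 2) * ∫ s, s ^ 2 ∂νS) := by
  rw [perturb_eq]
  have e1 := (HI.of h2).mul ((1 - β * ε) ^ 2)
  have e2 := (HI.of h2).mul ((1 + β / ε) ^ 2)
  have e3 := HI_mix (ε := ε) (F := fun s => s ^ 2) (f := fun s => s * (1 - β * ε))
    (g := fun s => s * (1 + β / ε)) (by fun_prop) (by fun_prop) (by fun_prop)
    (e1.congr (ae_of_all _ fun s => by ring) rfl) (e2.congr (ae_of_all _ fun s => by ring) rfl)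
  apply e3.congr (ae_of_all _ fun s => rfl)
  have := one_add_sq_pos ε
  field_simp
  ring

lemma lt_one_div_iff (hβ : 0 < β) (hε2 : ε < 1 / β) : β * ε < 1 := by
  rw [lt_div_iff₀ hβ] at hε2
  linarith

lemma Fam.sys (H : Fam n νS νT μ β με) (hε : 0 < ε) (hε2 : ε < 1 / β) :
    Sys n (perturb νS β ε) νT (με ε) := by
  have := H.base.pS
  have hβ := H.hβ
  have hb := lt_one_div_iff hβ hε2
  refine ⟨?_, H.base.pT, ?_, H.base.T0, (perturb_sq H.base.S2 hε).1, H.base.T2, ?_,
    H.st ε hε hε2⟩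
  · rw [perturb_eq]
    exact mix_prob (by fun_prop) (by fun_prop)
  · rw [perturb_eq]
    apply ae_mix (measurableSet_le measurable_const measurable_id) (by fun_prop) (by fun_prop)
    · filter_upwards [H.base.S0] with s hs
      exact mul_nonneg hs (by linarith)
    · filter_upwards [H.base.S0] with s hs
      exact mul_nonneg hs (by positivity)
  · rw [(perturb_id H.base.S1 hε).2]
    exact H.base.lt

/-- joint law of (perturbed service, service) -/
noncomputable def kap (ν : Measure ℝ) (β ε : ℝ) : Measure (ℝ × ℝ) :=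
  mix ν (fun s => (s * (1 - β * ε), s)) (fun s => (s * (1 + β / ε), s)) ε

lemma kap_prob [IsProbabilityMeasure νS] : IsProbabilityMeasure (kap νS β ε) :=
  mix_prob (by fun_prop) (by fun_prop)

lemma kap_fst : (kap νS β ε).map Prod.fst = perturb νS β ε := by
  unfold kap
  rw [mix_map measurable_fst (by fun_prop) (by fun_prop), perturb_eq]
  rfl

lemma kap_snd : (kap νS β ε).map Prod.snd = νS := by
  unfold kap
  rw [mix_map measurable_snd (by fun_prop) (by fun_prop)]
  have h1 : (Prod.snd ∘ fun s : ℝ => (s * (1 - β * ε), s)) = id := rfl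
  have h2 : (Prod.snd ∘ fun s : ℝ => (s * (1 + β / ε), s)) = id := rfl
  rw [h1, h2, mix_self, Measure.map_id]

lemma disc_le (hS1 : Integrable (fun s => s) νS) (hS0 : ∀ᵐ s ∂νS, 0 ≤ s)
    [IsProbabilityMeasure νS] [IsProbabilityMeasure νT] (hβ : 0 < β) (hε : 0 < ε) :
    ∫⁻ u, disc u ∂((kap νS β ε).prod νT) ≤ ENNReal.ofReal (2 * β * ε * ∫ s, s ∂νS) := by
  have := kap_prob (νS := νS) (β := β) (ε := ε)
  have h1 : ∫⁻ u, disc u ∂((kap νS β ε).prod νT) =
      ∫⁻ v, ENNReal.ofReal |v.1 - v.2| ∂(kap νS β ε) := by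
    have h2 := lintegral_prod (μ := kap νS β ε) (ν := νT) (fun u : U => disc u)
      measurable_disc.aemeasurable
    rw [h2]
    apply lintegral_congr
    intro v
    simp [disc]
  have hES : 0 ≤ ∫ s, s ∂νS := integral_nonneg_of_ae hS0
  have hofr : ∫⁻ s, ENNReal.ofReal s ∂νS = ENNReal.ofReal (∫ s, s ∂νS) :=
    (ofReal_integral_eq_lintegral_ofReal hS1 hS0).symm
  have hms : Measurable (fun s : ℝ => ENNReal.ofReal s) := ENNReal.measurable_ofReal
  have e1 : ∫⁻ s, ENNReal.ofReal |s * (1 - β * ε) - s| ∂νS =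
      ENNReal.ofReal (β * ε * ∫ s, s ∂νS) := by
    rw [ENNReal.ofReal_mul (by positivity), ← hofr, ← lintegral_const_mul _ hms]
    apply lintegral_congr_ae
    filter_upwards [hS0] with s hs
    rw [← ENNReal.ofReal_mul (by positivity)]
    congr 1
    have : s * (1 - β * ε) - s = -(β * ε * s) := by ring
    rw [this, abs_neg, abs_of_nonneg (by positivity)]
  have e2 : ∫⁻ s, ENNReal.ofReal |s * (1 + β / ε) - s| ∂νS =
      ENNReal.ofReal (β / ε * ∫ s, s ∂νS) := by
    rw [ENNReal.ofReal_mul (by positivity), ← hofr, ← lintegral_const_mul _ hms]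
    apply lintegral_congr_ae
    filter_upwards [hS0] with s hs
    rw [← ENNReal.ofReal_mul (by positivity)]
    congr 1
    have : s * (1 + β / ε) - s = β / ε * s := by ring
    rw [this, abs_of_nonneg (by positivity)]
  rw [h1]
  unfold kap
  rw [lintegral_mix (by fun_prop) (by fun_prop) (by fun_prop)]
  simp only
  rw [e1, e2, ← ENNReal.ofReal_mul (by positivity), ← ENNReal.ofReal_mul (by positivity),
    ← ENNReal.ofReal_add (by positivity) (by positivity)]
  apply ENNReal.ofReal_le_ofReal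
  have h3 := one_add_sq_pos ε
  have h4 : 1 / (1 + ε ^ 2) * (β * ε * ∫ s, s ∂νS) +
      ε ^ 2 / (1 + ε ^ 2) * (β / ε * ∫ s, s ∂νS) =
      (2 * β * ε * ∫ s, s ∂νS) / (1 + ε ^ 2) := by
    field_simp
    ring
  rw [h4]
  apply div_le_self (by positivity)
  nlinarith [sq_nonneg ε]

/-- good inputs -/
def GG (β ε s0 t0 : ℝ) : Set U :=
  {v : ℝ × ℝ | (0 ≤ v.1 ∧ 0 ≤ v.2) ∧ v.2 ≤ s0 ∧ |v.1 - v.2| ≤ β * ε * s0} ×ˢ {t : ℝ | t0 ≤ t}

lemma GG_meas (β ε s0 t0 : ℝ) : MeasurableSet (GG β ε s0 t0) := by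
  unfold GG
  apply MeasurableSet.prod
  · apply MeasurableSet.inter
    · exact (measurableSet_le measurable_const measurable_fst).inter
        (measurableSet_le measurable_const measurable_snd)
    · have hm : Measurable (fun v : ℝ × ℝ => |v.1 - v.2|) :=
        (measurable_fst.sub measurable_snd).abs
      exact (measurableSet_le measurable_snd measurable_const).inter
        (measurableSet_le hm measurable_const)
  · exact measurableSet_le measurable_const measurable_id

lemma GG_le (hS0 : ∀ᵐ s ∂νS, 0 ≤ s) [IsProbabilityMeasure νS] [IsProbabilityMeasure νT]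
    (hβ : 0 < β) (hε : 0 < ε) (hε1 : ε ≤ 1) (hε2 : ε < 1 / β) (s0 t0 : ℝ) :
    ENNReal.ofReal (1 / 2) * (νS {s | s ≤ s0} * νT {t | t0 ≤ t}) ≤
      ((kap νS β ε).prod νT) (GG β ε s0 t0) := by
  have := kap_prob (νS := νS) (β := β) (ε := ε)
  have hb := lt_one_div_iff hβ hε2
  unfold GG
  rw [Measure.prod_prod, ← mul_assoc]
  gcongr
  set A : Set (ℝ × ℝ) := {v : ℝ × ℝ | (0 ≤ v.1 ∧ 0 ≤ v.2) ∧ v.2 ≤ s0 ∧
    |v.1 - v.2| ≤ β * ε * s0} with hA
  have hAm : MeasurableSet A := by
    apply MeasurableSet.inter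
    · exact (measurableSet_le measurable_const measurable_fst).inter
        (measurableSet_le measurable_const measurable_snd)
    · have hm : Measurable (fun v : ℝ × ℝ => |v.1 - v.2|) :=
        (measurable_fst.sub measurable_snd).abs
      exact (measurableSet_le measurable_snd measurable_const).inter
        (measurableSet_le hm measurable_const)
  have hfm : Measurable (fun s : ℝ => (s * (1 - β * ε), s)) := by fun_prop
  unfold kap mix
  rw [Measure.add_apply, Measure.smul_apply, smul_eq_mul]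
  refine le_trans ?_ le_self_add
  gcongr ?_ * ?_
  · apply ENNReal.ofReal_le_ofReal
    apply one_div_le_one_div_of_le (one_add_sq_pos ε)
    nlinarith
  · rw [Measure.map_apply hfm hAm]
    apply measure_mono_ae
    filter_upwards [hS0] with s hs hs2
    have hs2' : s ≤ s0 := hs2
    refine ⟨⟨mul_nonneg hs (by linarith), hs⟩, hs2', ?_⟩
    simp only
    have : s * (1 - β * ε) - s = -(β * ε * s) := by ring
    rw [this, abs_neg, abs_of_nonneg (by positivity)]
    gcongr

end

end Pool.Agent.Work.MP_1ece5f_pr
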