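import Pool.Agent.Work.MP_1ece5f_pr.Defs

open MeasureTheory Filter Topology

namespace Pool.Agent.Work.MP_1ece5f_pr

/-- number of components exceeding `r` -/
noncomputable def cnt {k : ℕ} (v : Fin k → ℝ) (r : ℝ) : ℕ :=
  (Finset.univ.filter (fun i => r < v i)).card

lemma rearr_mono {k : ℕ} (v : Fin k → ℝ) : Monotone (rearr v) := Tuple.monotone_sort v

lemma sum_rearr {k : ℕ} (v : Fin k → ℝ) (φ : ℝ → ℝ) :
    ∑ i, φ (rearr v i) = ∑ i, φ (v i) :=
  Equiv.sum_comp (Tuple.sort v) (fun i => φ (v i))

lemma cnt_rearr {k : ℕ} (v : Fin k → ℝ) (r : ℝ) : cnt (rearr v) r = cnt v r := by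
  unfold cnt
  rw [Finset.card_filter, Finset.card_filter]
  exact Equiv.sum_comp (Tuple.sort v) (fun i => if r < v i then 1 else 0)

lemma cnt_mono {k : ℕ} {a b : Fin k → ℝ} (h : a ≤ b) (r : ℝ) : cnt a r ≤ cnt b r := by
  unfold cnt
  apply Finset.card_le_card
  intro i hi
  simp only [Finset.mem_filter, Finset.mem_univ, true_and] at hi ⊢
  exact hi.trans_le (h i)

lemma lt_iff_cnt {k : ℕ} {w : Fin k → ℝ} (hw : Monotone w) (r : ℝ) (i : Fin k) :
    r < w i ↔ k - (i : ℕ) ≤ cnt w r := by
  constructor
  · intro h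
    have hsub : Finset.Ici i ⊆ Finset.univ.filter (fun j => r < w j) := by
      intro j hj
      simp only [Finset.mem_Ici] at hj
      simp only [Finset.mem_filter, Finset.mem_univ, true_and]
      exact h.trans_le (hw hj)
    have := Finset.card_le_card hsub
    rw [Fin.card_Ici] at this
    exact this
  · intro h
    by_contra hcon
    have hsub : Finset.univ.filter (fun j => r < w j) ⊆ Finset.Ioi i := by
      intro j hj
      simp only [Finset.mem_filter, Finset.mem_univ, true_and] at hj
      simp only [Finset.mem_Ioi]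
      by_contra hji
      exact hcon (hj.trans_le (hw (not_lt.mp hji)))
    have h2 := Finset.card_le_card hsub
    rw [Fin.card_Ioi] at h2
    have h3 := i.isLt
    unfold cnt at h
    omega

lemma rearr_le_rearr {k : ℕ} {a b : Fin k → ℝ} (h : a ≤ b) : rearr a ≤ rearr b := by
  intro i
  apply le_of_forall_lt
  intro r hr
  rw [lt_iff_cnt (rearr_mono a), cnt_rearr] at hr
  rw [lt_iff_cnt (rearr_mono b), cnt_rearr]
  exact hr.trans (cnt_mono h r)

lemma eq_of_cnt {k : ℕ} {x y : Fin k → ℝ} (hx : Monotone x) (hy : Monotone y)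
    (hx0 : ∀ i, 0 ≤ x i) (hy0 : ∀ i, 0 ≤ y i)
    (h : ∀ r, 0 ≤ r → cnt x r = cnt y r) : x = y := by
  funext i
  have key : ∀ r, 0 ≤ r → (r < x i ↔ r < y i) := by
    intro r hr
    rw [lt_iff_cnt hx, lt_iff_cnt hy, h r hr]
  rcases lt_trichotomy (x i) (y i) with h1 | h1 | h1
  · exact absurd ((key (x i) (hx0 i)).mpr h1) (lt_irrefl _)
  · exact h1
  · exact absurd ((key (y i) (hy0 i)).mp h1) (lt_irrefl _)

lemma rearr_add_const {k : ℕ} (a : Fin k → ℝ) (c : ℝ) :
    rearr (fun i => a i + c) = fun i => rearr a i + c := by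
  have h1 : Monotone (fun i => rearr a i + c) := by
    intro i j hij
    have := rearr_mono a hij
    simpa using this
  funext i
  have key : ∀ r, (r < rearr (fun i => a i + c) i ↔ r < rearr a i + c) := by
    intro r
    rw [lt_iff_cnt (rearr_mono _), cnt_rearr]
    have h2 : r < rearr a i + c ↔ r - c < rearr a i := by constructor <;> intro h <;> linarith
    rw [h2, lt_iff_cnt (rearr_mono _), cnt_rearr]
    have h3 : cnt (fun i => a i + c) r = cnt a (r - c) := by
      unfold cnt
      congr 1
      apply Finset.filter_congr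
      intro j _
      constructor <;> intro h <;> linarith
    rw [h3]
  rcases lt_trichotomy (rearr (fun i => a i + c) i) (rearr a i + c) with h | h | h
  · exact absurd ((key _).mpr h) (lt_irrefl _)
  · exact h
  · exact absurd ((key _).mp h) (lt_irrefl _)

lemma dist_rearr_le {k : ℕ} (a b : Fin k → ℝ) : dist (rearr a) (rearr b) ≤ dist a b := by
  rw [dist_pi_le_iff dist_nonneg]
  intro i
  have h1 : a ≤ fun i => b i + dist a b := by
    intro j
    have := dist_le_pi_dist a b j
    rw [Real.dist_eq, abs_le] at this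
    simp only
    linarith [this.2]
  have h2 : b ≤ fun i => a i + dist a b := by
    intro j
    have := dist_le_pi_dist a b j
    rw [Real.dist_eq, abs_le] at this
    simp only
    linarith [this.1]
  have h3 := rearr_le_rearr h1 i
  have h4 := rearr_le_rearr h2 i
  rw [rearr_add_const] at h3 h4
  simp only at h3 h4
  rw [Real.dist_eq, abs_le]
  constructor <;> linarith

lemma continuous_rearr {k : ℕ} : Continuous (rearr : (Fin k → ℝ) → (Fin k → ℝ)) := by
  have : LipschitzWith 1 (rearr : (Fin k → ℝ) → (Fin k → ℝ)) := by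
    apply LipschitzWith.of_dist_le_mul
    intro a b
    simpa using dist_rearr_le a b
  exact this.continuous

/-- the last component of the rearrangement dominates every component -/
lemma le_rearr_last {n : ℕ} (v : Fin (n + 1) → ℝ) (i : Fin (n + 1)) :
    v i ≤ rearr v (Fin.last n) := by
  have h : v i = rearr v ((Tuple.sort v).symm i) := by simp [rearr]
  rw [h]
  exact rearr_mono v (Fin.le_last _)

lemma exists_eq_rearr {k : ℕ} (v : Fin k → ℝ) (i : Fin k) : ∃ j, rearr v i = v j :=
  ⟨Tuple.sort v i, rfl⟩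

end Pool.Agent.Work.MP_1ece5f_pr
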