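import Pool.Agent.Work.MP_1ece5f_pr.Step

open MeasureTheory Filter Topology

namespace Pool.Agent.Work.MP_1ece5f_pr

/-- integrable with integral `c` -/
def HI {Ω : Type*} [MeasurableSpace Ω] (γ : Measure Ω) (F : Ω → ℝ) (c : ℝ) : Prop :=
  Integrable F γ ∧ ∫ z, F z ∂γ = c

section HI
variable {Ω : Type*} [MeasurableSpace Ω] {γ : Measure Ω} {F G : Ω → ℝ} {a b : ℝ}

lemma HI.add (hF : HI γ F a) (hG : HI γ G b) : HI γ (fun z => F z + G z) (a + b) :=
  ⟨hF.1.add hG.1, by rw [integral_add hF.1 hG.1, hF.2, hG.2]⟩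

lemma HI.sub (hF : HI γ F a) (hG : HI γ G b) : HI γ (fun z => F z - G z) (a - b) :=
  ⟨hF.1.sub hG.1, by rw [integral_sub hF.1 hG.1, hF.2, hG.2]⟩

lemma HI.mul (hF : HI γ F a) (c : ℝ) : HI γ (fun z => c * F z) (c * a) :=
  ⟨hF.1.const_mul c, by rw [integral_const_mul, hF.2]⟩

lemma HI.congr (hF : HI γ F a) (h : ∀ᵐ z ∂γ, F z = G z) (hab : a = b) : HI γ G b :=
  ⟨hF.1.congr h, by rw [← integral_congr_ae h, hF.2, hab]⟩

lemma HI.of (h : Integrable F γ) : HI γ F (∫ z, F z ∂γ) := ⟨h, rfl⟩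

end HI

lemma clamp_lip (M a b : ℝ) :
    |max (-M) (min a M) - max (-M) (min b M)| ≤ |a - b| := by
  have h1 : |max (min a M) (-M) - max (min b M) (-M)| ≤ |min a M - min b M| :=
    abs_max_sub_max_le_abs _ _ _
  have h2 : |min a M - min b M| ≤ |a - b| := by
    have := abs_min_sub_min_le_max a M b M
    simpa using this
  rw [max_comm (-M), max_comm (-M)]
  exact h1.trans h2

lemma clamp_abs {M : ℝ} (hM : 0 ≤ M) (a : ℝ) : |max (-M) (min a M)| ≤ M := by
  rw [abs_le]
  exact ⟨le_max_left _ _, max_le (by linarith) (min_le_right _ _)⟩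

lemma integral_sub_eq_zero {Ω : Type*} [MeasurableSpace Ω] {γ : Measure Ω}
    [IsProbabilityMeasure γ] {X Y : Ω → ℝ} (hX : Measurable X) (hY : Measurable Y)
    (h : γ.map X = γ.map Y) (hint : Integrable (fun z => Y z - X z) γ) :
    ∫ z, (Y z - X z) ∂γ = 0 := by
  have hc : ∀ M : ℝ, Continuous (fun r : ℝ => max (-M) (min r M)) := fun M => by fun_prop
  have hi : ∀ (M : ℕ) (Z : Ω → ℝ), Measurable Z →
      Integrable (fun z => max (-(M : ℝ)) (min (Z z) M)) γ := by
    intro M Z hZ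
    apply Integrable.of_bound (C := (M : ℝ))
    · exact ((hc M).measurable.comp hZ).aestronglyMeasurable
    · filter_upwards with z
      exact clamp_abs (Nat.cast_nonneg M) _
  have h0 : ∀ M : ℕ, ∫ z, (max (-(M : ℝ)) (min (Y z) M) - max (-(M : ℝ)) (min (X z) M)) ∂γ
      = 0 := by
    intro M
    rw [integral_sub (hi M Y hY) (hi M X hX)]
    have e1 : ∫ z, max (-(M : ℝ)) (min (Y z) M) ∂γ =
        ∫ r, max (-(M : ℝ)) (min r M) ∂(γ.map Y) :=
      (integral_map hY.aemeasurable (hc M).aestronglyMeasurable).symm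
    have e2 : ∫ z, max (-(M : ℝ)) (min (X z) M) ∂γ =
        ∫ r, max (-(M : ℝ)) (min r M) ∂(γ.map X) :=
      (integral_map hX.aemeasurable (hc M).aestronglyMeasurable).symm
    rw [e1, e2, h, sub_self]
  have hlim : Tendsto (fun M : ℕ =>
      ∫ z, (max (-(M : ℝ)) (min (Y z) M) - max (-(M : ℝ)) (min (X z) M)) ∂γ) atTop
      (𝓝 (∫ z, (Y z - X z) ∂γ)) := by
    apply tendsto_integral_of_dominated_convergence (fun z => |Y z - X z|)
    · intro M
      exact ((hi M Y hY).sub (hi M X hX)).aestronglyMeasurable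
    · exact hint.abs
    · intro M
      filter_upwards with z
      exact clamp_lip _ _ _
    · filter_upwards with z
      apply tendsto_const_nhds.congr'
      obtain ⟨N, hN⟩ := exists_nat_gt (max |Y z| |X z|)
      filter_upwards [eventually_ge_atTop N] with M hM
      have hM' : (N : ℝ) ≤ M := by exact_mod_cast hM
      have hy : |Y z| ≤ M := by linarith [le_max_left |Y z| |X z|]
      have hx : |X z| ≤ M := by linarith [le_max_right |Y z| |X z|]
      rw [abs_le] at hy hx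
      rw [min_eq_left hy.2, min_eq_left hx.2, max_eq_right hy.1, max_eq_right hx.1]
  simp_rw [h0] at hlim
  exact (tendsto_nhds_unique hlim tendsto_const_nhds)

/-- state space of (workload, service, interarrival) -/
abbrev Om (n : ℕ) := ((Fin (n + 1) → ℝ) × ℝ) × ℝ

/-- joint law of workload, service time, interarrival time -/
noncomputable def jt {n : ℕ} (μ : Measure (Fin (n + 1) → ℝ)) (νS νT : Measure ℝ) :
    Measure (Om n) := (μ.prod νS).prod νT

/-- the standing assumptions -/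
structure Sys (n : ℕ) (νS νT : Measure ℝ) (μ : Measure (Fin (n + 1) → ℝ)) : Prop where
  pS : IsProbabilityMeasure νS
  pT : IsProbabilityMeasure νT
  S0 : ∀ᵐ s ∂νS, 0 ≤ s
  T0 : ∀ᵐ t ∂νT, 0 ≤ t
  S2 : Integrable (fun s => s ^ 2) νS
  T2 : Integrable (fun t => t ^ 2) νT
  lt : ∫ s, s ∂νS < (n + 1) * ∫ t, t ∂νT
  st : IsStationary νS νT μ

lemma integrable_id_of_sq {ν : Measure ℝ} [IsProbabilityMeasure ν]
    (h : Integrable (fun s => s ^ 2) ν) : Integrable (fun s => s) ν := by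
  apply (h.add (integrable_const (1 : ℝ))).mono' measurable_id.aestronglyMeasurable
  filter_upwards with s
  simp only [Pi.add_apply, Real.norm_eq_abs, id]
  rcases le_total |s| 1 with h | h
  · have := sq_nonneg s
    linarith
  · have : |s| ≤ |s| ^ 2 := by nlinarith
    rw [sq_abs] at this
    linarith

section
variable {n : ℕ} {νS νT : Measure ℝ} {μ : Measure (Fin (n + 1) → ℝ)}

lemma Sys.pmu (H : Sys n νS νT μ) : IsProbabilityMeasure μ := H.st.1

lemma Sys.pj (H : Sys n νS νT μ) : IsProbabilityMeasure (jt μ νS νT) := by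
  have := H.pmu; have := H.pS; have := H.pT
  unfold jt
  infer_instance

lemma Sys.S1 (H : Sys n νS νT μ) : Integrable (fun s => s) νS := by
  have := H.pS
  exact integrable_id_of_sq H.S2

lemma Sys.T1 (H : Sys n νS νT μ) : Integrable (fun s => s) νT := by
  have := H.pT
  exact integrable_id_of_sq H.T2

lemma Sys.sorted (H : Sys n νS νT μ) : ∀ᵐ w ∂μ, Monotone w ∧ ∀ i, 0 ≤ w i := by
  rw [← H.st.2]
  have hm : MeasurableSet {w : Fin (n + 1) → ℝ | Monotone w ∧ ∀ i, 0 ≤ w i} := by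
    have h1 : {w : Fin (n + 1) → ℝ | Monotone w ∧ ∀ i, 0 ≤ w i} =
        (⋂ i, ⋂ j, {w | i ≤ j → w i ≤ w j}) ∩ ⋂ i, {w | 0 ≤ w i} := by
      ext w
      simp [Monotone]
    rw [h1]
    apply MeasurableSet.inter
    · refine MeasurableSet.iInter fun i => MeasurableSet.iInter fun j => ?_
      by_cases hij : i ≤ j
      · simp only [hij, true_imp_iff]
        exact measurableSet_le (measurable_pi_apply i) (measurable_pi_apply j)
      · simp [hij]
    · refine MeasurableSet.iInter fun i => ?_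
      exact measurableSet_le measurable_const (measurable_pi_apply i)
  rw [ae_map_iff measurable_kwStep.aemeasurable hm]
  filter_upwards with p
  exact ⟨kwStep_mono _ _ _, kwStep_nonneg _ _ _⟩

lemma Sys.map_w (H : Sys n νS νT μ) : (jt μ νS νT).map (fun p => p.1.1) = μ := by
  have := H.pmu; have := H.pS; have := H.pT
  unfold jt
  have h1 : (fun p : Om n => p.1.1) = Prod.fst ∘ Prod.fst := rfl
  rw [h1, ← Measure.map_map measurable_fst measurable_fst, Measure.map_fst_prod,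
    measure_univ, one_smul, Measure.map_fst_prod, measure_univ, one_smul]

lemma Sys.ae_adm (H : Sys n νS νT μ) :
    ∀ᵐ p ∂(jt μ νS νT), (Monotone p.1.1 ∧ ∀ i, 0 ≤ p.1.1 i) ∧ 0 ≤ p.1.2 ∧ 0 ≤ p.2 := by
  have := H.pmu; have := H.pS; have := H.pT
  have h1 : ∀ᵐ q ∂(μ.prod νS), (Monotone q.1 ∧ ∀ i, 0 ≤ q.1 i) ∧ 0 ≤ q.2 := by
    have a1 := (Measure.quasiMeasurePreserving_fst (μ := μ) (ν := νS)).ae H.sorted
    have a2 := (Measure.quasiMeasurePreserving_snd (μ := μ) (ν := νS)).ae H.S0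
    filter_upwards [a1, a2] with q h1 h2
    exact ⟨h1, h2⟩
  have a1 := (Measure.quasiMeasurePreserving_fst (μ := μ.prod νS) (ν := νT)).ae h1
  have a2 := (Measure.quasiMeasurePreserving_snd (μ := μ.prod νS) (ν := νT)).ae H.T0
  unfold jt
  filter_upwards [a1, a2] with q h1 h2
  exact ⟨h1.1, h1.2, h2⟩

lemma Sys.SI (H : Sys n νS νT μ) {V : (Fin (n + 1) → ℝ) → ℝ} (hV : Measurable V)
    (hint : Integrable (fun p : Om n => V (kwStep p.1.1 p.1.2 p.2) - V p.1.1) (jt μ νS νT)) :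
    ∫ p, (V (kwStep p.1.1 p.1.2 p.2) - V p.1.1) ∂(jt μ νS νT) = 0 := by
  have := H.pj
  have hm : Measurable (fun p : Om n => p.1.1) := measurable_fst.comp measurable_fst
  apply integral_sub_eq_zero (hV.comp hm) (hV.comp measurable_kwStep) _ hint
  rw [← Measure.map_map hV hm, ← Measure.map_map hV measurable_kwStep, H.map_w]
  have := H.st.2
  unfold jt
  rw [this]

lemma HI3 {f : (Fin (n + 1) → ℝ) → ℝ} {g h : ℝ → ℝ} [IsProbabilityMeasure μ]
    [IsProbabilityMeasure νS] [IsProbabilityMeasure νT] (hf : Integrable f μ)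
    (hg : Integrable g νS) (hh : Integrable h νT) :
    HI (jt μ νS νT) (fun p => f p.1.1 * g p.1.2 * h p.2)
      ((∫ w, f w ∂μ) * (∫ s, g s ∂νS) * ∫ t, h t ∂νT) := by
  refine ⟨(hf.mul_prod hg).mul_prod hh, ?_⟩
  unfold jt
  rw [integral_prod_mul (fun q : (Fin (n + 1) → ℝ) × ℝ => f q.1 * g q.2) h,
    integral_prod_mul f g]

lemma HIf {f : (Fin (n + 1) → ℝ) → ℝ} [IsProbabilityMeasure μ]
    [IsProbabilityMeasure νS] [IsProbabilityMeasure νT] (hf : Integrable f μ) :
    HI (jt μ νS νT) (fun p => f p.1.1) (∫ w, f w ∂μ) := by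
  have := HI3 (νS := νS) (νT := νT) hf (integrable_const (1 : ℝ)) (integrable_const (1 : ℝ))
  exact this.congr (by filter_upwards with p; simp) (by simp)

lemma HIg {g : ℝ → ℝ} [IsProbabilityMeasure μ]
    [IsProbabilityMeasure νS] [IsProbabilityMeasure νT] (hg : Integrable g νS) :
    HI (jt μ νS νT) (fun p => g p.1.2) (∫ s, g s ∂νS) := by
  have := HI3 (μ := μ) (νT := νT) (integrable_const (1 : ℝ)) hg (integrable_const (1 : ℝ))
  exact this.congr (by filter_upwards with p; simp) (by simp)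

lemma HIh {h : ℝ → ℝ} [IsProbabilityMeasure μ]
    [IsProbabilityMeasure νS] [IsProbabilityMeasure νT] (hh : Integrable h νT) :
    HI (jt μ νS νT) (fun p => h p.2) (∫ t, h t ∂νT) := by
  have := HI3 (μ := μ) (νS := νS) (integrable_const (1 : ℝ)) (integrable_const (1 : ℝ)) hh
  exact this.congr (by filter_upwards with p; simp) (by simp)

lemma HIfg {f : (Fin (n + 1) → ℝ) → ℝ} {g : ℝ → ℝ} [IsProbabilityMeasure μ]
    [IsProbabilityMeasure νS] [IsProbabilityMeasure νT] (hf : Integrable f μ)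
    (hg : Integrable g νS) :
    HI (jt μ νS νT) (fun p => f p.1.1 * g p.1.2) ((∫ w, f w ∂μ) * ∫ s, g s ∂νS) := by
  have := HI3 (νT := νT) hf hg (integrable_const (1 : ℝ))
  exact this.congr (by filter_upwards with p; simp) (by simp)

lemma HIfh {f : (Fin (n + 1) → ℝ) → ℝ} {h : ℝ → ℝ} [IsProbabilityMeasure μ]
    [IsProbabilityMeasure νS] [IsProbabilityMeasure νT] (hf : Integrable f μ)
    (hh : Integrable h νT) :
    HI (jt μ νS νT) (fun p => f p.1.1 * h p.2) ((∫ w, f w ∂μ) * ∫ s, h s ∂νT) := by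
  have := HI3 (νS := νS) hf (integrable_const (1 : ℝ)) hh
  exact this.congr (by filter_upwards with p; simp) (by simp)

lemma HIgh {g h : ℝ → ℝ} [IsProbabilityMeasure μ]
    [IsProbabilityMeasure νS] [IsProbabilityMeasure νT] (hg : Integrable g νS)
    (hh : Integrable h νT) :
    HI (jt μ νS νT) (fun p => g p.1.2 * h p.2) ((∫ w, g w ∂νS) * ∫ s, h s ∂νT) := by
  have := HI3 (μ := μ) (integrable_const (1 : ℝ)) hg hh
  exact this.congr (by filter_upwards with p; simp) (by simp)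

end

/-! ### The quadratic functional -/

/-- sum of the components -/
noncomputable def tot {n : ℕ} (w : Fin (n + 1) → ℝ) : ℝ := ∑ i, w i

/-- sum of the squares of the components -/
noncomputable def tot2 {n : ℕ} (w : Fin (n + 1) → ℝ) : ℝ := ∑ i, w i ^ 2

/-- sum of the squares of the idle times in one step -/
noncomputable def Q {n : ℕ} (w : Fin (n + 1) → ℝ) (s t : ℝ) : ℝ :=
  ∑ i, (max (t - post w s i) 0) ^ 2

lemma continuous_tot {n : ℕ} : Continuous (tot (n := n)) := by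
  unfold tot; fun_prop

lemma continuous_tot2 {n : ℕ} : Continuous (tot2 (n := n)) := by
  unfold tot2; fun_prop

lemma sum_post {n : ℕ} (w : Fin (n + 1) → ℝ) (s : ℝ) : ∑ i, post w s i = tot w + s := by
  unfold post tot
  rw [Fin.sum_univ_succ, Fin.sum_univ_succ]
  simp only [if_true, Fin.succ_ne_zero, if_false]
  ring

lemma sum_post_sq {n : ℕ} (w : Fin (n + 1) → ℝ) (s : ℝ) :
    ∑ i, post w s i ^ 2 = tot2 w + 2 * w 0 * s + s ^ 2 := by
  unfold post tot2
  rw [Fin.sum_univ_succ, Fin.sum_univ_succ]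
  simp only [if_true, Fin.succ_ne_zero, if_false]
  ring

lemma max_sub_sq (x t : ℝ) :
    (max (x - t) 0) ^ 2 = (x - t) ^ 2 - (max (t - x) 0) ^ 2 := by
  rcases le_total x t with h | h
  · rw [max_eq_right (by linarith), max_eq_left (by linarith)]; ring
  · rw [max_eq_left (by linarith), max_eq_right (by linarith)]; ring

lemma tot2_kwStep {n : ℕ} (w : Fin (n + 1) → ℝ) (s t : ℝ) :
    tot2 (kwStep w s t) - tot2 w =
      2 * (w 0 * s) + s ^ 2 - 2 * (tot w * t) - 2 * (s * t) + (n + 1) * t ^ 2 - Q w s t := by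
  have h1 : tot2 (kwStep w s t) = ∑ i, (max (post w s i - t) 0) ^ 2 :=
    sum_kwStep w s t (fun x => x ^ 2)
  have h2 : ∑ i, (max (post w s i - t) 0) ^ 2 =
      ∑ i, post w s i ^ 2 - 2 * t * ∑ i, post w s i + (n + 1) * t ^ 2 - Q w s t := by
    unfold Q
    rw [Finset.sum_congr rfl (fun i _ => max_sub_sq (post w s i) t)]
    rw [Finset.sum_sub_distrib, Finset.mul_sum]
    congr 1
    have : ((n : ℝ) + 1) * t ^ 2 = ∑ _i : Fin (n + 1), t ^ 2 := by simp
    rw [this, ← Finset.sum_sub_distrib, ← Finset.sum_add_distrib]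
    apply Finset.sum_congr rfl
    intro i _
    ring
  rw [h1, h2, sum_post, sum_post_sq]
  ring

lemma Q_nonneg {n : ℕ} (w : Fin (n + 1) → ℝ) (s t : ℝ) : 0 ≤ Q w s t :=
  Finset.sum_nonneg (fun _ _ => sq_nonneg _)

lemma post_nonneg {n : ℕ} {w : Fin (n + 1) → ℝ} (hw : ∀ i, 0 ≤ w i) {s : ℝ} (hs : 0 ≤ s)
    (i : Fin (n + 1)) : 0 ≤ post w s i := by
  unfold post
  have := hw i
  split_ifs <;> linarith

lemma Q_le {n : ℕ} {w : Fin (n + 1) → ℝ} (hw : ∀ i, 0 ≤ w i) {s t : ℝ} (hs : 0 ≤ s)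
    (ht : 0 ≤ t) : Q w s t ≤ (n + 1) * t ^ 2 := by
  unfold Q
  have : ((n : ℝ) + 1) * t ^ 2 = ∑ _i : Fin (n + 1), t ^ 2 := by simp
  rw [this]
  apply Finset.sum_le_sum
  intro i _
  have h := post_nonneg hw hs i
  have h1 : max (t - post w s i) 0 ≤ t := max_le (by linarith) ht
  have h2 : 0 ≤ max (t - post w s i) 0 := le_max_right _ _
  exact pow_le_pow_left₀ h2 h1 2

lemma tot_nonneg {n : ℕ} {w : Fin (n + 1) → ℝ} (hw : ∀ i, 0 ≤ w i) : 0 ≤ tot w :=
  Finset.sum_nonneg (fun i _ => hw i)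

lemma le_tot {n : ℕ} {w : Fin (n + 1) → ℝ} (hw : ∀ i, 0 ≤ w i) (i : Fin (n + 1)) :
    w i ≤ tot w :=
  Finset.single_le_sum (f := w) (fun i _ => hw i) (Finset.mem_univ i)

lemma zero_le_tot {n : ℕ} {w : Fin (n + 1) → ℝ} (hw : Monotone w) :
    (n + 1) * w 0 ≤ tot w := by
  unfold tot
  have : ((n : ℝ) + 1) * w 0 = ∑ _i : Fin (n + 1), w 0 := by simp
  rw [this]
  exact Finset.sum_le_sum (fun i _ => hw (Fin.zero_le i))

lemma tot_sq_le {n : ℕ} (w : Fin (n + 1) → ℝ) : tot w ^ 2 ≤ (n + 1) * tot2 w := by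
  unfold tot tot2
  have := sq_sum_le_card_mul_sum_sq (s := (Finset.univ : Finset (Fin (n + 1)))) (f := w)
  simpa using this

end Pool.Agent.Work.MP_1ece5f_pr
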