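import Pool.Agent.Work.MP_1ece5f_pr.Sort

open MeasureTheory Filter Topology

namespace Pool.Agent.Work.MP_1ece5f_pr

/-- workloads just after the job has been placed -/
noncomputable def post {n : ℕ} (w : Fin (n + 1) → ℝ) (s : ℝ) : Fin (n + 1) → ℝ :=
  fun i => if i = 0 then w i + s else w i

lemma kwStep_eq {n : ℕ} (w : Fin (n + 1) → ℝ) (s t : ℝ) :
    kwStep w s t = rearr (fun i => max (post w s i - t) 0) := rfl

lemma kwStep_mono {n : ℕ} (w : Fin (n + 1) → ℝ) (s t : ℝ) : Monotone (kwStep w s t) :=
  rearr_mono _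

lemma kwStep_nonneg {n : ℕ} (w : Fin (n + 1) → ℝ) (s t : ℝ) (i : Fin (n + 1)) :
    0 ≤ kwStep w s t i := by
  rw [kwStep_eq]
  obtain ⟨j, hj⟩ := exists_eq_rearr (fun i => max (post w s i - t) 0) i
  rw [hj]
  exact le_max_right _ _

lemma continuous_kwStep {n : ℕ} :
    Continuous (fun p : ((Fin (n + 1) → ℝ) × ℝ) × ℝ => kwStep p.1.1 p.1.2 p.2) := by
  have h : Continuous (fun p : ((Fin (n + 1) → ℝ) × ℝ) × ℝ =>
      (fun i => max ((if i = 0 then p.1.1 i + p.1.2 else p.1.1 i) - p.2) 0)) := by
    apply continuous_pi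
    intro i
    by_cases hi : i = 0
    · simp only [hi, if_true]
      fun_prop
    · simp only [hi, if_false]
      fun_prop
  exact continuous_rearr.comp h

lemma measurable_kwStep {n : ℕ} :
    Measurable (fun p : ((Fin (n + 1) → ℝ) × ℝ) × ℝ => kwStep p.1.1 p.1.2 p.2) :=
  continuous_kwStep.measurable

lemma kwStep_le_kwStep {n : ℕ} {w w' : Fin (n + 1) → ℝ} {s s' t t' : ℝ} (hw : w ≤ w')
    (hs : s ≤ s') (ht : t' ≤ t) : kwStep w s t ≤ kwStep w' s' t' := by
  apply rearr_le_rearr
  intro i
  have := hw i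
  simp only
  apply max_le_max _ le_rfl
  split_ifs <;> linarith

lemma dist_kwStep_le {n : ℕ} (w w' : Fin (n + 1) → ℝ) (s s' t : ℝ) :
    dist (kwStep w s t) (kwStep w' s' t) ≤ dist w w' + |s - s'| := by
  refine (dist_rearr_le _ _).trans ?_
  rw [dist_pi_le_iff (by positivity)]
  intro i
  have h1 := dist_le_pi_dist w w' i
  rw [Real.dist_eq] at h1 ⊢
  have h3 : ∀ a b : ℝ, |max a 0 - max b 0| ≤ |a - b| := fun a b => by
    have := abs_max_sub_max_le_abs a b 0
    simpa using this
  refine (h3 _ _).trans ?_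
  split_ifs with h
  · have : w i + s - t - (w' i + s' - t) = (w i - w' i) + (s - s') := by ring
    rw [this]
    exact (abs_add_le _ _).trans (by linarith)
  · have : w i - t - (w' i - t) = (w i - w' i) := by ring
    rw [this]
    have := abs_nonneg (s - s')
    linarith

lemma sum_kwStep {n : ℕ} (w : Fin (n + 1) → ℝ) (s t : ℝ) (φ : ℝ → ℝ) :
    ∑ i, φ (kwStep w s t i) = ∑ i, φ (max (post w s i - t) 0) :=
  sum_rearr _ φ

lemma cnt_kwStep {n : ℕ} (w : Fin (n + 1) → ℝ) (s t r : ℝ) (hr : 0 ≤ r) :
    cnt (kwStep w s t) r = cnt (post w s) (r + t) := by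
  rw [kwStep_eq, cnt_rearr]
  unfold cnt
  congr 1
  apply Finset.filter_congr
  intro j _
  constructor
  · intro h
    rcases lt_max_iff.mp h with h | h
    · linarith
    · linarith
  · intro h
    apply lt_max_iff.mpr
    left
    linarith

lemma cnt_post_zero {n : ℕ} (w : Fin (n + 1) → ℝ) (s r : ℝ) (hr : 0 ≤ r) (h0 : w 0 = 0) :
    cnt (post w s) r = cnt w r + (if r < s then 1 else 0) := by
  unfold cnt post
  rw [Finset.card_filter, Finset.card_filter, Fin.sum_univ_succ, Fin.sum_univ_succ]
  simp only [if_true, h0, zero_add]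
  have h1 : ∀ i : Fin n, (Fin.succ i = 0) = False := fun i => by simp [Fin.succ_ne_zero]
  simp only [h1, if_false]
  have h2 : ¬ (r < 0) := not_lt.mpr hr
  simp only [h2, if_false]
  ring

lemma cnt_post_le {n : ℕ} (w : Fin (n + 1) → ℝ) (s r : ℝ) :
    cnt (post w s) r ≤ cnt w r + 1 := by
  unfold cnt post
  rw [Finset.card_filter, Finset.card_filter, Fin.sum_univ_succ, Fin.sum_univ_succ]
  have h1 : ∀ i : Fin n, (Fin.succ i = 0) = False := fun i => by simp [Fin.succ_ne_zero]
  simp only [h1, if_false, if_true]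
  split_ifs <;> omega

lemma kwStep_last {n : ℕ} {w : Fin (n + 1) → ℝ} (hw : Monotone w) {s : ℝ} (hs : 0 ≤ s) (t : ℝ) :
    kwStep w s t (Fin.last n) = max (max (w (Fin.last n)) (w 0 + s) - t) 0 := by
  apply le_antisymm
  · rw [kwStep_eq]
    obtain ⟨j, hj⟩ := exists_eq_rearr (fun i => max (post w s i - t) 0) (Fin.last n)
    rw [hj]
    apply max_le_max _ le_rfl
    apply sub_le_sub_right
    unfold post
    split_ifs with h
    · rw [h]; exact le_max_right _ _
    · exact (hw (Fin.le_last j)).trans (le_max_left _ _)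
  · rw [kwStep_eq]
    have h0 := le_rearr_last (fun i => max (post w s i - t) 0) 0
    have hl := le_rearr_last (fun i => max (post w s i - t) 0) (Fin.last n)
    simp only [post, if_true] at h0 hl
    have hl' : max (w (Fin.last n) - t) 0 ≤
        rearr (fun i => max (post w s i - t) 0) (Fin.last n) := by
      refine le_trans ?_ hl
      apply max_le_max _ le_rfl
      apply sub_le_sub_right
      split_ifs <;> linarith
    rcases le_total (w (Fin.last n)) (w 0 + s) with h | h
    · rw [max_eq_right h]; exact h0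
    · rw [max_eq_left h]; exact hl'

/-- the part of the job that stays in the lower components -/
noncomputable def dl {n : ℕ} (w : Fin (n + 1) → ℝ) (s : ℝ) : ℝ := min s (w (Fin.last n) - w 0)

/-- lower components just after the job has been placed -/
noncomputable def low {n : ℕ} (w : Fin (n + 1) → ℝ) (s : ℝ) (i : Fin n) : ℝ :=
  if (i : ℕ) = 0 then w 0 + dl w s else w i.castSucc

lemma sum_low_kwStep {n : ℕ} {w : Fin (n + 1) → ℝ} (hw : Monotone w) {s : ℝ} (hs : 0 ≤ s)
    (t : ℝ) (φ : ℝ → ℝ) :
    ∑ i : Fin n, φ (kwStep w s t i.castSucc) = ∑ i : Fin n, φ (max (low w s i - t) 0) := by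
  cases n with
  | zero => simp
  | succ m =>
    have h1 := sum_kwStep w s t φ
    rw [Fin.sum_univ_castSucc, kwStep_last hw hs] at h1
    have h2 : ∑ i : Fin (m + 1 + 1), φ (max (post w s i - t) 0) =
        φ (max (w 0 + s - t) 0) + ∑ i : Fin m, φ (max (w i.succ.castSucc - t) 0) +
          φ (max (w (Fin.last (m + 1)) - t) 0) := by
      rw [Fin.sum_univ_castSucc, Fin.sum_univ_succ]
      have e1 : post w s (Fin.castSucc 0) = w 0 + s := by simp [post]
      have e2 : ∀ i : Fin m, post w s (i.succ.castSucc) = w i.succ.castSucc := by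
        intro i
        simp [post]
      have e3 : post w s (Fin.last (m + 1)) = w (Fin.last (m + 1)) := by
        simp [post]
      rw [e1, e3]
      simp only [e2]
    have h3 : ∑ i : Fin (m + 1), φ (max (low w s i - t) 0) =
        φ (max (w 0 + dl w s - t) 0) + ∑ i : Fin m, φ (max (w i.succ.castSucc - t) 0) := by
      rw [Fin.sum_univ_succ]
      have e1 : low w s (0 : Fin (m + 1)) = w 0 + dl w s := by simp [low]
      have e2 : ∀ i : Fin m, low w s (i.succ) = w i.succ.castSucc := by
        intro i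
        simp [low]
      rw [e1]
      simp only [e2]
    have h4 : φ (max (w 0 + s - t) 0) + φ (max (w (Fin.last (m + 1)) - t) 0) =
        φ (max (w 0 + dl w s - t) 0) +
          φ (max (max (w (Fin.last (m + 1))) (w 0 + s) - t) 0) := by
      unfold dl
      rcases le_total s (w (Fin.last (m + 1)) - w 0) with h | h
      · have h' : max (w (Fin.last (m + 1))) (w 0 + s) = w (Fin.last (m + 1)) :=
          max_eq_left (by linarith)
        rw [min_eq_left h, h']
      · have h' : max (w (Fin.last (m + 1))) (w 0 + s) = w 0 + s :=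
          max_eq_right (by linarith)
        rw [min_eq_right h, h']
        have : w 0 + (w (Fin.last (m + 1)) - w 0) = w (Fin.last (m + 1)) := by ring
        rw [this]
        ring
    rw [h3]
    rw [h2] at h1
    linarith

lemma dl_nonneg {n : ℕ} {w : Fin (n + 1) → ℝ} (hw : Monotone w) {s : ℝ} (hs : 0 ≤ s) :
    0 ≤ dl w s := by
  unfold dl
  have := hw (Fin.zero_le (Fin.last n))
  exact le_min hs (by linarith)

lemma dl_le {n : ℕ} (w : Fin (n + 1) → ℝ) (s : ℝ) : dl w s ≤ s := min_le_left _ _

lemma max_eq_dl {n : ℕ} (w : Fin (n + 1) → ℝ) (s : ℝ) :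
    max (w (Fin.last n)) (w 0 + s) = w (Fin.last n) + (s - dl w s) := by
  unfold dl
  rcases le_total s (w (Fin.last n) - w 0) with h | h
  · rw [min_eq_left h, max_eq_left (by linarith)]; ring
  · rw [min_eq_right h, max_eq_right (by linarith)]; ring

end Pool.Agent.Work.MP_1ece5f_pr
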