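import Pool.Agent.Work.MP_1ece5f_pr.Exist
import Pool.Agent.Work.MP_1ece5f_pr.Final

set_option maxHeartbeats 400000

open MeasureTheory Filter Topology

namespace Pool.Agent.Work.MP_1ece5f_pr

attribute [local irreducible] kwStep

variable {n : ℕ} {νS νT : Measure ℝ}

lemma perturb_prob [IsProbabilityMeasure νS] (β ε : ℝ) :
    IsProbabilityMeasure (perturb νS β ε) := by
  rw [perturb_eq]
  exact mix_prob (by fun_prop) (by fun_prop)

lemma perturb_nonneg (hS0 : ∀ᵐ s ∂νS, 0 ≤ s) {β ε : ℝ} (hβ : 0 < β) (hε : 0 < ε)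
    (hε2 : ε < 1 / β) : ∀ᵐ s ∂(perturb νS β ε), 0 ≤ s := by
  have hb := lt_one_div_iff hβ hε2
  rw [perturb_eq]
  apply ae_mix (measurableSet_le measurable_const measurable_id) (by fun_prop) (by fun_prop)
  · filter_upwards [hS0] with s hs
    exact mul_nonneg hs (by linarith)
  · filter_upwards [hS0] with s hs
    exact mul_nonneg hs (by positivity)

lemma exists_perturbed [IsProbabilityMeasure νS] [IsProbabilityMeasure νT]
    (hS0 : ∀ᵐ s ∂νS, 0 ≤ s) (hT0 : ∀ᵐ t ∂νT, 0 ≤ t)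
    (hS2 : Integrable (fun s => s ^ 2) νS) (hT2 : Integrable (fun t => t ^ 2) νT)
    (hlt : ∫ s, s ∂νS < (n + 1) * ∫ t, t ∂νT) {β ε : ℝ} (hβ : 0 < β) (hε : 0 < ε)
    (hε2 : ε < 1 / β) :
    ∃ μ : Measure (Fin (n + 1) → ℝ), IsStationary (perturb νS β ε) νT μ := by
  have := perturb_prob (νS := νS) β ε
  apply exists_stationary (perturb_nonneg hS0 hβ hε hε2) hT0 (perturb_sq hS2 hε).1 hT2
  rw [(perturb_id (integrable_id_of_sq hS2) hε).2]
  exact hlt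

lemma stationary_unique [IsProbabilityMeasure νS] [IsProbabilityMeasure νT]
    (hS0 : ∀ᵐ s ∂νS, 0 ≤ s) (hT0 : ∀ᵐ t ∂νT, 0 ≤ t)
    (hS2 : Integrable (fun s => s ^ 2) νS) (hT2 : Integrable (fun t => t ^ 2) νT)
    (hES : 0 < ∫ s, s ∂νS)
    (hlt : ∫ s, s ∂νS < (n + 1) * ∫ t, t ∂νT) {μ1 μ2 : Measure (Fin (n + 1) → ℝ)}
    (h1 : IsStationary νS νT μ1) (h2 : IsStationary νS νT μ2) : μ1 = μ2 := by
  classical
  have hex : ∀ ε : ℝ, ∃ μ : Measure (Fin (n + 1) → ℝ), 0 < ε → ε < 1 / 1 →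
      IsStationary (perturb νS 1 ε) νT μ := by
    intro ε
    by_cases hε : 0 < ε ∧ ε < 1 / 1
    · obtain ⟨μ, hμ⟩ := exists_perturbed (n := n) hS0 hT0 hS2 hT2 hlt one_pos hε.1 hε.2
      exact ⟨μ, fun _ _ => hμ⟩
    · exact ⟨0, fun a b => absurd ⟨a, b⟩ hε⟩
  choose με hμε using hex
  have F1 : Fam n νS νT μ1 1 με :=
    ⟨⟨inferInstance, inferInstance, hS0, hT0, hS2, hT2, hlt, h1⟩, hES, one_pos,
      fun ε a b => hμε ε a b⟩
  have F2 : Fam n νS νT μ2 1 με :=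
    ⟨⟨inferInstance, inferInstance, hS0, hT0, hS2, hT2, hlt, h2⟩, hES, one_pos,
      fun ε a b => hμε ε a b⟩
  have := h1.1
  have := h2.1
  apply ext_of_forall_integral_eq_of_IsFiniteMeasure
  intro f
  let G : C(Om n, Fin (n + 1) → ℝ) := ⟨fun p => p.1.1, by fun_prop⟩
  have w1 := F1.weak (f.compContinuous G)
  have w2 := F2.weak (f.compContinuous G)
  have e := tendsto_nhds_unique w1 w2
  have m1 : ∫ p, f p.1.1 ∂(jt μ1 νS νT) = ∫ w, f w ∂μ1 := by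
    have hm := F1.base.map_w
    conv_rhs => rw [← hm]
    rw [integral_map (by fun_prop) f.continuous.aestronglyMeasurable]
  have m2 : ∫ p, f p.1.1 ∂(jt μ2 νS νT) = ∫ w, f w ∂μ2 := by
    have hm := F2.base.map_w
    conv_rhs => rw [← hm]
    rw [integral_map (by fun_prop) f.continuous.aestronglyMeasurable]
  rw [← m1, ← m2]
  exact e

lemma existsUnique_stationary [IsProbabilityMeasure νS] [IsProbabilityMeasure νT]
    (hS0 : ∀ᵐ s ∂νS, 0 ≤ s) (hT0 : ∀ᵐ t ∂νT, 0 ≤ t)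
    (hS2 : Integrable (fun s => s ^ 2) νS) (hT2 : Integrable (fun t => t ^ 2) νT)
    (hES : 0 < ∫ s, s ∂νS)
    (hlt : ∫ s, s ∂νS < (n + 1) * ∫ t, t ∂νT) :
    ∃! μ : Measure (Fin (n + 1) → ℝ), IsStationary νS νT μ := by
  obtain ⟨μ, hμ⟩ := exists_stationary (n := n) hS0 hT0 hS2 hT2 hlt
  exact ⟨μ, hμ, fun μ' h => stationary_unique hS0 hT0 hS2 hT2 hES hlt h hμ⟩

end Pool.Agent.Work.MP_1ece5f_pr
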