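import Pool.Agent.Work.MP_1ece5f_pr.Close

open MeasureTheory Filter Topology
open scoped ENNReal

namespace Pool.Agent.Work.MP_1ece5f_pr

set_option maxHeartbeats 400000

attribute [local irreducible] kwStep

section
variable {n : ℕ} {μ' μ : Measure (Fin (n + 1) → ℝ)} {νS' νS νT : Measure ℝ}
  {κ : Measure (ℝ × ℝ)}

lemma measurable_pr1 : Measurable (fun p : EE n × U => (((p.1.1, p.2.1.1), p.2.2) : Om n)) :=
  ((measurable_fst.comp measurable_fst).prodMk
    (measurable_fst.comp (measurable_fst.comp measurable_snd))).prodMk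
    (measurable_snd.comp measurable_snd)

lemma measurable_pr2 : Measurable (fun p : EE n × U => (((p.1.2, p.2.1.2), p.2.2) : Om n)) :=
  ((measurable_snd.comp measurable_fst).prodMk
    (measurable_snd.comp (measurable_fst.comp measurable_snd))).prodMk
    (measurable_snd.comp measurable_snd)

lemma map_pr1 {γ : Measure (EE n)} (h : IsCpl γ μ' μ) [IsProbabilityMeasure μ]
    [IsProbabilityMeasure μ'] [IsProbabilityMeasure νT] [IsProbabilityMeasure νS']
    (hκ1 : κ.map Prod.fst = νS') [IsProbabilityMeasure κ] :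
    (γ.prod (κ.prod νT)).map (fun p => (((p.1.1, p.2.1.1), p.2.2) : Om n)) = jt μ' νS' νT := by
  have := h.prob
  have hT : νT.map id = νT := Measure.map_id
  have e1 : (γ.prod (κ.prod νT)).map (Prod.map Prod.fst (Prod.map Prod.fst id)) =
      μ'.prod (νS'.prod νT) := by
    rw [← Measure.map_prod_map _ _ measurable_fst (measurable_fst.prodMap measurable_id),
      ← Measure.map_prod_map _ _ measurable_fst measurable_id, h.1, hκ1, hT]
  have e2 : (fun p : EE n × U => (((p.1.1, p.2.1.1), p.2.2) : Om n)) =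
      (MeasurableEquiv.prodAssoc.symm : (Fin (n + 1) → ℝ) × ℝ × ℝ → Om n) ∘
        (Prod.map Prod.fst (Prod.map Prod.fst id)) := by
    funext p
    rfl
  rw [e2, ← Measure.map_map MeasurableEquiv.prodAssoc.symm.measurable
      (measurable_fst.prodMap (measurable_fst.prodMap measurable_id)), e1]
  rw [← Measure.prodAssoc_prod, Measure.map_map MeasurableEquiv.prodAssoc.symm.measurable
    MeasurableEquiv.prodAssoc.measurable, MeasurableEquiv.symm_comp_self, Measure.map_id]
  rfl

lemma map_pr2 {γ : Measure (EE n)} (h : IsCpl γ μ' μ) [IsProbabilityMeasure μ]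
    [IsProbabilityMeasure νT] [IsProbabilityMeasure νS]
    (hκ2 : κ.map Prod.snd = νS) [IsProbabilityMeasure κ] :
    (γ.prod (κ.prod νT)).map (fun p => (((p.1.2, p.2.1.2), p.2.2) : Om n)) = jt μ νS νT := by
  have := h.prob
  have hT : νT.map id = νT := Measure.map_id
  have e1 : (γ.prod (κ.prod νT)).map (Prod.map Prod.snd (Prod.map Prod.snd id)) =
      μ.prod (νS.prod νT) := by
    rw [← Measure.map_prod_map _ _ measurable_snd (measurable_snd.prodMap measurable_id),
      ← Measure.map_prod_map _ _ measurable_snd measurable_id, h.2, hκ2, hT]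
  have e2 : (fun p : EE n × U => (((p.1.2, p.2.1.2), p.2.2) : Om n)) =
      (MeasurableEquiv.prodAssoc.symm : (Fin (n + 1) → ℝ) × ℝ × ℝ → Om n) ∘
        (Prod.map Prod.snd (Prod.map Prod.snd id)) := by
    funext p
    rfl
  rw [e2, ← Measure.map_map MeasurableEquiv.prodAssoc.symm.measurable
      (measurable_snd.prodMap (measurable_snd.prodMap measurable_id)), e1]
  rw [← Measure.prodAssoc_prod, Measure.map_map MeasurableEquiv.prodAssoc.symm.measurable
    MeasurableEquiv.prodAssoc.measurable, MeasurableEquiv.symm_comp_self, Measure.map_id]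
  rfl

end

section
variable {n : ℕ} {νS νT : Measure ℝ} {μ : Measure (Fin (n + 1) → ℝ)} {β ε : ℝ}
  {με : ℝ → Measure (Fin (n + 1) → ℝ)}

/-- joint law in the perturbed system -/
noncomputable def je (νS νT : Measure ℝ) (β : ℝ) (με : ℝ → Measure (Fin (n + 1) → ℝ)) (ε : ℝ) :
    Measure (Om n) := jt (με ε) (perturb νS β ε) νT

lemma lip_diff_le {F : Om n → ℝ} {C L : ℝ} (hC : ∀ x y, |F x - F y| ≤ C) (hL0 : 0 ≤ L)
    (hL : ∀ x y, |F x - F y| ≤ L * dist x y) (x y : Fin (n + 1) → ℝ) (s' s t : ℝ) :
    |F ((x, s'), t) - F ((y, s), t)| ≤ (C + L) * (min 1 (dist x y) + |s' - s|) := by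
  have hC0 : 0 ≤ C := (abs_nonneg _).trans (hC ((x, s'), t) ((x, s'), t))
  have h1 : |F ((x, s'), t) - F ((y, s'), t)| ≤ (C + L) * min 1 (dist x y) := by
    rcases le_total 1 (dist x y) with h | h
    · rw [min_eq_left h, mul_one]
      linarith [hC ((x, s'), t) ((y, s'), t)]
    · rw [min_eq_right h]
      have h2 := hL ((x, s'), t) ((y, s'), t)
      have h3 : dist (((x, s'), t) : Om n) ((y, s'), t) = dist x y := by
        simp [Prod.dist_eq]
      rw [h3] at h2
      nlinarith [dist_nonneg (x := x) (y := y)]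
  have h4 : |F ((y, s'), t) - F ((y, s), t)| ≤ L * |s' - s| := by
    have h2 := hL ((y, s'), t) ((y, s), t)
    have h3 : dist (((y, s'), t) : Om n) ((y, s), t) = |s' - s| := by
      simp [Prod.dist_eq, Real.dist_eq]
    rwa [h3] at h2
  have h5 := abs_sub_le (F ((x, s'), t)) (F ((y, s'), t)) (F ((y, s), t))
  have h6 : 0 ≤ C * |s' - s| := by positivity
  nlinarith

lemma Fam.lip_tendsto (H : Fam n νS νT μ β με) {F : Om n → ℝ}
    (hb : ∃ C : ℝ, ∀ x y, dist (F x) (F y) ≤ C) (hl : ∃ L, LipschitzWith L F) :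
    Tendsto (fun ε => ∫ p, F p ∂(je νS νT β με ε)) (𝓝[>] 0) (𝓝 (∫ p, F p ∂(jt μ νS νT))) := by
  obtain ⟨C, hC⟩ := hb
  obtain ⟨L, hL⟩ := hl
  have := H.base.pS; have := H.base.pT; have := H.base.pmu; have := H.base.pj
  have hFm : Measurable F := hL.continuous.measurable
  have hC' : ∀ x y, |F x - F y| ≤ C := fun x y => by
    have := hC x y
    rwa [Real.dist_eq] at this
  have hL' : ∀ x y, |F x - F y| ≤ (L : ℝ) * dist x y := fun x y => by
    have := hL.dist_le_mul x y
    rwa [Real.dist_eq] at this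
  have hC0 : 0 ≤ C := (abs_nonneg _).trans (hC' ((0, 0), 0) ((0, 0), 0))
  have hβ := H.hβ
  have hES := H.hES
  set ES := ∫ s, s ∂νS with hESdef
  set A : ℝ := C + L + 1 with hA
  have hApos : 0 < A := by positivity
  rw [Metric.tendsto_nhds]
  intro η hη
  have hclose := H.eventually_close (δ := η / (4 * A)) (by positivity)
  have hsm := eventually_small hβ (c := η / (4 * A * (2 * β * ES))) (by positivity)
  filter_upwards [hclose, hsm] with ε h1 h2
  obtain ⟨γ, hγ, hI⟩ := h1
  obtain ⟨hε0, hε1, hε2, hε3⟩ := h2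
  have hSys := H.sys hε0 hε1
  have := hSys.pS; have := hSys.pmu; have := hγ.prob
  have := kap_prob (νS := νS) (β := β) (ε := ε)
  have hdisc := disc_le (νT := νT) H.base.S1 H.base.S0 hβ hε0
  set Γ := γ.prod ((kap νS β ε).prod νT) with hΓ
  have i1 : ∫ p, F p ∂(je νS νT β με ε) =
      ∫ p, F ((p.1.1, p.2.1.1), p.2.2) ∂Γ := by
    unfold je
    rw [← map_pr1 hγ kap_fst, integral_map measurable_pr1.aemeasurable
      hFm.aestronglyMeasurable]
  have i2 : ∫ p, F p ∂(jt μ νS νT) =
      ∫ p, F ((p.1.2, p.2.1.2), p.2.2) ∂Γ := by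
    rw [← map_pr2 hγ (kap_snd (νS := νS) (β := β) (ε := ε)),
      integral_map measurable_pr2.aemeasurable hFm.aestronglyMeasurable]
  have hFb : ∀ x, |F x| ≤ |F ((0, 0), 0)| + C := fun x => by
    have h3 := hC' x ((0, 0), 0)
    have h4 := abs_sub_abs_le_abs_sub (F x) (F ((0, 0), 0))
    linarith
  have j1 : Integrable (fun p : EE n × U => F ((p.1.1, p.2.1.1), p.2.2)) Γ := by
    apply Integrable.of_bound (C := |F ((0, 0), 0)| + C)
      (hFm.comp measurable_pr1).aestronglyMeasurable
    filter_upwards with p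
    exact hFb _
  have j2 : Integrable (fun p : EE n × U => F ((p.1.2, p.2.1.2), p.2.2)) Γ := by
    apply Integrable.of_bound (C := |F ((0, 0), 0)| + C)
      (hFm.comp measurable_pr2).aestronglyMeasurable
    filter_upwards with p
    exact hFb _
  rw [i1, i2, Real.dist_eq, ← integral_sub j1 j2]
  have k1 : ENNReal.ofReal |∫ p, (F ((p.1.1, p.2.1.1), p.2.2) - F ((p.1.2, p.2.1.2), p.2.2)) ∂Γ|
      ≤ ENNReal.ofReal (η / 2) := by
    calc ENNReal.ofReal |∫ p, (F ((p.1.1, p.2.1.1), p.2.2) -
            F ((p.1.2, p.2.1.2), p.2.2)) ∂Γ|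
        = ‖∫ p, (F ((p.1.1, p.2.1.1), p.2.2) - F ((p.1.2, p.2.1.2), p.2.2)) ∂Γ‖ₑ := by
          rw [Real.enorm_eq_ofReal_abs]
      _ ≤ ∫⁻ p, ‖F ((p.1.1, p.2.1.1), p.2.2) - F ((p.1.2, p.2.1.2), p.2.2)‖ₑ ∂Γ :=
          enorm_integral_le_lintegral_enorm _
      _ ≤ ∫⁻ p, ENNReal.ofReal A * (F0 p.1 + disc p.2) ∂Γ := by
          apply lintegral_mono
          intro p
          have h3 := lip_diff_le hC' L.coe_nonneg hL' p.1.1 p.1.2 p.2.1.1 p.2.1.2 p.2.2
          have h4 : |F ((p.1.1, p.2.1.1), p.2.2) - F ((p.1.2, p.2.1.2), p.2.2)| ≤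
              A * (min 1 (dist p.1.1 p.1.2) + |p.2.1.1 - p.2.1.2|) := by
            refine h3.trans ?_
            apply mul_le_mul_of_nonneg_right
            · rw [hA]
              linarith
            · have : 0 ≤ min 1 (dist p.1.1 p.1.2) := le_min zero_le_one dist_nonneg
              positivity
          simp only
          rw [Real.enorm_eq_ofReal_abs]
          refine (ENNReal.ofReal_le_ofReal h4).trans ?_
          rw [ENNReal.ofReal_mul hApos.le]
          gcongr
          rw [ENNReal.ofReal_add (le_min zero_le_one dist_nonneg) (abs_nonneg _)]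
          unfold F0 disc
          gcongr
          rw [edist_dist]
          rcases le_total 1 (dist p.1.1 p.1.2) with h | h
          · rw [min_eq_left h, ENNReal.ofReal_one]
            apply le_min le_rfl
            rw [← ENNReal.ofReal_one]
            exact ENNReal.ofReal_le_ofReal h
          · rw [min_eq_right h]
            apply le_min _ le_rfl
            rw [← ENNReal.ofReal_one]
            exact ENNReal.ofReal_le_ofReal h
      _ = ENNReal.ofReal A * (∫⁻ z, F0 z ∂γ + ∫⁻ u, disc u ∂((kap νS β ε).prod νT)) := by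
          have m3 : Measurable (fun p : EE n × U => F0 p.1) := measurable_F0.comp measurable_fst
          have m4 : Measurable (fun p : EE n × U => disc p.2) :=
            measurable_disc.comp measurable_snd
          have m5 : ∫⁻ p, ENNReal.ofReal A * (F0 p.1 + disc p.2) ∂Γ =
              ENNReal.ofReal A * ∫⁻ p, (F0 p.1 + disc p.2) ∂Γ :=
            lintegral_const_mul _ (m3.add m4)
          have m6 : ∫⁻ p, (F0 p.1 + disc p.2) ∂Γ = ∫⁻ p, F0 p.1 ∂Γ + ∫⁻ p, disc p.2 ∂Γ :=
            lintegral_add_left m3 _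
          rw [m5, m6]
          have m1 : ∫⁻ p, F0 p.1 ∂Γ = ∫⁻ z, F0 z ∂γ := by
            rw [hΓ, lintegral_prod _ m3.aemeasurable]
            simp
          have m2 : ∫⁻ p, disc p.2 ∂Γ = ∫⁻ u, disc u ∂((kap νS β ε).prod νT) := by
            rw [hΓ, lintegral_prod _ m4.aemeasurable]
            simp
          rw [m1, m2]
      _ ≤ ENNReal.ofReal A * (ENNReal.ofReal (η / (4 * A)) +
            ENNReal.ofReal (2 * β * ε * ES)) := by gcongr
      _ = ENNReal.ofReal (A * (η / (4 * A) + 2 * β * ε * ES)) := by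
          rw [← ENNReal.ofReal_add (by positivity) (by positivity),
            ← ENNReal.ofReal_mul hApos.le]
      _ ≤ ENNReal.ofReal (η / 2) := by
          apply ENNReal.ofReal_le_ofReal
          rw [lt_div_iff₀ (by positivity)] at hε3
          have e1 : A * (η / (4 * A) + 2 * β * ε * ES) = η / 4 + A * (2 * β * ε * ES) := by
            field_simp
          rw [e1]
          nlinarith
  have k2 := (ENNReal.ofReal_le_ofReal_iff (by positivity)).mp k1
  linarith

lemma Fam.weak (H : Fam n νS νT μ β με) (F : BoundedContinuousFunction (Om n) ℝ) :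
    Tendsto (fun ε => ∫ p, F p ∂(je νS νT β με ε)) (𝓝[>] 0) (𝓝 (∫ p, F p ∂(jt μ νS νT))) := by
  classical
  have := H.base.pj
  let P0 : ProbabilityMeasure (Om n) := ⟨jt μ νS νT, H.base.pj⟩
  let P : ℝ → ProbabilityMeasure (Om n) := fun ε =>
    if h : IsProbabilityMeasure (je νS νT β με ε) then ⟨je νS νT β με ε, h⟩ else P0
  have hev : ∀ᶠ ε in 𝓝[>] (0 : ℝ), ((P ε : ProbabilityMeasure (Om n)) : Measure (Om n)) =
      je νS νT β με ε := by
    filter_upwards [eventually_small H.hβ one_pos] with ε hε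
    have h := (H.sys hε.1 hε.2.1).pj
    have h' : IsProbabilityMeasure (je νS νT β με ε) := h
    simp only [P, dif_pos h']
    rfl
  have hP : Tendsto P (𝓝[>] 0) (𝓝 P0) := by
    rw [tendsto_iff_forall_lipschitz_integral_tendsto]
    intro f hb hl
    have h1 := H.lip_tendsto hb hl
    refine h1.congr' ?_
    filter_upwards [hev] with ε hε
    rw [hε]
  rw [ProbabilityMeasure.tendsto_iff_forall_integral_tendsto] at hP
  refine (hP F).congr' ?_
  filter_upwards [hev] with ε hε
  rw [hε]

end

end Pool.Agent.Work.MP_1ece5f_pr
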